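import Pool.Agent.Helper18.NF.Defs

/-!
# Project NF: basic facts on systems
-/

set_option autoImplicit false

open Finset Filter Topology
open Pool.Agent.Helper18.BV
open scoped ArithmeticFunction.vonMangoldt ArithmeticFunction.zeta

namespace Pool.Agent.Helper18.NF

variable {n : ℕ} {r L : ArithmeticFunction ℝ} {κ : ℝ}

theorem IsSys.L_one (h : IsSys n r L κ) : L 1 = 0 := by
  have h1 := h.L_le 1
  simp only [ArithmeticFunction.vonMangoldt_apply_one, mul_zero] at h1
  exact le_antisymm h1 (h.L_nonneg 1)

theorem IsSys.conv_sum (h : IsSys n r L κ) (m : ℕ) :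
    ∑ p ∈ m.divisorsAntidiagonal, r p.1 * L p.2 = r m * Real.log m := by
  rw [← h.conv m, ArithmeticFunction.mul_apply]

/-- comparison principle: a function `f` with `f 1 ≥ 0` and `f m log m` a nonnegative combination of
the values at proper divisors is nonnegative. -/
theorem nonneg_of_log {f K : ℕ → ℝ} (h1 : 0 ≤ f 1) (hK : ∀ m, 0 ≤ K m) (hK1 : K 1 = 0)
    (h : ∀ m, 2 ≤ m → ∑ p ∈ m.divisorsAntidiagonal, f p.1 * K p.2 ≤ f m * Real.log m) (m : ℕ)
    (hm : 1 ≤ m) : 0 ≤ f m := by
  induction m using Nat.strong_induction_on with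
  | _ m ih =>
    rcases Nat.lt_or_ge m 2 with h2 | h2
    · have : m = 1 := by omega
      rw [this]; exact h1
    · have h3 : 0 ≤ ∑ p ∈ m.divisorsAntidiagonal, f p.1 * K p.2 := by
        apply Finset.sum_nonneg
        rintro ⟨a, b⟩ hab
        obtain ⟨hab, hm0⟩ := Nat.mem_divisorsAntidiagonal.1 hab
        simp only at hab ⊢
        have ha : a ≠ 0 := by rintro rfl; simp at hab; omega
        have hb : b ≠ 0 := by rintro rfl; simp at hab; omega
        rcases Nat.lt_or_ge b 2 with hb2 | hb2
        · have : b = 1 := by omega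
          rw [this, hK1, mul_zero]
        · have ham : a < m := by
            rw [← hab]; nlinarith [Nat.pos_of_ne_zero ha]
          exact mul_nonneg (ih a ham (by omega)) (hK b)
      have h4 : 0 < Real.log m := Real.log_pos (by exact_mod_cast (by omega : 1 < m))
      have h5 := h3.trans (h m h2)
      by_contra h6
      push Not at h6
      nlinarith

theorem IsSys.r_nonneg (h : IsSys n r L κ) (m : ℕ) : 0 ≤ r m := by
  rcases Nat.eq_zero_or_pos m with rfl | hm
  · simp
  · exact nonneg_of_log (f := fun m => r m) (K := fun m => L m) (by rw [h.one]; norm_num)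
      h.L_nonneg h.L_one (fun m _ => (h.conv_sum m).le) m hm

/-- the derivation `f(m) log m` on real arithmetic functions -/
noncomputable def DR (f : ArithmeticFunction ℝ) : ArithmeticFunction ℝ :=
  ⟨fun m => f m * Real.log m, by simp⟩

theorem DR_apply (f : ArithmeticFunction ℝ) (m : ℕ) : DR f m = f m * Real.log m := rfl

theorem DR_mul (f g : ArithmeticFunction ℝ) : DR (f * g) = DR f * g + f * DR g := by
  ext m
  rw [DR_apply, ArithmeticFunction.add_apply, ArithmeticFunction.mul_apply,
    ArithmeticFunction.mul_apply, ArithmeticFunction.mul_apply, ← Finset.sum_add_distrib,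
    Finset.sum_mul]
  apply Finset.sum_congr rfl
  rintro ⟨a, b⟩ hab
  obtain ⟨hab, hm0⟩ := Nat.mem_divisorsAntidiagonal.1 hab
  simp only at hab ⊢
  have ha : (a : ℝ) ≠ 0 := by
    intro h0
    have : a = 0 := by exact_mod_cast h0
    rw [this, zero_mul] at hab; exact hm0 hab.symm
  have hb : (b : ℝ) ≠ 0 := by
    intro h0
    have : b = 0 := by exact_mod_cast h0
    rw [this, mul_zero] at hab; exact hm0 hab.symm
  rw [DR_apply, DR_apply, ← hab]
  push_cast
  rw [Real.log_mul ha hb]
  ring

theorem DR_one : DR 1 = 0 := by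
  ext m
  rw [DR_apply, ArithmeticFunction.zero_apply]
  rcases eq_or_ne m 1 with rfl | hm
  · simp
  · rw [ArithmeticFunction.one_apply_ne hm, zero_mul]

theorem IsSys.DR_eq (h : IsSys n r L κ) : r * L = DR r := by
  ext m; rw [h.conv m, DR_apply]

/-- the Dirichlet inverse -/
theorem IsSys.exists_inv (h : IsSys n r L κ) :
    ∃ mu : ArithmeticFunction ℝ, r * mu = 1 ∧ ∀ m : ℕ, |mu m| ≤ r m := by
  have hu : IsUnit r := by
    rw [ArithmeticFunction.isUnit_iff_isUnit_apply_one, h.one]
    exact isUnit_one
  obtain ⟨u, hu⟩ := hu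
  refine ⟨(u⁻¹ : (ArithmeticFunction ℝ)ˣ), by rw [← hu]; exact u.mul_inv, ?_⟩
  set mu : ArithmeticFunction ℝ := ((u⁻¹ : (ArithmeticFunction ℝ)ˣ) : ArithmeticFunction ℝ)
    with hmu
  have h1 : r * mu = 1 := by rw [← hu]; exact u.mul_inv
  have h2 : mu * L = - DR mu := by
    have h3 : DR (r * mu) = 0 := by rw [h1, DR_one]
    rw [DR_mul, ← h.DR_eq] at h3
    have h4 : mu * (r * L * mu + r * DR mu) = 0 := by rw [h3, mul_zero]
    have h5 : mu * (r * L * mu + r * DR mu) = (r * mu) * (mu * L) + (r * mu) * DR mu := by ring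
    rw [h5, h1, one_mul, one_mul] at h4
    exact eq_neg_of_add_eq_zero_left h4
  have hmu1 : mu 1 = 1 := by
    have h3 : (r * mu) 1 = (1 : ArithmeticFunction ℝ) 1 := by rw [h1]
    rw [ArithmeticFunction.mul_apply_one, h.one, one_mul, ArithmeticFunction.one_one] at h3
    exact h3
  have h3 : ∀ m : ℕ, ∑ p ∈ m.divisorsAntidiagonal, mu p.1 * L p.2 = - (mu m * Real.log m) := by
    intro m
    have : (mu * L) m = (- DR mu) m := by rw [h2]
    rw [ArithmeticFunction.mul_apply] at this
    rw [this]
    rfl
  intro m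
  rcases Nat.eq_zero_or_pos m with rfl | hm
  · simp
  rw [abs_le]
  induction m using Nat.strong_induction_on with
  | _ m ih =>
    rcases Nat.lt_or_ge m 2 with h4 | h4
    · have : m = 1 := by omega
      rw [this, hmu1, h.one]
      norm_num
    have hlog : 0 < Real.log m := Real.log_pos (by exact_mod_cast (by omega : 1 < m))
    have hkey : ∀ p ∈ m.divisorsAntidiagonal, |mu p.1 * L p.2| ≤ r p.1 * L p.2 := by
      rintro ⟨a, b⟩ hab
      obtain ⟨hab, hm0⟩ := Nat.mem_divisorsAntidiagonal.1 hab
      simp only at hab ⊢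
      have ha : a ≠ 0 := by rintro rfl; simp at hab; omega
      have hb : b ≠ 0 := by rintro rfl; simp at hab; omega
      rcases Nat.lt_or_ge b 2 with hb2 | hb2
      · have : b = 1 := by omega
        rw [this, h.L_one, mul_zero, mul_zero, abs_zero]
      · have ham : a < m := by
          rw [← hab]; nlinarith [Nat.pos_of_ne_zero ha]
        rw [abs_mul, abs_of_nonneg (h.L_nonneg b)]
        exact mul_le_mul_of_nonneg_right (abs_le.2 (ih a ham (by omega))) (h.L_nonneg b)
    have h5 : |mu m * Real.log m| ≤ r m * Real.log m := by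
      have h6 : mu m * Real.log m = - ∑ p ∈ m.divisorsAntidiagonal, mu p.1 * L p.2 := by
        rw [h3 m]; ring
      rw [h6, abs_neg, ← h.conv_sum m]
      exact (Finset.abs_sum_le_sum_abs _ _).trans (Finset.sum_le_sum hkey)
    rw [abs_mul, abs_of_pos hlog] at h5
    exact abs_le.1 (le_of_mul_le_mul_right h5 hlog)

/-- powers of zeta -/
theorem zeta_pow_le (k m : ℕ) :
    (((ζ : ArithmeticFunction ℕ) : ArithmeticFunction ℝ) ^ k) m ≤ (m.divisors.card : ℝ) ^ k := by
  induction k generalizing m with
  | zero =>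
    rw [pow_zero, pow_zero]
    rcases eq_or_ne m 1 with rfl | hm
    · simp
    · rw [ArithmeticFunction.one_apply_ne hm]; norm_num
  | succ k ih =>
    rw [pow_succ, ArithmeticFunction.mul_apply]
    have h1 : ∀ p ∈ m.divisorsAntidiagonal,
        (((ζ : ArithmeticFunction ℕ) : ArithmeticFunction ℝ) ^ k) p.1 *
          ((ζ : ArithmeticFunction ℕ) : ArithmeticFunction ℝ) p.2 ≤ (m.divisors.card : ℝ) ^ k := by
      rintro ⟨a, b⟩ hab
      obtain ⟨hab, hm0⟩ := Nat.mem_divisorsAntidiagonal.1 hab
      simp only at hab ⊢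
      have hb : b ≠ 0 := by rintro rfl; simp at hab; omega
      rw [ArithmeticFunction.natCoe_apply, ArithmeticFunction.zeta_apply_ne hb, Nat.cast_one,
        mul_one]
      refine (ih a).trans ?_
      apply pow_le_pow_left₀ (Nat.cast_nonneg _)
      exact_mod_cast Finset.card_le_card (Nat.divisors_subset_of_dvd hm0 ⟨b, hab.symm⟩)
    refine (Finset.sum_le_card_nsmul _ _ _ h1).trans ?_
    rw [nsmul_eq_mul, pow_succ, mul_comm]
    have : m.divisorsAntidiagonal.card = m.divisors.card := by
      rw [← Nat.map_div_right_divisors, Finset.card_map]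
    rw [this]

theorem DR_zeta_pow (k : ℕ) : DR (((ζ : ArithmeticFunction ℕ) : ArithmeticFunction ℝ) ^ k) =
    (k : ArithmeticFunction ℝ) * (((ζ : ArithmeticFunction ℕ) : ArithmeticFunction ℝ) ^ k * Λ) := by
  induction k with
  | zero => rw [pow_zero, DR_one]; simp
  | succ k ih =>
    have h1 : DR ((ζ : ArithmeticFunction ℕ) : ArithmeticFunction ℝ) =
        ((ζ : ArithmeticFunction ℕ) : ArithmeticFunction ℝ) * Λ := by
      rw [mul_comm, ArithmeticFunction.vonMangoldt_mul_zeta]
      ext m
      rw [DR_apply, ArithmeticFunction.log_apply]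
      rcases eq_or_ne m 0 with rfl | hm
      · simp
      · rw [ArithmeticFunction.natCoe_apply, ArithmeticFunction.zeta_apply_ne hm]; simp
    rw [pow_succ, DR_mul, ih, h1]
    push_cast
    ring

theorem natCast_mul_apply (k : ℕ) (f : ArithmeticFunction ℝ) (m : ℕ) :
    ((k : ArithmeticFunction ℝ) * f) m = k * f m := by
  induction k with
  | zero => simp
  | succ k ih =>
    push_cast
    rw [add_mul, ArithmeticFunction.add_apply, ih, one_mul]
    ring

theorem IsSys.r_le (h : IsSys n r L κ) (m : ℕ) : r m ≤ (m.divisors.card : ℝ) ^ n := by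
  refine le_trans ?_ (zeta_pow_le n m)
  set Z : ArithmeticFunction ℝ := ((ζ : ArithmeticFunction ℕ) : ArithmeticFunction ℝ) ^ n with hZ
  have hZ1 : Z 1 = 1 := by
    rw [hZ]
    have : ∀ k : ℕ, (((ζ : ArithmeticFunction ℕ) : ArithmeticFunction ℝ) ^ k) 1 = 1 := by
      intro k
      induction k with
      | zero => simp
      | succ k ih =>
        rw [pow_succ, ArithmeticFunction.mul_apply_one, ih]
        simp
    exact this n
  rcases Nat.eq_zero_or_pos m with rfl | hm
  · simp
  -- nonneg of Z - r
  have hZr : ∀ m : ℕ, 1 ≤ m → 0 ≤ (fun m => Z m - r m) m := by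
    apply nonneg_of_log (f := fun m => Z m - r m) (K := fun m => L m)
    · simp [hZ1, h.one]
    · exact h.L_nonneg
    · exact h.L_one
    · intro m hm
      have h1 : ∑ p ∈ m.divisorsAntidiagonal, (Z p.1 - r p.1) * L p.2 =
          (∑ p ∈ m.divisorsAntidiagonal, Z p.1 * L p.2) - r m * Real.log m := by
        rw [← h.conv_sum m, ← Finset.sum_sub_distrib]
        exact Finset.sum_congr rfl fun p _ => by ring
      rw [h1]
      have hZnn : ∀ m : ℕ, 0 ≤ Z m := by
        intro m
        rw [hZ]
        have : ∀ k m : ℕ, 0 ≤ (((ζ : ArithmeticFunction ℕ) : ArithmeticFunction ℝ) ^ k) m := by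
          intro k
          induction k with
          | zero =>
            intro m
            rw [pow_zero]
            rcases eq_or_ne m 1 with rfl | hm
            · simp
            · rw [ArithmeticFunction.one_apply_ne hm]
          | succ k ih =>
            intro m
            rw [pow_succ, ArithmeticFunction.mul_apply]
            apply Finset.sum_nonneg
            intro p _
            apply mul_nonneg (ih _)
            rw [ArithmeticFunction.natCoe_apply]
            exact Nat.cast_nonneg _
        exact this n m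
      have h2 : ∑ p ∈ m.divisorsAntidiagonal, Z p.1 * L p.2 ≤ Z m * Real.log m := by
        have h3 : Z m * Real.log m = ∑ p ∈ m.divisorsAntidiagonal, Z p.1 * (n * Λ p.2) := by
          have h4 : (DR Z) m = ((n : ArithmeticFunction ℝ) * (Z * Λ)) m := by
            rw [hZ, DR_zeta_pow]
          rw [DR_apply] at h4
          rw [h4]
          rw [natCast_mul_apply, ArithmeticFunction.mul_apply, Finset.mul_sum]
          exact Finset.sum_congr rfl fun p _ => by ring
        rw [h3]
        exact Finset.sum_le_sum fun p _ => mul_le_mul_of_nonneg_left (h.L_le _) (hZnn _)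
      linarith
  have := hZr m hm
  simp only at this
  linarith

end Pool.Agent.Helper18.NF
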