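import Pool.Agent.Helper18.NF.Basic

/-!
# Project NF: basic facts on systems, sums
-/

set_option autoImplicit false

open Finset Filter Topology
open Pool.Agent.Helper18.BV
open scoped ArithmeticFunction.vonMangoldt ArithmeticFunction.zeta

namespace Pool.Agent.Helper18.NF

variable {n : ℕ} {r L : ArithmeticFunction ℝ} {κ : ℝ}

/-- submultiplicativity of the number of divisors -/
theorem card_divisors_mul_le (a b : ℕ) :
    (a * b).divisors.card ≤ a.divisors.card * b.divisors.card := by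
  rw [Nat.divisors_mul]
  exact Finset.card_mul_le

/-- `∑_{m ≤ N} τ(m)^K / m ≤ (1 + log N)^(2^K)` -/
theorem sum_tau_pow (K N : ℕ) :
    ∑ m ∈ Icc 1 N, (m.divisors.card : ℝ) ^ K / m ≤ (1 + Real.log N) ^ (2 ^ K) := by
  have hlog : 0 ≤ Real.log N := by
    rcases Nat.eq_zero_or_pos N with rfl | hN
    · simp
    · exact Real.log_nonneg (by exact_mod_cast hN)
  induction K with
  | zero =>
    simp only [pow_zero, pow_one, one_div]
    have := harmonic_le_one_add_log N
    rw [harmonic_eq_sum_Icc] at this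
    push_cast at this
    exact this
  | succ K ih =>
    have h1 : ∑ m ∈ Icc 1 N, (m.divisors.card : ℝ) ^ (K + 1) / m ≤
        ∑ m ∈ Icc 1 N, ∑ p ∈ m.divisorsAntidiagonal,
          ((p.1.divisors.card : ℝ) ^ K / p.1) * ((p.2.divisors.card : ℝ) ^ K / p.2) := by
      apply Finset.sum_le_sum
      intro m hm
      have hm0 : m ≠ 0 := by have := (Finset.mem_Icc.1 hm).1; omega
      have h2 : (m.divisors.card : ℝ) ^ (K + 1) / m =
          ∑ p ∈ m.divisorsAntidiagonal, (m.divisors.card : ℝ) ^ K / m := by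
        rw [Finset.sum_const, nsmul_eq_mul]
        have : m.divisorsAntidiagonal.card = m.divisors.card := by
          rw [← Nat.map_div_right_divisors, Finset.card_map]
        rw [this]; ring
      rw [h2]
      apply Finset.sum_le_sum
      rintro ⟨a, b⟩ hab
      obtain ⟨hab, -⟩ := Nat.mem_divisorsAntidiagonal.1 hab
      simp only at hab ⊢
      rw [div_mul_div_comm, ← hab, ← mul_pow]
      push_cast
      apply div_le_div_of_nonneg_right _ (by positivity)
      apply pow_le_pow_left₀ (Nat.cast_nonneg _)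
      exact_mod_cast card_divisors_mul_le a b
    have h3 : ∑ m ∈ Icc 1 N, ∑ p ∈ m.divisorsAntidiagonal,
          ((p.1.divisors.card : ℝ) ^ K / p.1) * ((p.2.divisors.card : ℝ) ^ K / p.2) ≤
        (∑ a ∈ Icc 1 N, (a.divisors.card : ℝ) ^ K / a) *
          (∑ b ∈ Icc 1 N, (b.divisors.card : ℝ) ^ K / b) := by
      rw [Finset.sum_mul_sum, ← Finset.sum_product', Finset.sum_sigma']
      have hinj : Set.InjOn (fun x : (_ : ℕ) × (ℕ × ℕ) => x.2)
          ((Icc 1 N).sigma fun m => m.divisorsAntidiagonal : Finset ((_ : ℕ) × (ℕ × ℕ))) := by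
        rintro ⟨m, a, b⟩ hx ⟨m', a', b'⟩ hx' heq
        simp only [Finset.coe_sigma, Set.mem_sigma_iff, Finset.mem_coe, Finset.mem_Icc,
          Nat.mem_divisorsAntidiagonal] at hx hx'
        obtain ⟨rfl, rfl⟩ := Prod.mk.inj (show (a, b) = (a', b') from heq)
        obtain rfl : m = m' := by rw [← hx.2.1, ← hx'.2.1]
        rfl
      rw [← Finset.sum_image (g := fun x : (_ : ℕ) × (ℕ × ℕ) => x.2)
        (f := fun p : ℕ × ℕ => ((p.1.divisors.card : ℝ) ^ K / p.1) *
          ((p.2.divisors.card : ℝ) ^ K / p.2)) hinj]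
      apply Finset.sum_le_sum_of_subset_of_nonneg
      · rintro ⟨a, b⟩ hx
        obtain ⟨⟨m, a', b'⟩, hy, heq⟩ := Finset.mem_image.1 hx
        clear hx
        obtain ⟨rfl, rfl⟩ := Prod.mk.inj (show (a', b') = (a, b) from heq)
        simp only [Finset.mem_sigma, Finset.mem_Icc, Nat.mem_divisorsAntidiagonal] at hy
        simp only [Finset.mem_product, Finset.mem_Icc]
        obtain ⟨⟨hm1, hm2⟩, hab, hm0⟩ := hy
        have ha : a' ≠ 0 := by rintro rfl; simp at hab; omega
        have hb : b' ≠ 0 := by rintro rfl; simp at hab; omega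
        refine ⟨⟨by omega, ?_⟩, by omega, ?_⟩
        · exact (Nat.le_of_dvd hm1 ⟨b', hab.symm⟩).trans hm2
        · exact (Nat.le_of_dvd hm1 ⟨a', by rw [mul_comm]; exact hab.symm⟩).trans hm2
      · intro x _ _; positivity
    refine h1.trans (h3.trans ?_)
    rw [pow_succ 2 K, pow_mul, sq]
    exact mul_le_mul ih ih (Finset.sum_nonneg fun m _ => by positivity) (by positivity)

/-! ### the tent function -/

theorem tent_nonneg (y : ℝ) : 0 ≤ tent y := le_max_left _ _

theorem tent_le_one (y : ℝ) : tent y ≤ 1 := by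
  unfold tent
  apply max_le zero_le_one
  have := abs_nonneg (Real.logb 2 (max y 1) - 1)
  linarith

theorem tent_of_le {y : ℝ} (hy : y ≤ 1) : tent y = 0 := by
  unfold tent
  rw [max_eq_right hy, Real.logb_one]
  norm_num

theorem tent_of_ge {y : ℝ} (hy : 4 ≤ y) : tent y = 0 := by
  unfold tent
  rw [max_eq_left (by linarith : (1:ℝ) ≤ y)]
  apply max_eq_left
  have h1 : (2:ℝ) ≤ Real.logb 2 y := by
    rw [Real.le_logb_iff_rpow_le (by norm_num) (by linarith)]
    norm_num
    exact hy
  have := le_abs_self (Real.logb 2 y - 1)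
  linarith

theorem tent_lip (y z : ℝ) : |tent y - tent z| ≤ 2 * |y - z| := by
  unfold tent
  have hl2 : 0 < Real.log 2 := Real.log_pos (by norm_num)
  have h2 : (1:ℝ) / 2 ≤ Real.log 2 := by linarith [Real.log_two_gt_d9]
  have hmm : ∀ a b : ℝ, |max 0 a - max 0 b| ≤ |a - b| := by
    intro a b
    have := abs_max_sub_max_le_abs a b 0
    rwa [max_comm a, max_comm b] at this
  refine (hmm _ _).trans (le_trans (b := 2 * |max y 1 - max z 1|) ?_ ?_)
  rotate_left
  · have := abs_max_sub_max_le_abs y z 1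
    linarith
  · have h3 : |1 - |Real.logb 2 (max y 1) - 1| - (1 - |Real.logb 2 (max z 1) - 1|)| ≤
        |Real.logb 2 (max y 1) - Real.logb 2 (max z 1)| := by
      have h4 : 1 - |Real.logb 2 (max y 1) - 1| - (1 - |Real.logb 2 (max z 1) - 1|) =
        |Real.logb 2 (max z 1) - 1| - |Real.logb 2 (max y 1) - 1| := by ring
      rw [h4]
      refine (abs_abs_sub_abs_le _ _).trans ?_
      rw [abs_sub_comm]
      apply le_of_eq
      congr 1
      ring
    refine h3.trans ?_
    have h5 : |Real.log (max y 1) - Real.log (max z 1)| ≤ |max y 1 - max z 1| := by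
      have key : ∀ a b : ℝ, 1 ≤ a → 1 ≤ b → a ≤ b → Real.log b - Real.log a ≤ b - a := by
        intro a b ha hb hab
        rw [← Real.log_div (by linarith) (by linarith)]
        have h6 := Real.log_le_sub_one_of_pos (div_pos (by linarith : 0 < b) (by linarith : 0 < a))
        refine h6.trans ?_
        rw [div_sub_one (by linarith : a ≠ 0), div_le_iff₀ (by linarith)]
        nlinarith
      have hy : 1 ≤ max y 1 := le_max_right _ _
      have hz : 1 ≤ max z 1 := le_max_right _ _
      rcases le_total (max y 1) (max z 1) with h | h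
      · have h7 := key _ _ hy hz h
        have h8 : Real.log (max y 1) ≤ Real.log (max z 1) := Real.log_le_log (by linarith) h
        rw [abs_sub_comm, abs_of_nonneg (by linarith), abs_sub_comm, abs_of_nonneg (by linarith)]
        exact h7
      · have h7 := key _ _ hz hy h
        have h8 : Real.log (max z 1) ≤ Real.log (max y 1) := Real.log_le_log (by linarith) h
        rw [abs_of_nonneg (by linarith), abs_of_nonneg (by linarith)]
        exact h7
    unfold Real.logb
    rw [← sub_div, abs_div, abs_of_pos hl2, div_le_iff₀ hl2]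
    have := abs_nonneg (max y 1 - max z 1)
    nlinarith

theorem tent_isTest : IsTest 2 (fun y => (tent y : ℂ)) where
  lip y z := by
    rw [← Complex.ofReal_sub, Complex.norm_real, Real.norm_eq_abs]
    exact tent_lip y z
  supp y hy := by
    rcases hy with h | h
    · simp [tent_of_le h]
    · simp [tent_of_ge h]

theorem half_le_tent {y : ℝ} (h1 : 3 / 2 ≤ y) (h2 : y ≤ 3 / 2 * (3 / 2)) : 1 / 2 ≤ tent y := by
  unfold tent
  rw [max_eq_left (by linarith : (1:ℝ) ≤ y)]
  apply le_max_of_le_right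
  have hlo : 1 / 2 ≤ Real.logb 2 y := by
    rw [Real.le_logb_iff_rpow_le (by norm_num) (by linarith)]
    refine le_trans ?_ h1
    rw [← Real.sqrt_eq_rpow]
    rw [Real.sqrt_le_left (by norm_num)]
    norm_num
  have hhi : Real.logb 2 y ≤ 3 / 2 := by
    rw [Real.logb_le_iff_le_rpow (by norm_num) (by linarith)]
    refine h2.trans ?_
    have : (2:ℝ) ^ ((3:ℝ) / 2) = 2 * Real.sqrt 2 := by
      have h3 : (2:ℝ) ^ ((3:ℝ) / 2) = (2:ℝ) ^ ((1:ℝ) + 1 / 2) := by norm_num
      rw [h3, Real.rpow_add (by norm_num), Real.rpow_one, Real.sqrt_eq_rpow]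
    rw [this]
    have h3 : (9:ℝ) / 8 ≤ Real.sqrt 2 := by
      apply Real.le_sqrt_of_sq_le
      norm_num
    linarith
  rw [le_sub_comm, abs_le]
  constructor <;> linarith

/-- the sum of `r` is at most linear -/
theorem IsSys.sum_r_le (h : IsSys n r L κ) :
    ∃ C : ℝ, 0 < C ∧ ∀ N : ℕ, ∑ m ∈ Icc 1 N, r m ≤ C * N := by
  obtain ⟨C, hC, ht⟩ := h.triv
  set I : ℝ := ‖∫ y : ℝ, (tent y : ℂ)‖ with hI
  -- one block
  have hblock : ∀ T : ℝ, 1 ≤ T → ∑ m ∈ (Icc 1 ⌊4 * T⌋₊).filter
      (fun m : ℕ => 3 / 2 * T ≤ m ∧ (m : ℝ) ≤ 3 / 2 * (3 / 2) * T), r m ≤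
      2 * (κ * I + C * 2) * T := by
    intro T hT
    have hT0 : 0 < T := by linarith
    have h1 := ht 2 T _ tent_isTest hT
    have h2 : ‖∑ m ∈ Icc 1 ⌊4 * T⌋₊, (r m : ℂ) * (tent (m / T) : ℂ)‖ ≤
        κ * T * I + C * 2 * T := by
      have h3 : ‖∑ m ∈ Icc 1 ⌊4 * T⌋₊, (r m : ℂ) * (tent (m / T) : ℂ)‖ ≤
          C * 2 * T ^ (1 - 1 / (n : ℝ)) + ‖(κ : ℂ) * T * ∫ y, (tent y : ℂ)‖ := by
        have := norm_sub_norm_le (∑ m ∈ Icc 1 ⌊4 * T⌋₊, (r m : ℂ) * (tent (m / T) : ℂ))
          ((κ : ℂ) * T * ∫ y, (tent y : ℂ))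
        linarith
      refine h3.trans ?_
      rw [norm_mul, norm_mul, Complex.norm_real, Complex.norm_real, Real.norm_eq_abs,
        Real.norm_eq_abs, abs_of_pos h.kpos, abs_of_pos hT0, ← hI]
      have h4 : T ^ (1 - 1 / (n : ℝ)) ≤ T := by
        nth_rewrite 2 [← Real.rpow_one T]
        apply Real.rpow_le_rpow_of_exponent_le hT
        have : 0 ≤ 1 / (n : ℝ) := by positivity
        linarith
      nlinarith
    have h5 : ∑ m ∈ Icc 1 ⌊4 * T⌋₊, r m * tent (m / T) ≤ κ * T * I + C * 2 * T := by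
      have h6 : (∑ m ∈ Icc 1 ⌊4 * T⌋₊, (r m : ℂ) * (tent (m / T) : ℂ)) =
          ((∑ m ∈ Icc 1 ⌊4 * T⌋₊, r m * tent (m / T) : ℝ) : ℂ) := by
        push_cast; rfl
      rw [h6, Complex.norm_real] at h2
      exact (le_abs_self _).trans h2
    have h7 : ∑ m ∈ (Icc 1 ⌊4 * T⌋₊).filter
        (fun m : ℕ => 3 / 2 * T ≤ m ∧ (m : ℝ) ≤ 3 / 2 * (3 / 2) * T), r m ≤
        2 * ∑ m ∈ Icc 1 ⌊4 * T⌋₊, r m * tent (m / T) := by
      rw [Finset.mul_sum]
      refine le_trans ?_ (Finset.sum_le_sum_of_subset_of_nonneg (Finset.filter_subset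
        (fun m : ℕ => 3 / 2 * T ≤ m ∧ (m : ℝ) ≤ 3 / 2 * (3 / 2) * T) _) ?_)
      · apply Finset.sum_le_sum
        intro m hm
        obtain ⟨_, h8, h9⟩ := Finset.mem_filter.1 hm
        have h10 : 1 / 2 ≤ tent (m / T) := by
          apply half_le_tent
          · rwa [le_div_iff₀ hT0]
          · rwa [div_le_iff₀ hT0]
        nlinarith [h.r_nonneg m]
      · intro m _ _
        exact mul_nonneg (by norm_num) (mul_nonneg (h.r_nonneg m) (tent_nonneg _))
    refine h7.trans ?_
    nlinarith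
  set K : ℝ := κ * I + C * 2 with hK
  have hK0 : 0 < K := by have := h.kpos; positivity
  refine ⟨3 * K + 3 ^ n * 3, by positivity, ?_⟩
  intro N
  induction N using Nat.strong_induction_on with
  | _ N ih =>
    rcases Nat.lt_or_ge N 3 with hN | hN
    · -- small N
      have h1 : ∑ m ∈ Icc 1 N, r m ≤ ∑ m ∈ Icc 1 N, (3 : ℝ) ^ n := by
        apply Finset.sum_le_sum
        intro m hm
        refine (h.r_le m).trans ?_
        apply pow_le_pow_left₀ (Nat.cast_nonneg _)
        have h2 := (Finset.mem_Icc.1 hm).2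
        have h3 := Nat.card_divisors_le_self m
        exact_mod_cast (by omega : m.divisors.card ≤ 3)
      refine h1.trans ?_
      rw [Finset.sum_const, nsmul_eq_mul, Nat.card_Icc, Nat.add_sub_cancel]
      have : (0:ℝ) ≤ N := Nat.cast_nonneg _
      have h4 : (0:ℝ) < 3 ^ n := by positivity
      nlinarith
    · have hN3 : (3:ℝ) ≤ N := by exact_mod_cast hN
      set T : ℝ := N / (3 / 2 * (3 / 2)) with hT
      have hT1 : 1 ≤ T := by
        rw [hT, le_div_iff₀ (by norm_num)]; linarith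
      set M : ℕ := ⌊3 / 2 * T⌋₊ with hM
      have hMN : M < N := by
        rw [hM, Nat.floor_lt (by positivity), hT]
        field_simp
        linarith
      have hMle : (M : ℝ) ≤ 2 / 3 * N := by
        refine (Nat.floor_le (by positivity)).trans ?_
        rw [hT]; field_simp; norm_num
      have hsub : Icc 1 N ⊆ Icc 1 M ∪ (Icc 1 ⌊4 * T⌋₊).filter
          (fun m : ℕ => 3 / 2 * T ≤ m ∧ (m : ℝ) ≤ 3 / 2 * (3 / 2) * T) := by
        intro m hm
        obtain ⟨h1, h2⟩ := Finset.mem_Icc.1 hm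
        rw [Finset.mem_union, Finset.mem_Icc, Finset.mem_filter, Finset.mem_Icc]
        by_cases h3 : m ≤ M
        · exact Or.inl ⟨h1, h3⟩
        · right
          push Not at h3
          have h4 : 3 / 2 * T < m := (Nat.floor_lt (by positivity)).1 h3
          have h5 : (m : ℝ) ≤ 3 / 2 * (3 / 2) * T := by
            rw [hT]
            have : (m : ℝ) ≤ N := by exact_mod_cast h2
            field_simp
            linarith
          refine ⟨⟨h1, Nat.le_floor ?_⟩, h4.le, h5⟩
          linarith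
      have h6 : ∑ m ∈ Icc 1 N, r m ≤ ∑ m ∈ Icc 1 M, r m + 2 * K * T := by
        refine (Finset.sum_le_sum_of_subset_of_nonneg hsub fun m _ _ => h.r_nonneg m).trans ?_
        refine le_trans ?_ (add_le_add_right (hblock T hT1) _)
        rw [← Finset.sum_union_inter]
        have : 0 ≤ ∑ m ∈ Icc 1 M ∩ (Icc 1 ⌊4 * T⌋₊).filter
          (fun m : ℕ => 3 / 2 * T ≤ m ∧ (m : ℝ) ≤ 3 / 2 * (3 / 2) * T), r m :=
          Finset.sum_nonneg fun m _ => h.r_nonneg m
        linarith
      have h7 := ih M hMN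
      have h8 : T = 4 / 9 * N := by rw [hT]; ring
      have h9 : (0:ℝ) < 3 ^ n := by positivity
      have h10 : (3 * K + 3 ^ n * 3) * M ≤ (3 * K + 3 ^ n * 3) * (2 / 3 * N) :=
        mul_le_mul_of_nonneg_left hMle (by positivity)
      rw [h8] at h6
      nlinarith

end Pool.Agent.Helper18.NF
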