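import Pool.Agent.Helper18.NF.Basic2

/-!
# Project NF: basic facts on systems, L-series
-/

set_option autoImplicit false

open Finset Filter Topology
open Pool.Agent.Helper18.BV
open scoped ArithmeticFunction.vonMangoldt ArithmeticFunction.zeta

namespace Pool.Agent.Helper18.NF

variable {n : ℕ} {r L : ArithmeticFunction ℝ} {κ : ℝ}

theorem cx_mul (f g : ArithmeticFunction ℝ) : cx (f * g) = cx f * cx g := by
  ext m
  rw [cx_apply, ArithmeticFunction.mul_apply, ArithmeticFunction.mul_apply]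
  push_cast
  rfl

theorem cx_one : cx (1 : ArithmeticFunction ℝ) = 1 := by
  ext m
  rw [cx_apply]
  rcases eq_or_ne m 1 with rfl | hm
  · simp
  · rw [ArithmeticFunction.one_apply_ne hm, ArithmeticFunction.one_apply_ne hm, Complex.ofReal_zero]

theorem IsSys.cx_conv (h : IsSys n r L κ) : cx r * cx L = D (cx r) := by
  rw [← cx_mul, h.DR_eq]
  ext m
  rw [cx_apply, DR_apply, D_apply, cx_apply]
  push_cast
  rfl

theorem norm_tw_le {f : ArithmeticFunction ℝ} {q : ℕ} (χ : DirichletCharacter ℂ q) (m : ℕ) :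
    ‖tw f χ m‖ ≤ |f m| := by
  unfold tw
  rw [norm_mul, Complex.norm_real, Real.norm_eq_abs]
  exact mul_le_of_le_one_right (abs_nonneg _) (DirichletCharacter.norm_le_one χ _)

/-- `cr` is the twist by the trivial character modulo `1` -/
theorem cr_eq (f : ArithmeticFunction ℝ) : cr f = tw f (1 : DirichletCharacter ℂ 1) := by
  funext m
  unfold cr tw
  have : (1 : DirichletCharacter ℂ 1) (m : ZMod 1) = 1 := by
    rw [Subsingleton.elim (m : ZMod 1) 1, map_one]
  rw [this, mul_one]

theorem norm_term_tw_le {f : ArithmeticFunction ℝ} {q : ℕ} (χ : DirichletCharacter ℂ q) (s : ℂ)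
    (m : ℕ) : ‖LSeries.term (tw f χ) s m‖ ≤ ‖LSeries.term (cr f) (s.re : ℂ) m‖ := by
  rcases eq_or_ne m 0 with rfl | hm
  · simp [LSeries.term_zero]
  · rw [LSeries.norm_term_eq, LSeries.norm_term_eq, if_neg hm, if_neg hm, Complex.ofReal_re]
    apply div_le_div_of_nonneg_right _ (Real.rpow_nonneg (Nat.cast_nonneg _) _)
    refine (norm_tw_le χ m).trans ?_
    unfold cr
    rw [Complex.norm_real, Real.norm_eq_abs]

/-- convergence for `Re s > 1` -/
theorem IsSys.summable_r (h : IsSys n r L κ) {σ : ℝ} (hσ : 1 < σ) :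
    LSeriesSummable (cr r) (σ : ℂ) := by
  obtain ⟨C, hC, hb⟩ := h.sum_r_le
  apply LSeriesSummable_of_sum_norm_bigO (r := 1) _ (by norm_num) (by simpa using hσ)
  refine Asymptotics.IsBigO.of_bound C (Filter.Eventually.of_forall fun N => ?_)
  have h1 : ∑ k ∈ Icc 1 N, ‖cr r k‖ = ∑ k ∈ Icc 1 N, r k := by
    apply Finset.sum_congr rfl
    intro k _
    unfold cr
    rw [Complex.norm_real, Real.norm_eq_abs, abs_of_nonneg (h.r_nonneg k)]
  rw [h1, Real.norm_eq_abs, abs_of_nonneg (Finset.sum_nonneg fun m _ => h.r_nonneg m),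
    Real.rpow_one, Real.norm_eq_abs, abs_of_nonneg (Nat.cast_nonneg _)]
  exact hb N

theorem summable_tw_of {f g : ArithmeticFunction ℝ} (hfg : ∀ m, |f m| ≤ g m) {q : ℕ}
    (χ : DirichletCharacter ℂ q) {s : ℂ} (hg : LSeriesSummable (cr g) (s.re : ℂ)) :
    LSeriesSummable (tw f χ) s := by
  refine Summable.of_norm_bounded hg.norm fun m => ?_
  rcases eq_or_ne m 0 with rfl | hm
  · simp [LSeries.term_zero]
  · rw [LSeries.norm_term_eq, LSeries.norm_term_eq, if_neg hm, if_neg hm, Complex.ofReal_re]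
    apply div_le_div_of_nonneg_right _ (Real.rpow_nonneg (Nat.cast_nonneg _) _)
    refine (norm_tw_le χ m).trans ((hfg m).trans ?_)
    unfold cr
    rw [Complex.norm_real]
    exact le_abs_self _

theorem IsSys.summable_tw_r (h : IsSys n r L κ) {q : ℕ} (χ : DirichletCharacter ℂ q) {s : ℂ}
    (hs : 1 < s.re) : LSeriesSummable (tw r χ) s :=
  summable_tw_of (g := r) (fun m => (abs_of_nonneg (h.r_nonneg m)).le) χ (h.summable_r hs)

theorem IsSys.summable_cr_r (h : IsSys n r L κ) {s : ℂ} (hs : 1 < s.re) :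
    LSeriesSummable (cr r) s := by
  rw [cr_eq]; exact h.summable_tw_r _ hs

/-- the function `n Λ` -/
noncomputable def nLa (n : ℕ) : ArithmeticFunction ℝ := ⟨fun m => n * Λ m, by simp⟩

theorem summable_nLa (n : ℕ) {σ : ℝ} (hσ : 1 < σ) : LSeriesSummable (cr (nLa n)) (σ : ℂ) := by
  have h1 : LSeriesSummable (fun m => ((Λ m : ℝ) : ℂ)) (σ : ℂ) :=
    ArithmeticFunction.LSeriesSummable_vonMangoldt (by simpa using hσ)
  have h2 := h1.smul (n : ℂ)
  refine h2.congr fun m => ?_
  rcases eq_or_ne m 0 with rfl | hm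
  · simp [LSeries.term_zero]
  · rw [LSeries.term_of_ne_zero hm, LSeries.term_of_ne_zero hm]
    congr 1
    change _ = (((n * Λ m : ℝ)) : ℂ)
    push_cast
    rfl

theorem IsSys.summable_tw_L (h : IsSys n r L κ) {q : ℕ} (χ : DirichletCharacter ℂ q) {s : ℂ}
    (hs : 1 < s.re) : LSeriesSummable (tw L χ) s :=
  summable_tw_of (g := nLa n) (fun m => by
    rw [abs_of_nonneg (h.L_nonneg m)]; exact h.L_le m) χ (summable_nLa n hs)

theorem IsSys.summable_cr_L (h : IsSys n r L κ) {s : ℂ} (hs : 1 < s.re) :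
    LSeriesSummable (cr L) s := by
  rw [cr_eq]; exact h.summable_tw_L _ hs

/-- twisting is multiplicative for Dirichlet convolution -/
theorem tw_conv (f g : ArithmeticFunction ℝ) {q : ℕ} (χ : DirichletCharacter ℂ q) :
    LSeries.convolution (tw f χ) (tw g χ) = tw (f * g) χ := by
  have h1 : ∀ f : ArithmeticFunction ℝ, tw f χ = (fun m : ℕ => χ (m : ZMod q)) * (fun m : ℕ => cx f m) := by
    intro f
    funext m
    simp only [tw, Pi.mul_apply, cx_apply]
    ring
  rw [h1, h1, h1, DirichletCharacter.mul_convolution_distrib, cx_mul]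
  congr 1
  exact ArithmeticFunction.coe_mul _ _

theorem IsSys.abscissa_r (h : IsSys n r L κ) {q : ℕ} (χ : DirichletCharacter ℂ q) :
    LSeries.abscissaOfAbsConv (tw r χ) ≤ 1 :=
  LSeries.abscissaOfAbsConv_le_of_forall_lt_LSeriesSummable' fun y hy =>
    h.summable_tw_r χ (by simpa using (by exact_mod_cast hy : (1:ℝ) < y))

theorem IsSys.LSeries_ne_zero (h : IsSys n r L κ) {q : ℕ} (χ : DirichletCharacter ℂ q) {s : ℂ}
    (hs : 1 < s.re) : LSeries (tw r χ) s ≠ 0 := by
  obtain ⟨mu, h1, h2⟩ := h.exists_inv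
  have h3 : LSeriesSummable (tw mu χ) s := summable_tw_of (g := r) h2 χ (h.summable_r hs)
  have h4 := LSeries_convolution' (h.summable_tw_r χ hs) h3
  rw [tw_conv, h1] at h4
  have h5 : LSeries (tw (1 : ArithmeticFunction ℝ) χ) s = 1 := by
    have h7 : tw (1 : ArithmeticFunction ℝ) χ = LSeries.delta := by
      funext m
      unfold tw
      rcases eq_or_ne m 1 with rfl | hm
      · simp [LSeries.delta]
      · rw [ArithmeticFunction.one_apply_ne hm]
        simp [LSeries.delta, hm]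
    rw [h7, LSeries_delta]
    rfl
  rw [h5] at h4
  intro h6
  rw [h6, zero_mul] at h4
  exact one_ne_zero h4

/-- the logarithmic derivative -/
theorem IsSys.hasDerivAt (h : IsSys n r L κ) {q : ℕ} (χ : DirichletCharacter ℂ q) {s : ℂ}
    (hs : 1 < s.re) :
    HasDerivAt (LSeries (tw r χ)) (-(LSeries (tw L χ) s * LSeries (tw r χ) s)) s := by
  have h1 : LSeries.abscissaOfAbsConv (tw r χ) < s.re :=
    (h.abscissa_r χ).trans_lt (by exact_mod_cast hs)
  have h2 := LSeries_hasDerivAt h1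
  have h3 : LSeries (LSeries.logMul (tw r χ)) s = LSeries (tw L χ) s * LSeries (tw r χ) s := by
    rw [mul_comm, ← LSeries_convolution' (h.summable_tw_r χ hs) (h.summable_tw_L χ hs), tw_conv,
      h.DR_eq]
    congr 1
    funext m
    unfold LSeries.logMul tw
    rw [DR_apply]
    push_cast
    ring
  rw [h3] at h2
  exact h2

theorem IsSys.logDeriv (h : IsSys n r L κ) {q : ℕ} (χ : DirichletCharacter ℂ q) {s : ℂ}
    (hs : 1 < s.re) :
    deriv (LSeries (tw r χ)) s / LSeries (tw r χ) s = - LSeries (tw L χ) s := by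
  rw [(h.hasDerivAt χ hs).deriv]
  field_simp [h.LSeries_ne_zero χ hs]

theorem IsSys.logDeriv0 (h : IsSys n r L κ) {s : ℂ} (hs : 1 < s.re) :
    deriv (LSeries (cr r)) s / LSeries (cr r) s = - LSeries (cr L) s := by
  rw [cr_eq, cr_eq]; exact h.logDeriv _ hs

theorem IsSys.LSeries_ne_zero0 (h : IsSys n r L κ) {s : ℂ} (hs : 1 < s.re) :
    LSeries (cr r) s ≠ 0 := by
  rw [cr_eq]; exact h.LSeries_ne_zero _ hs

end Pool.Agent.Helper18.NF
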