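import Pool.Agent.Helper18.NF.StA
import Pool.Agent.Helper18.NF.Basic3
import Pool.Agent.Helper85.NF.LUpperF
import Pool.Agent.Helper67.NF.Tent

/-!
# Project NF: continuation by the dyadic decomposition
-/

set_option autoImplicit false

open Finset Filter Topology
open Pool.Agent.Helper18.BV

namespace Pool.Agent.Helper18.NF

/-- the `j`-th dyadic piece -/
noncomputable def piece (a : ℕ → ℂ) (j : ℕ) (s : ℂ) : ℂ :=
  ∑ m ∈ Icc 1 (4 * 2 ^ j), a m * (m : ℂ) ^ (-s) * (tent (m / 2 ^ j) : ℂ)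

/-- the pieces have a power saving -/
def Saving (a : ℕ → ℂ) (θ M : ℝ) : Prop :=
  ∀ (j : ℕ) (s : ℂ), 0 ≤ s.re → ‖piece a j s‖ ≤ M * (‖s‖ + 2) * (2 : ℝ) ^ ((j : ℝ) * (θ - s.re))

theorem differentiable_piece (a : ℕ → ℂ) (j : ℕ) : Differentiable ℂ (piece a j) := by
  unfold piece
  apply Differentiable.fun_sum
  intro m hm
  have hm0 : (m : ℂ) ≠ 0 := by
    have := (Finset.mem_Icc.1 hm).1
    exact_mod_cast (by omega : m ≠ 0)
  apply Differentiable.mul_const
  apply Differentiable.const_mul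
  exact Differentiable.const_cpow differentiable_neg (Or.inl hm0)

theorem summable_two_rpow {x : ℝ} (hx : 0 < x) :
    Summable (fun j : ℕ => (2 : ℝ) ^ ((j : ℝ) * (-x))) := by
  have : ∀ j : ℕ, (2 : ℝ) ^ ((j : ℝ) * (-x)) = ((2 : ℝ) ^ (-x)) ^ j := by
    intro j
    rw [← Real.rpow_natCast, ← Real.rpow_mul (by norm_num), mul_comm]
  simp_rw [this]
  apply summable_geometric_of_lt_one (by positivity)
  exact Real.rpow_lt_one_of_one_lt_of_neg (by norm_num) (by linarith)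

theorem tsum_two_rpow {x : ℝ} (hx : 0 < x) (hx4 : x ≤ 4) :
    ∑' j : ℕ, (2 : ℝ) ^ ((j : ℝ) * (-x)) ≤ 6 / x := by
  have : ∀ j : ℕ, (2 : ℝ) ^ ((j : ℝ) * (-x)) = ((2 : ℝ) ^ (-x)) ^ j := by
    intro j
    rw [← Real.rpow_natCast, ← Real.rpow_mul (by norm_num), mul_comm]
  simp_rw [this]
  have h1 : (2 : ℝ) ^ (-x) < 1 := Real.rpow_lt_one_of_one_lt_of_neg (by norm_num) (by linarith)
  rw [tsum_geometric_of_lt_one (by positivity) h1, ← one_div]
  have h2 : 1 + x / 2 ≤ (2 : ℝ) ^ x := by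
    rw [Real.rpow_def_of_pos (by norm_num)]
    have h3 := Real.add_one_le_exp (Real.log 2 * x)
    have h4 : (1:ℝ) / 2 ≤ Real.log 2 := by linarith [Real.log_two_gt_d9]
    nlinarith
  have h5 : (2 : ℝ) ^ (-x) ≤ 1 / (1 + x / 2) := by
    rw [Real.rpow_neg (by norm_num), ← one_div]
    exact one_div_le_one_div_of_le (by linarith) h2
  have h6 : x / 6 ≤ 1 - (2 : ℝ) ^ (-x) := by
    have h7 : 1 - 1 / (1 + x / 2) = x / 2 / (1 + x / 2) := by
      field_simp; ring
    have h8 : x / 6 ≤ x / 2 / (1 + x / 2) := by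
      rw [le_div_iff₀ (by linarith)]
      nlinarith
    linarith
  rw [div_le_div_iff₀ (by linarith) hx]
  linarith

variable {a : ℕ → ℂ} {θ M : ℝ}

theorem LF_differentiableOn (hM : 0 ≤ M) (hθ : 0 ≤ θ) (h : Saving a θ M) :
    DifferentiableOn ℂ (LF a) {s | θ < s.re} := by
  intro s0 hs0
  apply DifferentiableAt.differentiableWithinAt
  have hs0' : θ < s0.re := hs0
  set σ : ℝ := (θ + s0.re) / 2 with hσ
  set U : Set ℂ := {s | σ < s.re} ∩ Metric.ball 0 (‖s0‖ + 1) with hU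
  have hUo : IsOpen U := (isOpen_lt continuous_const Complex.continuous_re).inter Metric.isOpen_ball
  have hs0U : s0 ∈ U := by
    refine ⟨?_, ?_⟩
    · change σ < s0.re; rw [hσ]; linarith
    · rw [mem_ball_zero_iff]; linarith
  have hd : DifferentiableOn ℂ (fun s => ∑' j : ℕ, piece a j s) U := by
    apply Complex.differentiableOn_tsum_of_summable_norm
      (u := fun j : ℕ => M * (‖s0‖ + 3) * (2 : ℝ) ^ ((j : ℝ) * (-(σ - θ))))
    · exact (summable_two_rpow (by rw [hσ]; linarith)).mul_left _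
    · exact fun j => (differentiable_piece a j).differentiableOn
    · exact hUo
    · intro j s hs
      have hs1 : σ < s.re := hs.1
      have hs2 : ‖s‖ < ‖s0‖ + 1 := by simpa using hs.2
      refine (h j s (by linarith)).trans ?_
      apply mul_le_mul _ _ (by positivity) (by positivity)
      · apply mul_le_mul_of_nonneg_left _ hM
        linarith
      · apply Real.rpow_le_rpow_of_exponent_le (by norm_num)
        apply mul_le_mul_of_nonneg_left _ (Nat.cast_nonneg _)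
        linarith
  have h2 : DifferentiableAt ℂ (fun s => ∑' j : ℕ, piece a j s) s0 :=
    hd.differentiableAt (hUo.mem_nhds hs0U)
  exact (differentiableAt_const (a 1)).add h2

theorem norm_LF_le (hM : 0 ≤ M) (hθ : 0 ≤ θ) (h : Saving a θ M) {s : ℂ} (hs : θ < s.re)
    (hs4 : s.re ≤ 4) : ‖LF a s‖ ≤ ‖a 1‖ + M * (‖s‖ + 2) * (6 / (s.re - θ)) := by
  have hx : 0 < s.re - θ := by linarith
  unfold LF
  refine (norm_add_le _ _).trans (add_le_add_right ?_ _)
  have h1 : ∀ j : ℕ, ‖piece a j s‖ ≤ M * (‖s‖ + 2) * (2 : ℝ) ^ ((j : ℝ) * (-(s.re - θ))) := by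
    intro j
    have := h j s (by linarith)
    rwa [show (θ - s.re) = -(s.re - θ) by ring] at this
  have h2 : Summable (fun j : ℕ => M * (‖s‖ + 2) * (2 : ℝ) ^ ((j : ℝ) * (-(s.re - θ)))) :=
    (summable_two_rpow hx).mul_left _
  have h3 : Summable (fun j : ℕ => ‖piece a j s‖) :=
    Summable.of_nonneg_of_le (fun _ => norm_nonneg _) h1 h2
  calc ‖∑' j : ℕ, piece a j s‖ ≤ ∑' j : ℕ, ‖piece a j s‖ := norm_tsum_le_tsum_norm h3
    _ ≤ ∑' j : ℕ, M * (‖s‖ + 2) * (2 : ℝ) ^ ((j : ℝ) * (-(s.re - θ))) :=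
        h3.tsum_le_tsum h1 h2
    _ = M * (‖s‖ + 2) * ∑' j : ℕ, (2 : ℝ) ^ ((j : ℝ) * (-(s.re - θ))) := tsum_mul_left
    _ ≤ M * (‖s‖ + 2) * (6 / (s.re - θ)) := by
        apply mul_le_mul_of_nonneg_left (tsum_two_rpow hx (by linarith)) (by positivity)

/-- `∑_j tent (m / 2 ^ j)` -/
theorem hasSum_tent {m : ℕ} (hm : 2 ≤ m) : HasSum (fun j : ℕ => tent ((m : ℝ) / 2 ^ j)) 1 := by
  obtain ⟨J, hJ⟩ : ∃ J : ℕ, m < 2 ^ J := ⟨m, Nat.lt_two_pow_self⟩
  rw [← Pool.Agent.Helper67.NF.tent_sum hm hJ]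
  apply hasSum_sum_of_ne_finset_zero
  intro j hj
  rw [Finset.mem_range, not_lt] at hj
  apply tent_of_le
  rw [div_le_one (by positivity)]
  have : m ≤ 2 ^ j := hJ.le.trans (Nat.pow_le_pow_right (by norm_num) hj)
  exact_mod_cast this

theorem hasSum_tent_one : HasSum (fun j : ℕ => tent (((1 : ℕ) : ℝ) / 2 ^ j)) 0 := by
  have : (fun j : ℕ => tent (((1 : ℕ) : ℝ) / 2 ^ j)) = fun _ => 0 := by
    funext j
    apply tent_of_le
    rw [Nat.cast_one, div_le_one (by positivity)]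
    exact one_le_pow₀ (by norm_num)
  rw [this]
  exact hasSum_zero

theorem LF_eq_LSeries (ha0 : a 0 = 0) {s : ℂ} (hs : LSeriesSummable a s) : LF a s = LSeries a s := by
  -- the double series
  set F : ℕ × ℕ → ℂ := fun p => LSeries.term a s p.1 * (tent ((p.1 : ℝ) / 2 ^ p.2) : ℂ) with hF
  have hterm : ∀ m : ℕ, LSeries.term a s m = a m * (m : ℂ) ^ (-s) := by
    intro m
    rcases eq_or_ne m 0 with rfl | hm
    · rw [LSeries.term_zero, ha0, zero_mul]
    · rw [LSeries.term_of_ne_zero hm, Complex.cpow_neg, div_eq_mul_inv]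
  have hrow : ∀ m : ℕ, Summable (fun j : ℕ => ‖F (m, j)‖) := by
    intro m
    have h1 : ∀ j : ℕ, ‖F (m, j)‖ = ‖LSeries.term a s m‖ * tent ((m : ℝ) / 2 ^ j) := by
      intro j
      rw [hF]
      simp only
      rw [norm_mul, Complex.norm_real, Real.norm_eq_abs, abs_of_nonneg (tent_nonneg _)]
    simp_rw [h1]
    apply Summable.mul_left
    rcases Nat.lt_or_ge m 2 with hm | hm
    · interval_cases m
      · have : (fun j : ℕ => tent (((0 : ℕ) : ℝ) / 2 ^ j)) = fun _ => 0 := by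
          funext j
          apply tent_of_le
          simp
        rw [this]; exact summable_zero
      · exact hasSum_tent_one.summable
    · exact (hasSum_tent hm).summable
  have hrowle : ∀ m : ℕ, ∑' j : ℕ, ‖F (m, j)‖ ≤ ‖LSeries.term a s m‖ := by
    intro m
    have h1 : ∀ j : ℕ, ‖F (m, j)‖ = ‖LSeries.term a s m‖ * tent ((m : ℝ) / 2 ^ j) := by
      intro j
      rw [hF]
      simp only
      rw [norm_mul, Complex.norm_real, Real.norm_eq_abs, abs_of_nonneg (tent_nonneg _)]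
    simp_rw [h1]
    rw [tsum_mul_left]
    rcases Nat.lt_or_ge m 2 with hm | hm
    · interval_cases m
      · simp [LSeries.term_zero]
      · rw [hasSum_tent_one.tsum_eq, mul_zero]
        exact norm_nonneg _
    · rw [(hasSum_tent hm).tsum_eq, mul_one]
  have hsum : Summable F := by
    apply Summable.of_norm
    rw [summable_prod_of_nonneg (fun p => norm_nonneg _)]
    refine ⟨hrow, ?_⟩
    exact Summable.of_nonneg_of_le (fun m => tsum_nonneg fun j => norm_nonneg _) hrowle hs.norm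
  -- sum over `j` first
  have hJ : ∀ m : ℕ, ∑' j : ℕ, F (m, j) = if m = 1 then 0 else LSeries.term a s m := by
    intro m
    rw [hF]
    simp only
    rw [tsum_mul_left]
    rcases Nat.lt_or_ge m 2 with hm | hm
    · interval_cases m
      · simp [LSeries.term_zero]
      · rw [if_pos rfl, ← Complex.ofReal_tsum, hasSum_tent_one.tsum_eq, Complex.ofReal_zero,
          mul_zero]
    · rw [if_neg (by omega), ← Complex.ofReal_tsum, (hasSum_tent hm).tsum_eq, Complex.ofReal_one,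
        mul_one]
  -- sum over `m` first
  have hM' : ∀ j : ℕ, ∑' m : ℕ, F (m, j) = piece a j s := by
    intro j
    unfold piece
    rw [tsum_eq_sum (s := Icc 1 (4 * 2 ^ j))]
    · apply Finset.sum_congr rfl
      intro m _
      rw [hF]
      simp only
      rw [hterm m]
    · intro m hm
      rw [hF]
      simp only
      rw [Finset.mem_Icc, not_and_or, not_le, not_le] at hm
      rcases hm with hm | hm
      · have : m = 0 := by omega
        rw [this, LSeries.term_zero, zero_mul]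
      · rw [tent_of_ge, Complex.ofReal_zero, mul_zero]
        rw [le_div_iff₀ (by positivity)]
        have : ((4 * 2 ^ j : ℕ) : ℝ) ≤ m := by exact_mod_cast hm.le
        push_cast at this
        exact this
  have h1 : ∑' m : ℕ, ∑' j : ℕ, F (m, j) = ∑' j : ℕ, piece a j s := by
    have h5 : Summable (Function.uncurry fun m j => F (m, j)) := hsum
    rw [← h5.tsum_comm]
    exact tsum_congr hM'
  have h2 : ∑' m : ℕ, (if m = 1 then 0 else LSeries.term a s m) = ∑' j : ℕ, piece a j s := by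
    rw [← h1]
    exact tsum_congr fun m => (hJ m).symm
  have h3 : LSeries a s = LSeries.term a s 1 + ∑' m : ℕ, (if m = 1 then 0 else LSeries.term a s m) :=
    hs.tsum_eq_add_tsum_ite 1
  rw [h3, h2, hterm 1]
  unfold LF
  have h4 : ((1 : ℕ) : ℂ) ^ (-s) = 1 := by rw [Nat.cast_one, Complex.one_cpow]
  rw [h4, mul_one]
  rfl

/-- nontrivial characters -/
theorem cont : Cont := by
  intro n r L κ h
  obtain ⟨C, hC, hchar⟩ := h.char
  have hn : (1:ℝ) ≤ n := by exact_mod_cast h.pos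
  have hθ : 0 ≤ 1 - 1 / (n : ℝ) := by
    rw [sub_nonneg, div_le_one (by linarith)]; exact hn
  refine ⟨4 + 12 * C, by positivity, ?_⟩
  intro q _ χ hχ
  have hsav : Saving (tw r χ) (1 - 1 / (n : ℝ)) (C * (q : ℝ) ^ n) := by
    intro j s hs
    unfold piece
    rw [Pool.Agent.Helper85.NF.term_rw, norm_mul, Pool.Agent.Helper85.NF.norm_exp_eq]
    have hT : (1 : ℝ) ≤ 2 ^ j := one_le_pow₀ (by norm_num)
    have h1 := hchar q χ hχ _ _ _ (Pool.Agent.Helper85.NF.isTest_G hs) hT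
    rw [Pool.Agent.Helper85.NF.floor_eq] at h1
    have h2 : ((2 : ℝ) ^ j) ^ (1 - 1 / (n : ℝ)) = (2 : ℝ) ^ ((j : ℝ) * (1 - 1 / (n : ℝ))) := by
      rw [← Real.rpow_natCast 2 j, ← Real.rpow_mul (by norm_num)]
    rw [h2] at h1
    calc (2 : ℝ) ^ (-(j * s.re)) * _
        ≤ (2 : ℝ) ^ (-(j * s.re)) * (C * (‖s‖ + 2) * (q : ℝ) ^ n
          * (2 : ℝ) ^ ((j : ℝ) * (1 - 1 / (n : ℝ)))) :=
          mul_le_mul_of_nonneg_left h1 (by positivity)
      _ = C * (q : ℝ) ^ n * (‖s‖ + 2) * (2 : ℝ) ^ ((j : ℝ) * (1 - 1 / (n : ℝ) - s.re)) := by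
          have : (j : ℝ) * (1 - 1 / (n : ℝ) - s.re) =
            -(j * s.re) + (j : ℝ) * (1 - 1 / (n : ℝ)) := by ring
          rw [this, Real.rpow_add (by norm_num)]
          ring
  have hM0 : 0 ≤ C * (q : ℝ) ^ n := by positivity
  refine ⟨LF_differentiableOn hM0 hθ hsav, fun s hs => LF_eq_LSeries (by simp [tw])
    (h.summable_tw_r χ hs), fun s hs hs4 => ?_⟩
  refine (norm_LF_le hM0 hθ hsav hs hs4).trans ?_
  have hx : 0 < s.re - (1 - 1 / (n : ℝ)) := by linarith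
  have h1 : ‖tw r χ 1‖ ≤ 1 := by
    refine (norm_tw_le χ 1).trans ?_
    rw [h.one, abs_one]
  have hq : (1:ℝ) ≤ (q : ℝ) ^ n := by
    apply one_le_pow₀
    exact_mod_cast Nat.one_le_iff_ne_zero.2 (NeZero.ne q)
  have h2 : (1:ℝ) ≤ 4 * (q : ℝ) ^ n * (1 + ‖s‖) / (s.re - (1 - 1 / (n : ℝ))) := by
    rw [le_div_iff₀ hx]
    have : 0 ≤ ‖s‖ := norm_nonneg s
    have h3 : 1 ≤ (q : ℝ) ^ n * (1 + ‖s‖) := by nlinarith
    nlinarith
  have h4 : C * (q : ℝ) ^ n * (‖s‖ + 2) * (6 / (s.re - (1 - 1 / (n : ℝ)))) ≤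
      12 * C * (q : ℝ) ^ n * (1 + ‖s‖) / (s.re - (1 - 1 / (n : ℝ))) := by
    rw [mul_div_assoc', div_le_div_iff_of_pos_right hx]
    have : 0 ≤ ‖s‖ := norm_nonneg s
    nlinarith
  calc _ ≤ 4 * (q : ℝ) ^ n * (1 + ‖s‖) / (s.re - (1 - 1 / (n : ℝ))) +
        12 * C * (q : ℝ) ^ n * (1 + ‖s‖) / (s.re - (1 - 1 / (n : ℝ))) := by linarith
    _ = (4 + 12 * C) * (q : ℝ) ^ n * (1 + ‖s‖) / (s.re - (1 - 1 / (n : ℝ))) := by ring

end Pool.Agent.Helper18.NF
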