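import Mathlib

/-!
# Project NF: `ζ(s) - 1/(s-1)` as a series of entire functions with explicit bounds
-/

set_option autoImplicit false

open Finset Filter Topology

namespace Pool.Agent.Helper18.NF

/-- `(exp (c d) - 1) / c`, analytic in `c` -/
noncomputable def E (d : ℝ) (c : ℂ) : ℂ := dslope (fun z : ℂ => Complex.exp (z * d)) 0 c

theorem E_of_ne (d : ℝ) {c : ℂ} (hc : c ≠ 0) : E d c = (Complex.exp (c * d) - 1) / c := by
  unfold E
  rw [dslope_of_ne _ hc, slope_def_field]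
  simp

theorem E_zero (d : ℝ) : E d 0 = d := by
  unfold E
  rw [dslope_same]
  have h : HasDerivAt (fun z : ℂ => Complex.exp (z * d)) (Complex.exp (0 * d) * (1 * d)) 0 :=
    ((hasDerivAt_id (0:ℂ)).mul_const (d : ℂ)).cexp
  rw [h.deriv]
  simp

theorem differentiable_E (d : ℝ) : Differentiable ℂ (E d) := by
  rw [← differentiableOn_univ]
  unfold E
  rw [Complex.differentiableOn_dslope Filter.univ_mem]
  apply Differentiable.differentiableOn
  fun_prop

/-- the derivative in `d` -/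
theorem hasDerivAt_E (c : ℂ) (d : ℝ) :
    HasDerivAt (fun x : ℝ => E x c) (Complex.exp (c * d)) d := by
  rcases eq_or_ne c 0 with rfl | hc
  · simp only [E_zero, zero_mul, Complex.exp_zero]
    exact (Complex.ofRealCLM.hasDerivAt (x := d))
  · have h1 : (fun x : ℝ => E x c) = fun x : ℝ => (Complex.exp (c * x) - 1) / c := by
      funext x; exact E_of_ne x hc
    rw [h1]
    have h2 : HasDerivAt (fun x : ℝ => c * (x : ℂ)) (c * 1) d :=
      (Complex.ofRealCLM.hasDerivAt (x := d)).const_mul c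
    have h3 := ((h2.cexp).sub_const 1).div_const c
    have h4 : Complex.exp (c * ↑d) * (c * 1) / c = Complex.exp (c * ↑d) := by
      rw [mul_one, mul_div_assoc, div_self hc, mul_one]
    rwa [h4] at h3

/-- the bound for one term -/
theorem norm_sub_E_le {s : ℂ} (hs : 0 ≤ s.re) {d : ℝ} (hd : 0 ≤ d) (hd1 : Real.exp d ≤ 2) :
    ‖(Complex.exp d - 1) - E d (1 - s)‖ ≤ 2 * ‖s‖ * d ^ 2 := by
  -- derivative of `exp x - 1 - E x (1 - s)` is `exp x (1 - exp (-s x))`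
  have h1 : ∀ x ∈ Set.Icc (0:ℝ) d, HasDerivWithinAt
      (fun x : ℝ => (Complex.exp x - 1) - E x (1 - s))
      (Complex.exp x - Complex.exp ((1 - s) * x)) (Set.Icc 0 d) x := by
    intro x _
    have h2 : HasDerivAt (fun x : ℝ => Complex.exp (x : ℂ) - 1) (Complex.exp x * 1) x :=
      ((Complex.ofRealCLM.hasDerivAt (x := x)).cexp).sub_const 1
    rw [mul_one] at h2
    exact (h2.sub (hasDerivAt_E (1 - s) x)).hasDerivWithinAt
  have hlip : ∀ x : ℝ, 0 ≤ x → ‖(1:ℂ) - Complex.exp (-s * x)‖ ≤ ‖s‖ * x := by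
    intro x hx
    have h3 : ∀ y ∈ Set.Icc (0 : ℝ) x, HasDerivWithinAt (fun y : ℝ => Complex.exp (-s * (y : ℂ)))
        (Complex.exp (-s * (y : ℂ)) * (-s * 1)) (Set.Icc 0 x) y := by
      intro y _
      apply HasDerivAt.hasDerivWithinAt
      have h2 : HasDerivAt (fun y : ℝ => -s * (y : ℂ)) (-s * 1) y :=
        (Complex.ofRealCLM.hasDerivAt (x := y)).const_mul (-s)
      exact h2.cexp
    have h4 : ∀ y ∈ Set.Icc (0 : ℝ) x, ‖Complex.exp (-s * (y : ℂ)) * (-s * 1)‖ ≤ ‖s‖ := by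
      intro y hy
      rw [norm_mul, mul_one, norm_neg, Complex.norm_exp]
      have h5 : (-s * (y : ℂ)).re = -(s.re * y) := by simp
      have h6 : Real.exp ((-s * (y : ℂ)).re) ≤ 1 := by
        rw [h5]
        apply Real.exp_le_one_iff.2
        have := mul_nonneg hs hy.1
        linarith
      calc Real.exp ((-s * (y : ℂ)).re) * ‖s‖ ≤ 1 * ‖s‖ :=
            mul_le_mul_of_nonneg_right h6 (norm_nonneg _)
        _ = ‖s‖ := one_mul _
    have h7 := (convex_Icc (0 : ℝ) x).norm_image_sub_le_of_norm_hasDerivWithin_le h3 h4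
      (Set.right_mem_Icc.2 hx) (Set.left_mem_Icc.2 hx)
    simp only [Complex.ofReal_zero, mul_zero, Complex.exp_zero, zero_sub, norm_neg,
      Real.norm_eq_abs, abs_of_nonneg hx] at h7
    exact h7
  have h8 : ∀ x ∈ Set.Icc (0:ℝ) d, ‖Complex.exp x - Complex.exp ((1 - s) * x)‖ ≤ 2 * (‖s‖ * d) := by
    intro x hx
    have h9 : Complex.exp x - Complex.exp ((1 - s) * x) =
        Complex.exp x * (1 - Complex.exp (-s * x)) := by
      rw [mul_sub, mul_one, ← Complex.exp_add]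
      congr 2
      ring
    rw [h9, norm_mul, Complex.norm_exp, Complex.ofReal_re]
    apply mul_le_mul _ _ (norm_nonneg _) (by norm_num)
    · exact (Real.exp_le_exp.2 hx.2).trans hd1
    · exact (hlip x hx.1).trans (mul_le_mul_of_nonneg_left hx.2 (norm_nonneg _))
  have h10 := (convex_Icc (0 : ℝ) d).norm_image_sub_le_of_norm_hasDerivWithin_le h1 h8
      (Set.left_mem_Icc.2 hd) (Set.right_mem_Icc.2 hd)
  have h11 : E 0 (1 - s) = 0 := by
    rcases eq_or_ne (1 - s) 0 with h | h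
    · rw [h, E_zero]; simp
    · rw [E_of_ne 0 h]; simp
  rw [h11] at h10
  simp only [Complex.ofReal_zero, Complex.exp_zero, sub_self, sub_zero, Real.norm_eq_abs,
    abs_of_nonneg hd] at h10
  refine h10.trans (le_of_eq ?_)
  ring

/-- the step `log (1 + 1 / m)` -/
noncomputable def dl (m : ℕ) : ℝ := Real.log (1 + 1 / (m : ℝ))

/-- the terms -/
noncomputable def T (m : ℕ) (s : ℂ) : ℂ :=
  (m : ℂ) ^ (1 - s) * ((Complex.exp (dl m) - 1) - E (dl m) (1 - s))

theorem dl_nonneg (m : ℕ) : 0 ≤ dl m := by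
  apply Real.log_nonneg
  have : (0:ℝ) ≤ 1 / (m : ℝ) := by positivity
  linarith

theorem exp_dl (m : ℕ) : Real.exp (dl m) = 1 + 1 / (m : ℝ) := by
  unfold dl
  rw [Real.exp_log (by positivity)]

theorem dl_le {m : ℕ} (hm : 1 ≤ m) : dl m ≤ 1 / m := by
  have h1 : (0:ℝ) < m := by exact_mod_cast hm
  unfold dl
  have := Real.log_le_sub_one_of_pos (by positivity : 0 < 1 + 1 / (m : ℝ))
  linarith

theorem norm_T_le {m : ℕ} (hm : 1 ≤ m) {s : ℂ} (hs : 0 ≤ s.re) :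
    ‖T m s‖ ≤ 2 * ‖s‖ * (m : ℝ) ^ (-(1 + s.re)) := by
  have hm0 : (0:ℝ) < m := by exact_mod_cast hm
  have hm1 : (1:ℝ) ≤ m := by exact_mod_cast hm
  unfold T
  rw [norm_mul, Complex.norm_natCast_cpow_of_pos hm, Complex.sub_re, Complex.one_re]
  have h1 : Real.exp (dl m) ≤ 2 := by
    rw [exp_dl]
    have : 1 / (m : ℝ) ≤ 1 := by rw [div_le_one hm0]; exact hm1
    linarith
  have h2 := norm_sub_E_le hs (dl_nonneg m) h1
  have h3 : (dl m) ^ 2 ≤ (1 / (m : ℝ)) ^ 2 := pow_le_pow_left₀ (dl_nonneg m) (dl_le hm) 2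
  calc (m : ℝ) ^ (1 - s.re) * ‖(Complex.exp (dl m) - 1) - E (dl m) (1 - s)‖
      ≤ (m : ℝ) ^ (1 - s.re) * (2 * ‖s‖ * (1 / (m : ℝ)) ^ 2) := by
        apply mul_le_mul_of_nonneg_left _ (Real.rpow_nonneg hm0.le _)
        exact h2.trans (mul_le_mul_of_nonneg_left h3 (by positivity))
    _ = 2 * ‖s‖ * (m : ℝ) ^ (-(1 + s.re)) := by
        have h4 : (1 / (m : ℝ)) ^ 2 = (m : ℝ) ^ (-2 : ℝ) := by
          rw [Real.rpow_neg hm0.le, one_div, inv_pow]
          congr 1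
          exact (Real.rpow_natCast (m : ℝ) 2).symm
        rw [h4]
        have h5 : -(1 + s.re) = (1 - s.re) + (-2) := by ring
        rw [h5, Real.rpow_add hm0]
        ring

theorem differentiable_T {m : ℕ} (hm : 1 ≤ m) : Differentiable ℂ (T m) := by
  have hm0 : (m : ℂ) ≠ 0 := by exact_mod_cast (by omega : m ≠ 0)
  unfold T
  have h1 : Differentiable ℂ (fun s : ℂ => 1 - s) := by fun_prop
  apply Differentiable.mul
  · exact Differentiable.const_cpow h1 (Or.inl hm0)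
  · exact (differentiable_const _).sub ((differentiable_E (dl m)).comp h1)

theorem T_eq {m : ℕ} (hm : 1 ≤ m) {s : ℂ} (hs : s ≠ 1) :
    T m s = (m : ℂ) ^ (-s) - (((m + 1 : ℕ) : ℂ) ^ (1 - s) - (m : ℂ) ^ (1 - s)) / (1 - s) := by
  have hm0 : (m : ℂ) ≠ 0 := by exact_mod_cast (by omega : m ≠ 0)
  have hm0' : (m : ℝ) ≠ 0 := by exact_mod_cast (by omega : m ≠ 0)
  have hm1 : ((m + 1 : ℕ) : ℂ) ≠ 0 := by exact_mod_cast (by omega : m + 1 ≠ 0)
  have hs' : (1 - s) ≠ 0 := sub_ne_zero.2 hs.symm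
  unfold T
  rw [E_of_ne _ hs']
  have h1 : Complex.exp (dl m) = 1 + 1 / (m : ℂ) := by
    rw [← Complex.ofReal_exp, exp_dl]
    push_cast
    rfl
  have h2 : (m : ℂ) ^ (1 - s) * Complex.exp ((1 - s) * dl m) = ((m + 1 : ℕ) : ℂ) ^ (1 - s) := by
    rw [Complex.cpow_def_of_ne_zero hm0, Complex.cpow_def_of_ne_zero hm1, ← Complex.exp_add]
    congr 1
    have h3 : Complex.log ((m + 1 : ℕ) : ℂ) = Complex.log (m : ℂ) + dl m := by
      rw [Complex.natCast_log.symm, Complex.natCast_log.symm, ← Complex.ofReal_add]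
      congr 1
      unfold dl
      rw [← Real.log_mul hm0' (by positivity)]
      congr 1
      push_cast
      field_simp
    rw [h3]
    ring
  have h4 : (m : ℂ) ^ (1 - s) = (m : ℂ) * (m : ℂ) ^ (-s) := by
    rw [sub_eq_add_neg, Complex.cpow_add _ _ hm0, Complex.cpow_one]
  have h5 : (m : ℂ) ^ (1 - s) * (Complex.exp (dl m) - 1 - (Complex.exp ((1 - s) * dl m) - 1) /
      (1 - s)) = (m : ℂ) ^ (1 - s) * (Complex.exp (dl m) - 1) -
      ((m : ℂ) ^ (1 - s) * Complex.exp ((1 - s) * dl m) - (m : ℂ) ^ (1 - s)) / (1 - s) := by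
    field_simp
  rw [h5, h2, h1]
  congr 1
  rw [h4]
  field_simp
  ring

/-- the function `ζ(s) - 1/(s-1)` for `Re s > 0` -/
noncomputable def ze (s : ℂ) : ℂ := ∑' m : ℕ, T (m + 1) s

theorem summable_rpow {σ : ℝ} (hσ : 0 < σ) :
    Summable (fun m : ℕ => ((m + 1 : ℕ) : ℝ) ^ (-(1 + σ))) := by
  have h1 : Summable (fun m : ℕ => ((m : ℕ) : ℝ) ^ (-(1 + σ))) :=
    Real.summable_nat_rpow.2 (by linarith)
  exact (summable_nat_add_iff 1).2 h1

theorem differentiableOn_ze : DifferentiableOn ℂ ze {s | 0 < s.re} := by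
  intro s0 hs0
  apply DifferentiableAt.differentiableWithinAt
  have hs0' : 0 < s0.re := hs0
  set σ : ℝ := s0.re / 2 with hσ
  set U : Set ℂ := {s | σ < s.re} ∩ Metric.ball 0 (‖s0‖ + 1) with hU
  have hUo : IsOpen U := (isOpen_lt continuous_const Complex.continuous_re).inter Metric.isOpen_ball
  have hs0U : s0 ∈ U := by
    refine ⟨?_, ?_⟩
    · change σ < s0.re; rw [hσ]; linarith
    · rw [mem_ball_zero_iff]; linarith
  have hd : DifferentiableOn ℂ (fun s => ∑' m : ℕ, T (m + 1) s) U := by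
    apply Complex.differentiableOn_tsum_of_summable_norm
      (u := fun m : ℕ => 2 * (‖s0‖ + 1) * ((m + 1 : ℕ) : ℝ) ^ (-(1 + σ)))
    · exact (summable_rpow (by rw [hσ]; linarith)).mul_left _
    · exact fun m => (differentiable_T (by omega)).differentiableOn
    · exact hUo
    · intro m s hs
      have hs1 : σ < s.re := hs.1
      have hs2 : ‖s‖ < ‖s0‖ + 1 := by simpa using hs.2
      refine (norm_T_le (by omega) (by linarith)).trans ?_
      have hm1 : (1:ℝ) ≤ ((m + 1 : ℕ) : ℝ) := by push_cast; linarith [Nat.cast_nonneg (α := ℝ) m]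
      apply mul_le_mul _ _ (Real.rpow_nonneg (by linarith) _) (by positivity)
      · linarith
      · apply Real.rpow_le_rpow_of_exponent_le hm1
        linarith
  exact hd.differentiableAt (hUo.mem_nhds hs0U)

theorem sum_rpow_bound : ∃ C : ℝ, 0 < C ∧ ∀ σ : ℝ, 0 < σ → σ ≤ 4 →
    ∑' m : ℕ, ((m + 1 : ℕ) : ℝ) ^ (-(1 + σ)) ≤ C / σ := by
  refine ⟨5, by norm_num, ?_⟩
  intro σ hσ hσ4
  -- telescoping
  have hstep : ∀ m : ℕ, ((m + 1 + 1 : ℕ) : ℝ) ^ (-(1 + σ)) ≤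
      (((m + 1 : ℕ) : ℝ) ^ (-σ) - ((m + 1 + 1 : ℕ) : ℝ) ^ (-σ)) / σ := by
    intro m
    set a : ℝ := ((m + 1 + 1 : ℕ) : ℝ) with ha
    have ha2 : 2 ≤ a := by rw [ha]; push_cast; linarith [Nat.cast_nonneg (α := ℝ) m]
    have hb : ((m + 1 : ℕ) : ℝ) = a - 1 := by rw [ha]; push_cast; ring
    rw [hb, le_div_iff₀ hσ]
    have h1 : (a - 1) ^ (-σ) = a ^ (-σ) * (1 - 1 / a) ^ (-σ) := by
      rw [← Real.mul_rpow (by linarith) (by
        have : 1 / a ≤ 1 := by rw [div_le_one (by linarith)]; linarith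
        linarith)]
      congr 1
      field_simp
    have h2 : 1 + σ * (1 / a) ≤ (1 - 1 / a) ^ (-σ) := by
      have h3 : 0 < 1 - 1 / a := by
        have : 1 / a ≤ 1 / 2 := one_div_le_one_div_of_le (by norm_num) ha2
        linarith
      rw [Real.rpow_def_of_pos h3]
      have h4 := Real.log_le_sub_one_of_pos h3
      have h5 := Real.add_one_le_exp (Real.log (1 - 1 / a) * -σ)
      nlinarith
    have h6 : a ^ (-(1 + σ)) = a ^ (-σ) * (1 / a) := by
      rw [neg_add, add_comm, Real.rpow_add (by linarith), Real.rpow_neg_one, one_div]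
    have h7 : 0 < a ^ (-σ) := Real.rpow_pos_of_pos (by linarith) _
    rw [h1, h6]
    nlinarith
  have hsum := summable_rpow hσ
  rw [hsum.tsum_eq_zero_add]
  have h1 : ((0 + 1 : ℕ) : ℝ) ^ (-(1 + σ)) = 1 := by simp
  rw [h1]
  have h2 : ∑' m : ℕ, ((m + 1 + 1 : ℕ) : ℝ) ^ (-(1 + σ)) ≤ 1 / σ := by
    have hs2 : Summable (fun m : ℕ => ((m + 1 + 1 : ℕ) : ℝ) ^ (-(1 + σ))) :=
      (summable_nat_add_iff 1).2 hsum
    apply Summable.tsum_le_of_sum_range_le hs2
    intro N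
    calc ∑ m ∈ range N, ((m + 1 + 1 : ℕ) : ℝ) ^ (-(1 + σ))
        ≤ ∑ m ∈ range N, (((m + 1 : ℕ) : ℝ) ^ (-σ) - ((m + 1 + 1 : ℕ) : ℝ) ^ (-σ)) / σ :=
          Finset.sum_le_sum fun m _ => hstep m
      _ = (((0 + 1 : ℕ) : ℝ) ^ (-σ) - ((N + 1 : ℕ) : ℝ) ^ (-σ)) / σ := by
          rw [← Finset.sum_div]
          congr 1
          exact Finset.sum_range_sub' (fun m : ℕ => ((m + 1 : ℕ) : ℝ) ^ (-σ)) N
      _ ≤ 1 / σ := by
          apply div_le_div_of_nonneg_right _ hσ.le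
          have h3 : ((0 + 1 : ℕ) : ℝ) ^ (-σ) = 1 := by simp
          rw [h3]
          have : 0 ≤ ((N + 1 : ℕ) : ℝ) ^ (-σ) := Real.rpow_nonneg (Nat.cast_nonneg _) _
          linarith
  have h3 : (1:ℝ) ≤ 4 / σ := by rw [le_div_iff₀ hσ]; linarith
  have h4 : (5:ℝ) / σ = 4 / σ + 1 / σ := by ring
  linarith

theorem norm_ze_le : ∃ C : ℝ, 0 < C ∧ ∀ s : ℂ, 0 < s.re → s.re ≤ 4 →
    ‖ze s‖ ≤ C * ‖s‖ / s.re := by
  obtain ⟨C, hC, hb⟩ := sum_rpow_bound
  refine ⟨2 * C, by positivity, ?_⟩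
  intro s hs hs4
  have h1 : Summable (fun m : ℕ => 2 * ‖s‖ * ((m + 1 : ℕ) : ℝ) ^ (-(1 + s.re))) :=
    (summable_rpow hs).mul_left _
  have h2 : ∀ m : ℕ, ‖T (m + 1) s‖ ≤ 2 * ‖s‖ * ((m + 1 : ℕ) : ℝ) ^ (-(1 + s.re)) :=
    fun m => norm_T_le (by omega) hs.le
  have h3 : Summable (fun m : ℕ => ‖T (m + 1) s‖) :=
    Summable.of_nonneg_of_le (fun _ => norm_nonneg _) h2 h1
  unfold ze
  calc ‖∑' m : ℕ, T (m + 1) s‖ ≤ ∑' m : ℕ, ‖T (m + 1) s‖ := norm_tsum_le_tsum_norm h3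
    _ ≤ ∑' m : ℕ, 2 * ‖s‖ * ((m + 1 : ℕ) : ℝ) ^ (-(1 + s.re)) := h3.tsum_le_tsum h2 h1
    _ = 2 * ‖s‖ * ∑' m : ℕ, ((m + 1 : ℕ) : ℝ) ^ (-(1 + s.re)) := tsum_mul_left
    _ ≤ 2 * ‖s‖ * (C / s.re) := mul_le_mul_of_nonneg_left (hb _ hs hs4) (by positivity)
    _ = 2 * C * ‖s‖ / s.re := by ring

theorem ze_eq {s : ℂ} (hs : 1 < s.re) : LSeries (fun _ => 1) s = 1 / (s - 1) + ze s := by
  have hs1 : s ≠ 1 := by
    intro h; rw [h] at hs; simp at hs
  have hs' : (1 - s) ≠ 0 := sub_ne_zero.2 hs1.symm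
  have hsumT : Summable (fun m : ℕ => T (m + 1) s) := by
    apply Summable.of_norm
    exact Summable.of_nonneg_of_le (fun _ => norm_nonneg _)
      (fun m => norm_T_le (by omega) (by linarith))
      ((summable_rpow (by linarith : 0 < s.re)).mul_left _)
  have hL : LSeriesSummable (fun _ => (1:ℂ)) s := LSeriesSummable_one_iff.2 hs
  -- partial sums
  have h1 : Tendsto (fun N : ℕ => ∑ m ∈ range N, T (m + 1) s) atTop (𝓝 (ze s)) :=
    hsumT.hasSum.tendsto_sum_nat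
  have h2 : Tendsto (fun N : ℕ => ∑ m ∈ range (N + 1), LSeries.term (fun _ => (1:ℂ)) s m) atTop
      (𝓝 (LSeries (fun _ => 1) s)) :=
    hL.hasSum.tendsto_sum_nat.comp (tendsto_add_atTop_nat 1)
  have h3 : ∀ N : ℕ, ∑ m ∈ range N, T (m + 1) s =
      ∑ m ∈ range (N + 1), LSeries.term (fun _ => (1:ℂ)) s m -
        (((N + 1 : ℕ) : ℂ) ^ (1 - s) - 1) / (1 - s) := by
    intro N
    have h4 : ∑ m ∈ range (N + 1), LSeries.term (fun _ => (1:ℂ)) s m =
        ∑ m ∈ range N, ((m + 1 : ℕ) : ℂ) ^ (-s) := by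
      rw [Finset.sum_range_succ', LSeries.term_zero, add_zero]
      apply Finset.sum_congr rfl
      intro m _
      rw [LSeries.term_of_ne_zero (by omega), Complex.cpow_neg, one_div]
    have h5 : ∑ m ∈ range N, ((((m + 1) + 1 : ℕ) : ℂ) ^ (1 - s) - ((m + 1 : ℕ) : ℂ) ^ (1 - s)) /
        (1 - s) = (((N + 1 : ℕ) : ℂ) ^ (1 - s) - 1) / (1 - s) := by
      rw [← Finset.sum_div]
      congr 1
      rw [Finset.sum_range_sub (fun m : ℕ => ((m + 1 : ℕ) : ℂ) ^ (1 - s)) N]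
      simp
    rw [h4, ← h5, ← Finset.sum_sub_distrib]
    apply Finset.sum_congr rfl
    intro m _
    exact T_eq (by omega) hs1
  have h6 : Tendsto (fun N : ℕ => (((N + 1 : ℕ) : ℂ) ^ (1 - s) - 1) / (1 - s)) atTop
      (𝓝 ((0 - 1) / (1 - s))) := by
    apply Tendsto.div_const
    apply Tendsto.sub_const
    rw [tendsto_zero_iff_norm_tendsto_zero]
    have h7 : Tendsto (fun N : ℕ => ((N + 1 : ℕ) : ℝ) ^ (-(s.re - 1))) atTop (𝓝 0) :=
      (tendsto_rpow_neg_atTop (by linarith : 0 < s.re - 1)).comp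
        (tendsto_natCast_atTop_atTop.comp (tendsto_add_atTop_nat 1))
    refine h7.congr fun N => ?_
    rw [Complex.norm_natCast_cpow_of_pos (by omega), Complex.sub_re, Complex.one_re]
    congr 1
    ring
  have h8 := h2.sub h6
  have h9 := tendsto_nhds_unique h1 (h8.congr fun N => (h3 N).symm)
  rw [h9]
  have h10 : (0 - 1) / (1 - s) = 1 / (s - 1) := by
    rw [show (0:ℂ) - 1 = -1 by ring, show (1 - s) = -(s - 1) by ring, neg_div_neg_eq]
  rw [h10]
  ring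

end Pool.Agent.Helper18.NF
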