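import Pool.Agent.Helper18.NF.Cont
import Pool.Agent.Helper18.NF.Zeta0

/-!
# Project NF: continuation of the Dedekind series of a system
-/

set_option autoImplicit false

open Finset Filter Topology MeasureTheory
open Pool.Agent.Helper18.BV

namespace Pool.Agent.Helper18.NF

theorem IsTest.continuous {B : ℝ} {G : ℝ → ℂ} (h : IsTest B G) : Continuous G := by
  have h1 : LipschitzWith (Real.toNNReal B) G := by
    apply LipschitzWith.of_dist_le_mul
    intro y z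
    rw [dist_eq_norm, Real.dist_eq]
    refine (h.lip y z).trans ?_
    apply mul_le_mul_of_nonneg_right _ (abs_nonneg _)
    exact Real.le_coe_toNNReal B
  exact h1.continuous

theorem IsTest.B_nonneg {B : ℝ} {G : ℝ → ℂ} (h : IsTest B G) : 0 ≤ B := by
  have h1 := h.lip 1 0
  have h2 := norm_nonneg (G 1 - G 0)
  simp at h1
  linarith

/-- the Riemann sum -/
theorem riemann {B : ℝ} {G : ℝ → ℂ} (h : IsTest B G) {T : ℝ} (hT : 1 ≤ T) :
    ‖∑ m ∈ Icc 1 ⌊4 * T⌋₊, G (m / T) - T * ∫ y, G y‖ ≤ 5 * B := by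
  set N : ℕ := ⌊4 * T⌋₊ with hN
  have hT0 : T ≠ 0 := by linarith
  have hB := h.B_nonneg
  have hc := h.continuous
  have hNT : 4 * T < (N : ℝ) + 1 := Nat.lt_floor_add_one _
  have hNT' : (N : ℝ) ≤ 4 * T := Nat.floor_le (by linarith)
  -- the integral
  have h1 : ∫ y, G y = ∫ y in (0:ℝ)..(((N + 1 : ℕ) : ℝ) / T), G y := by
    rw [intervalIntegral.integral_of_le (by positivity)]
    symm
    apply setIntegral_eq_integral_of_forall_compl_eq_zero
    intro y hy
    apply h.supp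
    rw [Set.mem_Ioc, not_and_or, not_lt, not_le] at hy
    rcases hy with hy | hy
    · left; linarith
    · right
      have : (4:ℝ) < ((N + 1 : ℕ) : ℝ) / T := by
        rw [lt_div_iff₀ (by linarith)]
        push_cast
        exact hNT
      linarith
  have h2 : (T : ℂ) * ∫ y, G y = ∫ u in (0:ℝ)..((N + 1 : ℕ) : ℝ), G (u / T) := by
    rw [h1, intervalIntegral.integral_comp_div _ hT0, zero_div, Complex.real_smul]
  have h3 : ∫ u in (0:ℝ)..((N + 1 : ℕ) : ℝ), G (u / T) =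
      ∑ m ∈ range (N + 1), ∫ u in (m : ℝ)..((m + 1 : ℕ) : ℝ), G (u / T) := by
    have := intervalIntegral.sum_integral_adjacent_intervals (a := fun m : ℕ => (m : ℝ))
      (n := N + 1) (f := fun u => G (u / T)) (μ := volume) (fun k _ => by
        apply Continuous.intervalIntegrable
        exact hc.comp (continuous_id.div_const T))
    rw [← Nat.cast_zero, ← this]
  have h4 : ∑ m ∈ Icc 1 N, G (m / T) = ∑ m ∈ range (N + 1), G (m / T) := by
    rw [Finset.sum_range_succ', Nat.cast_zero, zero_div, h.supp 0 (Or.inl (by norm_num)), add_zero]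
    rw [Finset.range_eq_Ico, Finset.sum_Ico_add' (fun m : ℕ => G ((m : ℝ) / T)) 0 N 1]
    apply Finset.sum_congr _ (fun _ _ => rfl)
    ext m
    simp [Finset.mem_Icc, Finset.mem_Ico]
  rw [h2, h3, h4, ← Finset.sum_sub_distrib]
  have h5 : ∀ m ∈ range (N + 1), ‖G (m / T) - ∫ u in (m : ℝ)..((m + 1 : ℕ) : ℝ), G (u / T)‖ ≤
      B / T := by
    intro m _
    have h6 : G (m / T) = ∫ _u in (m : ℝ)..((m + 1 : ℕ) : ℝ), G (m / T) := by
      rw [intervalIntegral.integral_const]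
      push_cast
      simp
    rw [h6, ← intervalIntegral.integral_sub]
    · have h7 := intervalIntegral.norm_integral_le_of_norm_le_const (a := (m : ℝ))
        (b := ((m + 1 : ℕ) : ℝ)) (C := B / T) (f := fun u => G (m / T) - G (u / T)) (by
          intro u hu
          rw [Set.uIoc_of_le (by push_cast; linarith)] at hu
          refine (h.lip _ _).trans ?_
          rw [← sub_div, abs_div, abs_of_pos (by linarith : (0:ℝ) < T), mul_div_assoc']
          apply div_le_div_of_nonneg_right _ (by linarith)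
          have h8 : |(m : ℝ) - u| ≤ 1 := by
            rw [abs_le]
            have := hu.1
            have := hu.2
            push_cast at this
            constructor <;> linarith
          nlinarith)
      refine h7.trans ?_
      push_cast
      rw [add_sub_cancel_left, abs_one, mul_one]
    · exact continuous_const.intervalIntegrable _ _
    · apply Continuous.intervalIntegrable
      exact hc.comp (continuous_id.div_const T)
  refine (norm_sum_le _ _).trans ((Finset.sum_le_sum h5).trans ?_)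
  rw [Finset.sum_const, Finset.card_range, nsmul_eq_mul, mul_div_assoc', div_le_iff₀ (by linarith)]
  push_cast
  nlinarith

/-- the sequence with the main term removed -/
noncomputable def az (r : ArithmeticFunction ℝ) (κ : ℝ) : ℕ → ℂ :=
  fun m => (r m : ℂ) - κ * (if m = 0 then 0 else 1)

theorem az_zero (r : ArithmeticFunction ℝ) (κ : ℝ) : az r κ 0 = 0 := by simp [az]

variable {n : ℕ} {r L : ArithmeticFunction ℝ} {κ : ℝ}

theorem saving_az (h : IsSys n r L κ) : ∃ M : ℝ, 0 ≤ M ∧ Saving (az r κ) (1 - 1 / (n : ℝ)) M := by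
  obtain ⟨C, hC, htriv⟩ := h.triv
  have hn : (1:ℝ) ≤ n := by exact_mod_cast h.pos
  have hθ : 0 ≤ 1 - 1 / (n : ℝ) := by
    rw [sub_nonneg, div_le_one (by linarith)]; exact hn
  have hk := h.kpos
  refine ⟨C + 5 * κ, by positivity, ?_⟩
  intro j s hs
  have hT : (1 : ℝ) ≤ 2 ^ j := one_le_pow₀ (by norm_num)
  have hG := Pool.Agent.Helper85.NF.isTest_G hs
  have h1 := htriv _ _ _ hG hT
  have h1' := riemann hG hT
  rw [Pool.Agent.Helper85.NF.floor_eq] at h1 h1'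
  have hrw : piece (az r κ) j s = Complex.exp (-s * ((j * Real.log 2 : ℝ) : ℂ)) *
      ((∑ m ∈ Icc 1 (4 * 2 ^ j), (r m : ℂ) * Pool.Agent.Helper85.NF.G s (m / 2 ^ j) -
        κ * ((2 ^ j : ℝ) : ℂ) * ∫ y, Pool.Agent.Helper85.NF.G s y) -
      κ * (∑ m ∈ Icc 1 (4 * 2 ^ j), Pool.Agent.Helper85.NF.G s ((m : ℕ) / 2 ^ j) -
        ((2 ^ j : ℝ) : ℂ) * ∫ y, Pool.Agent.Helper85.NF.G s y)) := by
    have h3 : (∑ m ∈ Icc 1 (4 * 2 ^ j), (r m : ℂ) * Pool.Agent.Helper85.NF.G s (m / 2 ^ j) -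
        κ * ((2 ^ j : ℝ) : ℂ) * ∫ y, Pool.Agent.Helper85.NF.G s y) -
      κ * (∑ m ∈ Icc 1 (4 * 2 ^ j), Pool.Agent.Helper85.NF.G s ((m : ℕ) / 2 ^ j) -
        ((2 ^ j : ℝ) : ℂ) * ∫ y, Pool.Agent.Helper85.NF.G s y) =
      ∑ m ∈ Icc 1 (4 * 2 ^ j), az r κ m * Pool.Agent.Helper85.NF.G s (m / 2 ^ j) := by
      have h4 : ∑ m ∈ Icc 1 (4 * 2 ^ j), az r κ m * Pool.Agent.Helper85.NF.G s (m / 2 ^ j) =
        ∑ m ∈ Icc 1 (4 * 2 ^ j), (r m : ℂ) * Pool.Agent.Helper85.NF.G s (m / 2 ^ j) -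
        κ * ∑ m ∈ Icc 1 (4 * 2 ^ j), Pool.Agent.Helper85.NF.G s ((m : ℕ) / 2 ^ j) := by
        rw [Finset.mul_sum, ← Finset.sum_sub_distrib]
        apply Finset.sum_congr rfl
        intro m hm
        have hm0 : m ≠ 0 := by
          have := (Finset.mem_Icc.1 hm).1
          omega
        unfold az
        rw [if_neg hm0]
        ring
      rw [h4]
      ring
    rw [h3, Finset.mul_sum]
    unfold piece
    apply Finset.sum_congr rfl
    intro m hm
    rw [mul_assoc, Pool.Agent.Helper85.NF.term_eq m j (Finset.mem_Icc.1 hm).1 s]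
    ring
  rw [hrw, norm_mul, Pool.Agent.Helper85.NF.norm_exp_eq]
  have h2 : ((2 : ℝ) ^ j) ^ (1 - 1 / (n : ℝ)) = (2 : ℝ) ^ ((j : ℝ) * (1 - 1 / (n : ℝ))) := by
    rw [← Real.rpow_natCast 2 j, ← Real.rpow_mul (by norm_num)]
  rw [h2] at h1
  have h5 : (1:ℝ) ≤ (2 : ℝ) ^ ((j : ℝ) * (1 - 1 / (n : ℝ))) :=
    Real.one_le_rpow (by norm_num) (mul_nonneg (Nat.cast_nonneg _) hθ)
  have h6 : 0 ≤ ‖s‖ := norm_nonneg s
  have h7 : ‖(∑ m ∈ Icc 1 (4 * 2 ^ j), (r m : ℂ) * Pool.Agent.Helper85.NF.G s (m / 2 ^ j) -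
        κ * ((2 ^ j : ℝ) : ℂ) * ∫ y, Pool.Agent.Helper85.NF.G s y) -
      κ * (∑ m ∈ Icc 1 (4 * 2 ^ j), Pool.Agent.Helper85.NF.G s ((m : ℕ) / 2 ^ j) -
        ((2 ^ j : ℝ) : ℂ) * ∫ y, Pool.Agent.Helper85.NF.G s y)‖ ≤
      (C + 5 * κ) * (‖s‖ + 2) * (2 : ℝ) ^ ((j : ℝ) * (1 - 1 / (n : ℝ))) := by
    refine (norm_sub_le _ _).trans ?_
    rw [norm_mul, Complex.norm_real, Real.norm_eq_abs, abs_of_pos hk]
    have h8 : κ * ‖∑ m ∈ Icc 1 (4 * 2 ^ j), Pool.Agent.Helper85.NF.G s ((m : ℕ) / 2 ^ j) -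
        ((2 ^ j : ℝ) : ℂ) * ∫ y, Pool.Agent.Helper85.NF.G s y‖ ≤
        5 * κ * (‖s‖ + 2) * (2 : ℝ) ^ ((j : ℝ) * (1 - 1 / (n : ℝ))) := by
      calc _ ≤ κ * (5 * (‖s‖ + 2)) := mul_le_mul_of_nonneg_left h1' hk.le
        _ = 5 * κ * (‖s‖ + 2) * 1 := by ring
        _ ≤ _ := mul_le_mul_of_nonneg_left h5 (by positivity)
    calc _ ≤ C * (‖s‖ + 2) * (2 : ℝ) ^ ((j : ℝ) * (1 - 1 / (n : ℝ))) +
          5 * κ * (‖s‖ + 2) * (2 : ℝ) ^ ((j : ℝ) * (1 - 1 / (n : ℝ))) := add_le_add h1 h8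
      _ = _ := by ring
  calc (2 : ℝ) ^ (-(j * s.re)) * _
      ≤ (2 : ℝ) ^ (-(j * s.re)) * ((C + 5 * κ) * (‖s‖ + 2) *
        (2 : ℝ) ^ ((j : ℝ) * (1 - 1 / (n : ℝ)))) :=
        mul_le_mul_of_nonneg_left h7 (by positivity)
    _ = (C + 5 * κ) * (‖s‖ + 2) * (2 : ℝ) ^ ((j : ℝ) * (1 - 1 / (n : ℝ) - s.re)) := by
        have : (j : ℝ) * (1 - 1 / (n : ℝ) - s.re) =
          -(j * s.re) + (j : ℝ) * (1 - 1 / (n : ℝ)) := by ring
        rw [this, Real.rpow_add (by norm_num)]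
        ring

theorem LSeries_cr_eq (h : IsSys n r L κ) {s : ℂ} (hs : 1 < s.re) :
    LSeriesSummable (az r κ) s ∧
      LSeries (cr r) s = LSeries (az r κ) s + κ * LSeries (fun _ => 1) s := by
  have h1 : LSeriesSummable (cr r) s := h.summable_cr_r hs
  have h2 : LSeriesSummable (fun _ => (1:ℂ)) s := LSeriesSummable_one_iff.2 hs
  set g : ℕ → ℂ := fun _ => (κ : ℂ) * 1 with hg
  have h3 : LSeriesSummable g s := h2.smul (κ : ℂ)
  have h4 : ∀ m : ℕ, m ≠ 0 → az r κ m = (cr r - g) m := by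
    intro m hm
    simp [az, cr, hm, hg]
  have h5 : LSeriesSummable (cr r - g) s := h1.sub h3
  have h6 : LSeriesSummable (az r κ) s := (LSeriesSummable_congr s (fun {m} hm => h4 m hm)).2 h5
  refine ⟨h6, ?_⟩
  have h7 : LSeries (az r κ) s = LSeries (cr r - g) s :=
    LSeries_congr (fun {m} hm => h4 m hm) s
  rw [h7, LSeries_sub h1 h3]
  have h8 : LSeries g s = κ * LSeries (fun _ => 1) s :=
    LSeries_smul (fun _ => (1:ℂ)) (κ : ℂ) s
  rw [h8]
  ring

/-- the trivial character -/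
theorem cont0 : Cont0 := by
  intro n r L κ h
  obtain ⟨M, hM, hsav⟩ := saving_az h
  obtain ⟨C, hC, hze⟩ := norm_ze_le
  have hk := h.kpos
  have hn : (1:ℝ) ≤ n := by exact_mod_cast h.pos
  have hθ : 0 ≤ 1 - 1 / (n : ℝ) := by
    rw [sub_nonneg, div_le_one (by linarith)]; exact hn
  refine ⟨4 * ‖az r κ 1‖ + 12 * M + κ * C, fun s => LF (az r κ) s + κ * ze s,
    by positivity, ?_, ?_, ?_⟩
  · apply DifferentiableOn.add (LF_differentiableOn hM hθ hsav)
    apply DifferentiableOn.const_mul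
    exact differentiableOn_ze.mono (fun s hs => by
      have : 1 - 1 / (n : ℝ) < s.re := hs
      exact lt_of_le_of_lt hθ this)
  · intro s hs
    obtain ⟨h1, h2⟩ := LSeries_cr_eq h hs
    rw [h2, ze_eq hs]
    simp only []
    rw [LF_eq_LSeries (az_zero r κ) h1]
    ring
  · intro s hs hs4
    have hx : 0 < s.re - (1 - 1 / (n : ℝ)) := by linarith
    have hs0 : 0 < s.re := by linarith
    have h6 : 0 ≤ ‖s‖ := norm_nonneg s
    refine (norm_add_le _ _).trans ?_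
    rw [norm_mul, Complex.norm_real, Real.norm_eq_abs, abs_of_pos hk]
    have h1 := norm_LF_le hM hθ hsav hs hs4
    have h2 := hze s hs0 hs4
    have h3 : ‖az r κ 1‖ ≤ 4 * ‖az r κ 1‖ * (1 + ‖s‖) / (s.re - (1 - 1 / (n : ℝ))) := by
      rw [le_div_iff₀ hx]
      have := norm_nonneg (az r κ 1)
      nlinarith [mul_nonneg this h6]
    have h4 : M * (‖s‖ + 2) * (6 / (s.re - (1 - 1 / (n : ℝ)))) ≤
        12 * M * (1 + ‖s‖) / (s.re - (1 - 1 / (n : ℝ))) := by
      rw [mul_div_assoc', div_le_div_iff_of_pos_right hx]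
      nlinarith [mul_nonneg hM h6]
    have h5 : κ * ‖ze s‖ ≤ κ * C * (1 + ‖s‖) / (s.re - (1 - 1 / (n : ℝ))) := by
      calc κ * ‖ze s‖ ≤ κ * (C * ‖s‖ / s.re) := mul_le_mul_of_nonneg_left h2 hk.le
        _ = κ * C * ‖s‖ / s.re := by ring
        _ ≤ κ * C * (1 + ‖s‖) / (s.re - (1 - 1 / (n : ℝ))) := by
          apply div_le_div₀ (by positivity) _ hx (by linarith)
          apply mul_le_mul_of_nonneg_left (by linarith) (by positivity)
    calc _ ≤ (4 * ‖az r κ 1‖ * (1 + ‖s‖) / (s.re - (1 - 1 / (n : ℝ))) +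
          12 * M * (1 + ‖s‖) / (s.re - (1 - 1 / (n : ℝ)))) +
          κ * C * (1 + ‖s‖) / (s.re - (1 - 1 / (n : ℝ))) := by linarith
      _ = _ := by ring

end Pool.Agent.Helper18.NF
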