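import Pool.Agent.Helper18.BV.St
import Pool.Agent.TP.Defs

/-!
# Project NF (MP_265190_nt): definitions

Bombieri-Vinogradov theorems for the ideals of norm `m` of a number field whose maximal abelian
subfield is `ℚ`, abstractly: a pair of arithmetic functions `r`, `L` (number of ideals of norm `m`,
von Mangoldt function) with good distribution against Dirichlet characters.
-/

set_option autoImplicit false

open Finset Filter Topology
open scoped ArithmeticFunction.vonMangoldt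

namespace Pool.Agent.Helper18.NF

/-- Test functions: Lipschitz with constant `B`, zero outside `(1, 4)`. -/
structure IsTest (B : ℝ) (G : ℝ → ℂ) : Prop where
  lip : ∀ y z : ℝ, ‖G y - G z‖ ≤ B * |y - z|
  supp : ∀ y : ℝ, (y ≤ 1 ∨ 4 ≤ y) → G y = 0

/-- The systems `(r, L)`: `r m` is the number of ideals of norm `m` of a number field of degree `n`
whose only abelian subfield is `ℚ`, and `L` is the corresponding von Mangoldt function. -/
structure IsSys (n : ℕ) (r L : ArithmeticFunction ℝ) (κ : ℝ) : Prop where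
  pos : 1 ≤ n
  one : r 1 = 1
  L_nonneg : ∀ m : ℕ, 0 ≤ L m
  L_le : ∀ m : ℕ, L m ≤ n * Λ m
  conv : ∀ m : ℕ, (r * L) m = r m * Real.log m
  kpos : 0 < κ
  triv : ∃ C : ℝ, 0 < C ∧ ∀ (B T : ℝ) (G : ℝ → ℂ), IsTest B G → 1 ≤ T →
    ‖∑ m ∈ Icc 1 ⌊4 * T⌋₊, (r m : ℂ) * G (m / T) - κ * T * ∫ y, G y‖ ≤
      C * B * T ^ (1 - 1 / (n : ℝ))
  char : ∃ C : ℝ, 0 < C ∧ ∀ (q : ℕ) [NeZero q] (χ : DirichletCharacter ℂ q), χ ≠ 1 →
    ∀ (B T : ℝ) (G : ℝ → ℂ), IsTest B G → 1 ≤ T →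
      ‖∑ m ∈ Icc 1 ⌊4 * T⌋₊, (r m : ℂ) * χ (m : ZMod q) * G (m / T)‖ ≤
        C * B * (q : ℝ) ^ n * T ^ (1 - 1 / (n : ℝ))
  wit : ∃ D p0 : ℕ, 0 < D ∧ ∀ p : ℕ, p.Prime → p0 ≤ p → D ∣ p + 1 → L p = Real.log p

/-- The sequence `r(m)` with complex values. -/
noncomputable def cr (r : ArithmeticFunction ℝ) : ℕ → ℂ := fun m => (r m : ℂ)

/-- The sequence `r(m) χ(m)`. -/
noncomputable def tw (r : ArithmeticFunction ℝ) {q : ℕ} (χ : DirichletCharacter ℂ q) : ℕ → ℂ :=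
  fun m => (r m : ℂ) * χ (m : ZMod q)

/-- The arithmetic function `r` with complex values. -/
noncomputable def cx (r : ArithmeticFunction ℝ) : ArithmeticFunction ℂ :=
  ⟨fun m => (r m : ℂ), by simp⟩

theorem cx_apply (r : ArithmeticFunction ℝ) (m : ℕ) : cx r m = (r m : ℂ) := rfl

/-- The tent function: zero outside `(1, 4)`, with `∑_j tent (y / 2 ^ j) = 1` for `y > 0`. -/
noncomputable def tent (y : ℝ) : ℝ := max 0 (1 - |Real.logb 2 (max y 1) - 1|)

/-- The L-function of the sequence `a`, by a dyadic decomposition. -/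
noncomputable def LF (a : ℕ → ℂ) (s : ℂ) : ℂ :=
  a 1 + ∑' j : ℕ, ∑ m ∈ Icc 1 (4 * 2 ^ j), a m * (m : ℂ) ^ (-s) * (tent (m / 2 ^ j) : ℂ)

/-- The number of solutions of `x ^ D = B` modulo `p`. -/
noncomputable def rc (D B p : ℕ) : ℕ := Nat.card {x : ZMod p // x ^ D = (B : ZMod p)}

/-- `B` is not an `ℓ`-th power for any prime `ℓ ∣ D`. -/
def NP (D B : ℕ) : Prop := ∀ l : ℕ, l.Prime → l ∣ D → ∀ c : ℕ, c ^ l ≠ B

/-- The prime `p` has the Kummer pattern `y`: for `l ∈ Ls`, an integer `a` with prime factors in `R`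
is an `l`-th power modulo `p` exactly if `∑_r v_r(a) y(l, r)` is divisible by `l`. -/
def Pat (Ls R : Finset ℕ) (y : ℕ → ℕ → ℤ) (p : ℕ) : Prop :=
  ∀ l ∈ Ls, ∀ a : ℕ, 1 ≤ a → (∀ r : ℕ, r.Prime → r ∣ a → r ∈ R) →
    ((∃ x : ZMod p, x ^ l = (a : ZMod p)) ↔ (l : ℤ) ∣ ∑ r ∈ R, (a.factorization r : ℤ) * y l r)

end Pool.Agent.Helper18.NF
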