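import Pool.Agent.Helper18.NF.StC

/-!
# Project NF: density one
-/

set_option autoImplicit false

open Finset Filter Topology
open Pool.Agent.Helper18.BV
open scoped Classical

namespace Pool.Agent.Helper18.NF

/-- few integers are divisible by the square of a large number -/
theorem card_sq (N : ℕ) {z : ℝ} (hz : 1 ≤ z) :
    (((range (N + 1)).filter (fun a => 1 ≤ a ∧ ∃ q : ℕ, z < (q : ℝ) ∧ q ^ 2 ∣ a)).card : ℝ) ≤
      2 * N / z := by
  set k : ℕ := ⌊z⌋₊ with hk
  have hk1 : 1 ≤ k := Nat.le_floor (by exact_mod_cast hz)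
  have hkz : z < k + 1 := Nat.lt_floor_add_one z
  have hz0 : 0 < z := by linarith
  have hsub : (range (N + 1)).filter (fun a => 1 ≤ a ∧ ∃ q : ℕ, z < (q : ℝ) ∧ q ^ 2 ∣ a) ⊆
      (Ioc k (max k N)).biUnion (fun q => (Ioc 0 N).filter (fun a => q ^ 2 ∣ a)) := by
    intro a ha
    obtain ⟨haN, ha1, q, hq, hd⟩ := Finset.mem_filter.1 ha
    rw [Finset.mem_range, Nat.lt_succ_iff] at haN
    have hqk : k < q := by
      have : (k : ℝ) < q := (Nat.floor_le hz0.le).trans_lt hq
      exact_mod_cast this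
    have hqa : q ≤ a := by
      have := Nat.le_of_dvd ha1 hd
      nlinarith
    rw [Finset.mem_biUnion]
    refine ⟨q, Finset.mem_Ioc.2 ⟨hqk, (hqa.trans haN).trans (le_max_right _ _)⟩,
      Finset.mem_filter.2 ⟨Finset.mem_Ioc.2 ⟨by omega, haN⟩, hd⟩⟩
  have h1 : (((range (N + 1)).filter (fun a => 1 ≤ a ∧ ∃ q : ℕ, z < (q : ℝ) ∧ q ^ 2 ∣ a)).card : ℝ)
      ≤ ∑ q ∈ Ioc k (max k N), (N : ℝ) * ((q : ℝ) ^ 2)⁻¹ := by
    calc _ ≤ (((Ioc k (max k N)).biUnion
          (fun q => (Ioc 0 N).filter (fun a => q ^ 2 ∣ a))).card : ℝ) := by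
          exact_mod_cast Finset.card_le_card hsub
      _ ≤ ∑ q ∈ Ioc k (max k N), (((Ioc 0 N).filter (fun a => q ^ 2 ∣ a)).card : ℝ) := by
          exact_mod_cast Finset.card_biUnion_le
      _ ≤ _ := by
          apply Finset.sum_le_sum
          intro q hq
          have hq0 : 0 < q := by have := (Finset.mem_Ioc.1 hq).1; omega
          rw [Nat.Ioc_filter_dvd_card_eq_div]
          rw [← div_eq_mul_inv]
          have := @Nat.cast_div_le ℝ _ _ _ N (q ^ 2)
          push_cast at this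
          exact this
  refine h1.trans ?_
  rw [← Finset.mul_sum]
  have h2 : ∑ q ∈ Ioc k (max k N), ((q : ℝ) ^ 2)⁻¹ ≤ (k : ℝ)⁻¹ := by
    have := sum_Ioc_inv_sq_le_sub (α := ℝ) (by omega : k ≠ 0) (le_max_left k N)
    refine this.trans ?_
    have : (0:ℝ) ≤ ((max k N : ℕ) : ℝ)⁻¹ := by positivity
    linarith
  have h3 : (k : ℝ)⁻¹ ≤ 2 / z := by
    rw [inv_le_comm₀ (by exact_mod_cast hk1) (by positivity), inv_div, div_le_iff₀ (by norm_num)]
    have : (1:ℝ) ≤ k := by exact_mod_cast hk1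
    linarith
  calc (N : ℝ) * ∑ q ∈ Ioc k (max k N), ((q : ℝ) ^ 2)⁻¹ ≤ N * (2 / z) :=
        mul_le_mul_of_nonneg_left (h2.trans h3) (Nat.cast_nonneg _)
    _ = 2 * N / z := by ring

theorem densOne (h1 : Smooth) (h2 : OmegaL) (h3 : ExcMul) : DensOne := by
  obtain ⟨C, hC, hsm⟩ := h1
  -- the number of exceptions
  have hbad : Tendsto (fun N : ℕ => (((range (N + 1)).filter (fun a => ¬ Dense a)).card : ℝ) / N)
      atTop (𝓝 0) := by
    rw [Metric.tendsto_atTop']
    intro η hη
    set ε : ℝ := min (1 / 2) (η / (6 * C)) with hε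
    have hε0 : 0 < ε := lt_min (by norm_num) (by positivity)
    have hε1 : ε ≤ 1 / 2 := min_le_left _ _
    have hεC : C * ε ≤ η / 6 := by
      have : ε ≤ η / (6 * C) := min_le_right _ _
      calc C * ε ≤ C * (η / (6 * C)) := mul_le_mul_of_nonneg_left this hC.le
        _ = η / 6 := by field_simp
    obtain ⟨δ, hδ, hcore⟩ := h3 ε hε0 hε1
    have hom := h2 δ hδ
    have e1 : ∀ᶠ N : ℕ in atTop, (((range (N + 1)).filter (fun a => ∃ m q : ℕ, a = m * q ∧ 1 ≤ m ∧
      q.Prime ∧ (N : ℝ) ^ ε < q ∧ ¬ q ∣ m ∧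
      (m.primeFactorsList.length : ℝ) ≤ δ * Real.sqrt (Real.log N) ∧ ¬ Dense a)).card : ℝ) / N <
        η / 6 := hcore.eventually (gt_mem_nhds (by positivity))
    have e2 : ∀ᶠ N : ℕ in atTop, (((range (N + 1)).filter (fun a => 1 ≤ a ∧
    δ * Real.sqrt (Real.log N) < (a.primeFactorsList.length : ℝ))).card : ℝ) / N < η / 6 :=
      hom.eventually (gt_mem_nhds (by positivity))
    have hpow : Tendsto (fun N : ℕ => (N : ℝ) ^ ε) atTop atTop :=
      (tendsto_rpow_atTop hε0).comp tendsto_natCast_atTop_atTop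
    have e3 : ∀ᶠ N : ℕ in atTop, max 2 (12 / η) < (N : ℝ) ^ ε := hpow.eventually_gt_atTop _
    have hpow2 : Tendsto (fun N : ℕ => (N : ℝ) ^ (1 / 2 : ℝ)) atTop atTop :=
      (tendsto_rpow_atTop (by norm_num)).comp tendsto_natCast_atTop_atTop
    have e4 : ∀ᶠ N : ℕ in atTop, 12 / η < (N : ℝ) ^ (1 / 2 : ℝ) := hpow2.eventually_gt_atTop _
    have e5 : ∀ᶠ N : ℕ in atTop, 12 / η < (N : ℝ) :=
      tendsto_natCast_atTop_atTop.eventually_gt_atTop _
    obtain ⟨N0, hN0⟩ := Filter.eventually_atTop.1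
      (e1.and (e2.and (e3.and (e4.and (e5.and (eventually_ge_atTop 3))))))
    refine ⟨N0, fun N hN => ?_⟩
    obtain ⟨f1, f2, f3, f4, f5, f6⟩ := hN0 N hN.le
    have hN3 : (3:ℝ) ≤ N := by exact_mod_cast f6
    have hNpos : (0:ℝ) < N := by linarith
    have hlog : 0 < Real.log N := Real.log_pos (by linarith)
    set z : ℝ := (N : ℝ) ^ ε with hz
    have hz2 : 2 ≤ z := ((le_max_left _ _).trans_lt f3).le
    have hzη : 12 / η < z := (le_max_right _ _).trans_lt f3
    have hzN : z ≤ N := by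
      rw [hz]
      nth_rewrite 2 [← Real.rpow_one (N : ℝ)]
      exact Real.rpow_le_rpow_of_exponent_le (by linarith) (by linarith)
    -- covering
    set A1 := (range (N + 1)).filter (fun a => ∃ m q : ℕ, a = m * q ∧ 1 ≤ m ∧
      q.Prime ∧ (N : ℝ) ^ ε < q ∧ ¬ q ∣ m ∧
      (m.primeFactorsList.length : ℝ) ≤ δ * Real.sqrt (Real.log N) ∧ ¬ Dense a) with hA1
    set A2 := (range (N + 1)).filter (fun a => 1 ≤ a ∧
      δ * Real.sqrt (Real.log N) < (a.primeFactorsList.length : ℝ)) with hA2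
    set A3 := (range (⌊(N:ℝ)⌋₊ + 1)).filter
      (fun a => 1 ≤ a ∧ ∀ p : ℕ, p.Prime → p ∣ a → (p : ℝ) ≤ z) with hA3
    set A4 := (range (N + 1)).filter (fun a => 1 ≤ a ∧ ∃ q : ℕ, z < (q : ℝ) ∧ q ^ 2 ∣ a) with hA4
    have hcov : (range (N + 1)).filter (fun a => ¬ Dense a) ⊆ {0} ∪ (A1 ∪ (A2 ∪ (A3 ∪ A4))) := by
      intro a ha
      obtain ⟨haN, haD⟩ := Finset.mem_filter.1 ha
      rcases Nat.eq_zero_or_pos a with h0 | hpos
      · rw [h0]; simp
      apply Finset.mem_union_right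
      by_cases hb2 : δ * Real.sqrt (Real.log N) < (a.primeFactorsList.length : ℝ)
      · exact Finset.mem_union_right _ (Finset.mem_union_left _
          (Finset.mem_filter.2 ⟨haN, hpos, hb2⟩))
      by_cases hb3 : ∀ p : ℕ, p.Prime → p ∣ a → (p : ℝ) ≤ z
      · refine Finset.mem_union_right _ (Finset.mem_union_right _ (Finset.mem_union_left _
          (Finset.mem_filter.2 ⟨?_, hpos, hb3⟩)))
        rw [Nat.floor_natCast]; exact haN
      push Not at hb3
      obtain ⟨q, hq, ⟨m, hm⟩, hqz⟩ := hb3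
      have hm0 : m ≠ 0 := by rintro rfl; simp at hm; omega
      by_cases hqm : q ∣ m
      · refine Finset.mem_union_right _ (Finset.mem_union_right _ (Finset.mem_union_right _
          (Finset.mem_filter.2 ⟨haN, hpos, q, hqz, ?_⟩)))
        rw [hm, sq]
        exact Nat.mul_dvd_mul_left q hqm
      · refine Finset.mem_union_left _ (Finset.mem_filter.2 ⟨haN, m, q, by rw [hm, mul_comm],
          Nat.pos_of_ne_zero hm0, hq, hqz, hqm, ?_, haD⟩)
        push Not at hb2
        refine le_trans ?_ hb2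
        have hperm := Nat.perm_primeFactorsList_mul hq.ne_zero hm0
        have hlen := hperm.length_eq
        rw [← hm, List.length_append] at hlen
        have : m.primeFactorsList.length ≤ a.primeFactorsList.length := by omega
        exact_mod_cast this
    have hcard : (((range (N + 1)).filter (fun a => ¬ Dense a)).card : ℝ) ≤
        1 + ((A1.card : ℝ) + ((A2.card : ℝ) + ((A3.card : ℝ) + (A4.card : ℝ)))) := by
      have h5 := Finset.card_le_card hcov
      have h6 := Finset.card_union_le ({0} : Finset ℕ) (A1 ∪ (A2 ∪ (A3 ∪ A4)))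
      have h7 := Finset.card_union_le A1 (A2 ∪ (A3 ∪ A4))
      have h8 := Finset.card_union_le A2 (A3 ∪ A4)
      have h9 := Finset.card_union_le A3 A4
      rw [Finset.card_singleton] at h6
      have : ((range (N + 1)).filter (fun a => ¬ Dense a)).card ≤
        1 + (A1.card + (A2.card + (A3.card + A4.card))) := by omega
      exact_mod_cast this
    have g1 : (A1.card : ℝ) < η / 6 * N := by rwa [div_lt_iff₀ hNpos] at f1
    have g2 : (A2.card : ℝ) < η / 6 * N := by rwa [div_lt_iff₀ hNpos] at f2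
    have g3 : (A3.card : ℝ) ≤ η / 12 * N + η / 6 * N := by
      refine (hsm N z hz2 hzN).trans ?_
      apply add_le_add
      · rw [Real.sqrt_eq_rpow]
        have h5 : (N:ℝ) = (N:ℝ) ^ (1 / 2 : ℝ) * (N:ℝ) ^ (1 / 2 : ℝ) := by
          rw [← Real.rpow_add hNpos]; norm_num
        have h6 : 0 < (N:ℝ) ^ (1 / 2 : ℝ) := Real.rpow_pos_of_pos hNpos _
        have h7 : 1 ≤ η / 12 * (N:ℝ) ^ (1 / 2 : ℝ) := by
          rw [div_lt_iff₀ hη] at f4
          nlinarith
        nth_rewrite 2 [h5]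
        nlinarith
      · rw [hz, Real.log_rpow hNpos, div_le_iff₀ hlog]
        have h8 : 0 ≤ (N : ℝ) * Real.log N := by positivity
        nlinarith
    have g4 : (A4.card : ℝ) ≤ η / 6 * N := by
      refine (card_sq N (by linarith)).trans ?_
      rw [div_le_iff₀ (by linarith)]
      rw [div_lt_iff₀ hη] at hzη
      nlinarith
    have g5 : (1:ℝ) ≤ η / 12 * N := by
      rw [div_lt_iff₀ hη] at f5
      nlinarith
    rw [Real.dist_eq, sub_zero, abs_of_nonneg (by positivity), div_lt_iff₀ hNpos]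
    have : 0 < η * N := by positivity
    nlinarith
  -- the complement
  have hlim : Tendsto (fun N : ℕ => ((N : ℝ) + 1) / N -
      (((range (N + 1)).filter (fun a => ¬ Dense a)).card : ℝ) / N) atTop (𝓝 (1 - 0)) := by
    apply Tendsto.sub _ hbad
    have h5 : Tendsto (fun N : ℕ => 1 + 1 / (N : ℝ)) atTop (𝓝 (1 + 0)) :=
      tendsto_const_nhds.add tendsto_one_div_atTop_nhds_zero_nat
    rw [add_zero] at h5
    refine h5.congr' ?_
    filter_upwards [eventually_ge_atTop 1] with N hN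
    have : (N : ℝ) ≠ 0 := by
      have : N ≠ 0 := by omega
      exact_mod_cast this
    field_simp
  rw [sub_zero] at hlim
  refine hlim.congr fun N => ?_
  have h6 := Finset.card_filter_add_card_filter_not (s := range (N + 1)) (fun a => Dense a)
  rw [Finset.card_range] at h6
  have h7 : (((range (N + 1)).filter (fun a => Dense a)).card : ℝ) +
      (((range (N + 1)).filter (fun a => ¬ Dense a)).card : ℝ) = (N : ℝ) + 1 := by
    exact_mod_cast h6
  rw [← sub_div]
  congr 1
  linarith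

end Pool.Agent.Helper18.NF
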