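import Pool.Agent.Helper18.NF.StN
import Pool.Agent.Helper18.NF.Basic
import Pool.Agent.TP.IdcMul

/-!
# Project NF: assembly of `FieldSys`
-/

set_option autoImplicit false

open Finset Filter Topology NumberField Module
open Pool.TP (idc)
open scoped nonZeroDivisors ArithmeticFunction.vonMangoldt

namespace Pool.Agent.Helper18.NF

/-- exactly one root if `D` is prime to `p - 1` -/
theorem rc_eq_one {D B p : ℕ} (hp : p.Prime) (hD0 : D ≠ 0) (hB : ¬ p ∣ B)
    (hD : D.Coprime (p - 1)) :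
    rc D B p = 1 := by
  haveI : Fact p.Prime := ⟨hp⟩
  have hB0 : (B : ZMod p) ≠ 0 := by
    rwa [Ne, ZMod.natCast_eq_zero_iff]
  have hcard : (Nat.card (ZMod p)ˣ).Coprime D := by
    rw [Nat.card_eq_fintype_card, ZMod.card_units_eq_totient, Nat.totient_prime hp]
    exact hD.symm
  set e := powCoprime hcard with he
  unfold rc
  rw [Nat.card_eq_one_iff_exists]
  refine ⟨⟨((e.symm (Units.mk0 (B : ZMod p) hB0) : (ZMod p)ˣ) : ZMod p), ?_⟩, ?_⟩
  · have h1 : (e.symm (Units.mk0 (B : ZMod p) hB0)) ^ D = Units.mk0 (B : ZMod p) hB0 :=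
      e.apply_symm_apply _
    have h2 := congrArg (Units.val) h1
    rw [Units.val_pow_eq_pow_val] at h2
    exact h2
  · rintro ⟨x, hx⟩
    apply Subtype.ext
    have hx0 : x ≠ 0 := by
      rintro rfl
      rw [zero_pow hD0] at hx
      exact hB0 hx.symm
    have h1 : e (Units.mk0 x hx0) = Units.mk0 (B : ZMod p) hB0 := by
      apply Units.ext
      change x ^ D = _
      exact hx
    have h2 : Units.mk0 x hx0 = e.symm (Units.mk0 (B : ZMod p) hB0) := by
      rw [← h1, e.symm_apply_apply]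
    exact congrArg Units.val h2

theorem rK_of_pos (K : Type) [Field K] [NumberField K] {m : ℕ} (hm : m ≠ 0) :
    rK K m = idc K m := by
  change (if m = 0 then (0:ℝ) else (idc K m : ℝ)) = _
  rw [if_neg hm]

theorem fieldSys (h1 : NFDmain) (h2 : CharSum) (h3 : Kap) (h4 : VonM) (h5 : RadField)
    (h6 : WitRes) : FieldSys := by
  intro D B hD hB hNP
  have hD0 : D ≠ 0 := by rintro rfl; exact absurd hD (by decide)
  obtain ⟨K, iF, iN, hfin, p0, hroot⟩ := h5 D B hD hB hNP
  obtain ⟨L, hL0, hLle, hconv⟩ := h4 K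
  obtain ⟨κ, hκ, hkap⟩ := h3 K
  have hoddK : Odd (finrank ℚ K) := by rw [hfin]; exact hD
  -- a family of representatives
  have hsurj : ∀ c : ClassGroup (𝓞 K), ∃ 𝔟 : (Ideal (𝓞 K))⁰, ClassGroup.mk0 𝔟 = c := fun c =>
    ClassGroup.mk0_surjective c
  choose 𝔟 h𝔟 using hsurj
  obtain ⟨C, hC, hmain⟩ := h1 K hoddK 𝔟 h𝔟
  have hone : rK K 1 = 1 := by
    rw [rK_of_pos K one_ne_zero, Pool.TP.IdcMul.idc_one, Nat.cast_one]
  have hL1 : L 1 = 0 := by
    have := hLle 1
    simp only [ArithmeticFunction.vonMangoldt_apply_one, mul_zero] at this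
    exact le_antisymm this (hL0 1)
  -- ideals at the primes `p` with `gcd (D, p - 1) = 1`
  have hr1 : ∀ p : ℕ, p.Prime → p0 ≤ p → B < p → D.Coprime (p - 1) → idc K p = 1 := by
    intro p hp hp0 hBp hcop
    rw [hroot p hp hp0]
    exact rc_eq_one hp hD0 (fun hd => absurd (Nat.le_of_dvd hB hd) (by omega)) hcop
  refine ⟨rK K, L, κ, ⟨Nat.pos_of_ne_zero hD0, hone, hL0, fun m => by rw [← hfin]; exact hLle m,
    hconv, hκ, ?_, ?_, ?_⟩, p0, fun p hp hp0 => ?_⟩
  · -- trivial character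
    refine ⟨C, hC, ?_⟩
    intro Bc T G hG hT
    obtain ⟨lG, hlG⟩ := hmain Bc G hG
    haveI : NeZero (1:ℕ) := ⟨one_ne_zero⟩
    set S0 : ℂ := ∑ c : ClassGroup (𝓞 K), cs (𝔟 c : Ideal (𝓞 K)) (1 : DirichletCharacter ℂ 1)
      with hS0
    have hb : ∀ T : ℝ, 1 ≤ T → ‖∑ m ∈ Icc 1 ⌊4 * T⌋₊, (idc K m : ℂ) * G (m / T) - T * (lG * S0)‖ ≤
        C * Bc * T ^ (1 - 1 / (D : ℝ)) := by
      intro T hT
      have := hlG 1 (1 : DirichletCharacter ℂ 1) T hT
      rw [hfin] at this
      simp only [Nat.cast_one, one_pow, div_one, mul_one] at this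
      have h7 : ∀ m : ℕ, (1 : DirichletCharacter ℂ 1) (m : ZMod 1) = 1 := by
        intro m
        rw [Subsingleton.elim (m : ZMod 1) 1, map_one]
      simp only [h7, mul_one] at this
      rw [mul_assoc] at this
      exact this
    -- identify the constant
    have hlim : lG * S0 = κ * ∫ y, G y := by
      have h8 := hkap Bc G hG
      have h9 : Tendsto (fun N : ℕ => (∑ m ∈ Icc 1 (4 * N), (idc K m : ℂ) * G (m / N)) / N) atTop
          (𝓝 (lG * S0)) := by
        rw [tendsto_iff_norm_sub_tendsto_zero]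
        have h10 : Tendsto (fun N : ℕ => C * Bc * (N : ℝ) ^ (-(1 / (D : ℝ)))) atTop (𝓝 0) := by
          have h11 : (0:ℝ) < 1 / (D : ℝ) := by
            have : (0:ℝ) < D := by exact_mod_cast Nat.pos_of_ne_zero hD0
            positivity
          have := ((tendsto_rpow_neg_atTop h11).comp tendsto_natCast_atTop_atTop).const_mul (C * Bc)
          simpa using this
        refine squeeze_zero' (Filter.Eventually.of_forall fun N => norm_nonneg _) ?_ h10
        filter_upwards [eventually_ge_atTop 1] with N hN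
        have hN1 : (1:ℝ) ≤ N := by exact_mod_cast hN
        have hN0 : (0:ℝ) < N := by linarith
        have h12 := hb N hN1
        have h13 : ⌊4 * (N : ℝ)⌋₊ = 4 * N := by
          rw [show (4 * (N : ℝ)) = ((4 * N : ℕ) : ℝ) by push_cast; ring, Nat.floor_natCast]
        rw [h13] at h12
        have hNc : ((N : ℕ) : ℂ) ≠ 0 := by exact_mod_cast hN0.ne'
        have h14 : (∑ m ∈ Icc 1 (4 * N), (idc K m : ℂ) * G (m / N)) / N - lG * S0 =
            (∑ m ∈ Icc 1 (4 * N), (idc K m : ℂ) * G (m / N) - ((N : ℝ) : ℂ) * (lG * S0)) / N := by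
          rw [Complex.ofReal_natCast]
          field_simp
        rw [h14, norm_div, Complex.norm_natCast, div_le_iff₀ hN0]
        refine h12.trans (le_of_eq ?_)
        rw [mul_assoc (C * Bc), mul_comm ((N : ℝ) ^ (-(1 / (D : ℝ))))]
        congr 1
        rw [sub_eq_add_neg, Real.rpow_add hN0, Real.rpow_one]
      exact tendsto_nhds_unique h9 h8
    have h15 := hb T hT
    rw [hlim] at h15
    have h16 : ∑ m ∈ Icc 1 ⌊4 * T⌋₊, ((rK K m : ℝ) : ℂ) * G (m / T) =
        ∑ m ∈ Icc 1 ⌊4 * T⌋₊, (idc K m : ℂ) * G (m / T) := by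
      apply Finset.sum_congr rfl
      intro m hm
      have hm0 : m ≠ 0 := by have := (Finset.mem_Icc.1 hm).1; omega
      rw [rK_of_pos K hm0]
      push_cast
      rfl
    rw [h16]
    refine le_trans (le_of_eq ?_) h15
    congr 2
    ring
  · -- nontrivial characters
    refine ⟨C, hC, ?_⟩
    intro q iq χ hχ Bc T G hG hT
    obtain ⟨lG, hlG⟩ := hmain Bc G hG
    obtain ⟨u, hu1, hu2, hu3, hu4⟩ := h6 q D hD χ hχ
    have hq0 : q ≠ 0 := NeZero.ne q
    haveI : NeZero (q * D) := ⟨mul_ne_zero hq0 hD0⟩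
    have hunit : IsUnit (u : ZMod (q * D)) := (ZMod.isUnit_iff_coprime u (q * D)).2 hu2
    obtain ⟨p, hpge, hpp, hpu⟩ := Nat.forall_exists_prime_gt_and_eq_mod hunit (max p0 B)
    have hp0 : p0 ≤ p := ((le_max_left _ _).trans_lt hpge).le
    have hBp : B < p := (le_max_right _ _).trans_lt hpge
    have hmod : p ≡ u [MOD q * D] := (ZMod.natCast_eq_natCast_iff _ _ _).1 hpu
    have hcopD : D.Coprime (p - 1) := by
      have h7 : p ≡ u [MOD D] := hmod.of_mul_left q
      have h8 : p - 1 ≡ u - 1 [MOD D] := by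
        have h9 : 1 + (p - 1) ≡ 1 + (u - 1) [MOD D] := by
          rw [Nat.add_sub_cancel' hpp.one_le, Nat.add_sub_cancel' hu1]
          exact h7
        exact Nat.ModEq.add_left_cancel' 1 h9
      have h10 : Nat.gcd (p - 1) D = Nat.gcd (u - 1) D := h8.gcd_eq
      rw [Nat.coprime_comm, Nat.Coprime, h10]
      exact hu3
    have hidc := hr1 p hpp hp0 hBp hcopD
    have hex : ∃ 𝔩 : Ideal (𝓞 K), Ideal.absNorm 𝔩 = p := by
      unfold idc at hidc
      rw [Nat.card_eq_one_iff_exists] at hidc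
      obtain ⟨⟨I, hI⟩, -⟩ := hidc
      exact ⟨I, hI⟩
    obtain ⟨𝔩, h𝔩⟩ := hex
    have hcs := h2 K hoddK q χ ⟨𝔩, by
      rw [h𝔩]
      have h11 : Nat.gcd p (q * D) = Nat.gcd u (q * D) := hmod.gcd_eq
      have h12 : p.Coprime (q * D) := by rw [Nat.Coprime, h11]; exact hu2
      exact Nat.Coprime.coprime_mul_right_right h12, by
      rw [h𝔩]
      have h13 : (p : ZMod q) = (u : ZMod q) :=
        (ZMod.natCast_eq_natCast_iff _ _ _).2 (hmod.of_mul_right D)
      rw [h13]
      exact hu4⟩ 𝔟 h𝔟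
    have h14 := hlG q χ T hT
    rw [hcs, mul_zero, zero_div, sub_zero, hfin] at h14
    refine le_trans (le_of_eq ?_) h14
    congr 1
    apply Finset.sum_congr rfl
    intro m hm
    have hm0 : m ≠ 0 := by have := (Finset.mem_Icc.1 hm).1; omega
    rw [rK_of_pos K hm0]
    push_cast
    rfl
  · -- the witness
    refine ⟨D, max (max p0 (B + 1)) 3, Nat.pos_of_ne_zero hD0, ?_⟩
    intro p hp hpge hdvd
    have hp0 : p0 ≤ p := (le_max_left _ _).trans ((le_max_left _ _).trans hpge)
    have hBp : B < p := lt_of_lt_of_le (Nat.lt_succ_self B)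
      ((le_max_right _ _).trans ((le_max_left _ _).trans hpge))
    have hp3 : 3 ≤ p := (le_max_right _ _).trans hpge
    have hcop : D.Coprime (p - 1) := by
      rw [Nat.Coprime]
      have h7 : Nat.gcd D (p - 1) ∣ 2 := by
        have h8 : Nat.gcd D (p - 1) ∣ p + 1 := (Nat.gcd_dvd_left _ _).trans hdvd
        have h9 : Nat.gcd D (p - 1) ∣ p - 1 := Nat.gcd_dvd_right _ _
        have h10 := Nat.dvd_sub h8 h9
        have h11 : p + 1 - (p - 1) = 2 := by omega
        rwa [h11] at h10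
      rcases (Nat.dvd_prime Nat.prime_two).1 h7 with h | h
      · exact h
      · exfalso
        have h12 : 2 ∣ D := h ▸ Nat.gcd_dvd_left D (p - 1)
        rw [Nat.odd_iff] at hD
        omega
    have h7 := hconv p
    rw [ArithmeticFunction.mul_apply, Nat.sum_divisorsAntidiagonal (fun a b => rK K a * L b),
      hp.divisors, Finset.sum_pair hp.one_lt.ne, Nat.div_one, Nat.div_self hp.pos, hone, one_mul,
      hL1, mul_zero, add_zero, rK_of_pos K hp.ne_zero, hr1 p hp hp0 hBp hcop, Nat.cast_one,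
      one_mul] at h7
    exact h7
  · rw [rK_of_pos K hp.ne_zero, hroot p hp hp0]

end Pool.Agent.Helper18.NF
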