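import Pool.Agent.Helper18.NF.Defs

/-!
# Project NF (MP_265190_nt): analytic statements for a system `IsSys n r L κ`
-/

set_option autoImplicit false

open Finset Filter Topology
open Pool.Agent.Helper18.BV
open scoped ArithmeticFunction.vonMangoldt

namespace Pool.Agent.Helper18.NF

/-! ### Part A: L-functions -/

/-- A1: continuation of the twisted L-functions to `Re s > 1 - 1/n`. -/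
def Cont : Prop :=
  ∀ (n : ℕ) (r L : ArithmeticFunction ℝ) (κ : ℝ), IsSys n r L κ → ∃ C : ℝ, 0 < C ∧
    ∀ (q : ℕ) [NeZero q] (χ : DirichletCharacter ℂ q), χ ≠ 1 →
      DifferentiableOn ℂ (LF (tw r χ)) {s | 1 - 1 / (n : ℝ) < s.re} ∧
      (∀ s : ℂ, 1 < s.re → LF (tw r χ) s = LSeries (tw r χ) s) ∧
      (∀ s : ℂ, 1 - 1 / (n : ℝ) < s.re → s.re ≤ 4 → ‖LF (tw r χ) s‖ ≤
        C * (q : ℝ) ^ n * (1 + ‖s‖) / (s.re - (1 - 1 / (n : ℝ))))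

/-- A1': the trivial character. -/
def Cont0 : Prop :=
  ∀ (n : ℕ) (r L : ArithmeticFunction ℝ) (κ : ℝ), IsSys n r L κ → ∃ (C : ℝ) (Z0 : ℂ → ℂ),
    0 < C ∧ DifferentiableOn ℂ Z0 {s | 1 - 1 / (n : ℝ) < s.re} ∧
      (∀ s : ℂ, 1 < s.re → LSeries (cr r) s = κ / (s - 1) + Z0 s) ∧
      (∀ s : ℂ, 1 - 1 / (n : ℝ) < s.re → s.re ≤ 4 → ‖Z0 s‖ ≤
        C * (1 + ‖s‖) / (s.re - (1 - 1 / (n : ℝ))))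

/-- A2: bounds near `s = 1`. -/
def LUpperF : Prop :=
  ∀ (n : ℕ) (r L : ArithmeticFunction ℝ) (κ : ℝ), IsSys n r L κ →
    ∀ ε : ℝ, 0 < ε → ∃ ρ C : ℝ, 0 < ρ ∧ ρ ≤ 1 / (4 * n) ∧ 0 < C ∧
      ∀ (q : ℕ) [NeZero q] (χ : DirichletCharacter ℂ q), χ ≠ 1 → ∀ s : ℂ, ‖s - 1‖ ≤ ρ →
        ‖LF (tw r χ) s‖ ≤ C * (q : ℝ) ^ ε ∧ ‖deriv (LF (tw r χ)) s‖ ≤ C * (q : ℝ) ^ ε

/-- A3: lower bound for `L(1, χ)`, complex characters. -/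
def LComplexF : Prop :=
  ∀ (n : ℕ) (r L : ArithmeticFunction ℝ) (κ : ℝ), IsSys n r L κ →
    ∀ ε : ℝ, 0 < ε → ∃ c : ℝ, 0 < c ∧
      ∀ (q : ℕ) [NeZero q] (χ : DirichletCharacter ℂ q), χ ^ 2 ≠ 1 →
        c * (q : ℝ) ^ (-ε) ≤ ‖LF (tw r χ) 1‖

/-- A4: Estermann's lemma. -/
def EstermannR : Prop :=
  ∀ ρ : ℝ, 0 < ρ → ρ ≤ 1 / 3 → ∃ c K : ℝ, 0 < c ∧ 0 < K ∧ ∀ (f G : ℂ → ℂ) (lam B β : ℝ),
    (∀ m : ℕ, 0 ≤ ((-1 : ℂ) ^ m * iteratedDeriv m f 2).re) → 1 ≤ (f 2).re → 1 ≤ B →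
    (∀ s : ℂ, 1 < s.re → f s = lam / (s - 1) + G s) →
    DifferentiableOn ℂ G (Metric.ball 2 (1 + 2 * ρ)) →
    (∀ s : ℂ, ‖s - 2‖ = 1 + ρ → ‖G s‖ ≤ B) →
    1 - ρ / 4 ≤ β → β < 1 → (G β).re ≤ lam / (1 - β) →
    c * (1 - β) * B ^ (-(K * (1 - β))) ≤ lam

/-- A5: the derivatives at `2` of the product of four L-functions alternate. -/
def AltF : Prop :=
  ∀ (n : ℕ) (r L : ArithmeticFunction ℝ) (κ : ℝ), IsSys n r L κ →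
  ∀ (q₁ q₂ q₃ : ℕ) [NeZero q₁] [NeZero q₂] [NeZero q₃] (χ₁ : DirichletCharacter ℂ q₁)
    (χ₂ : DirichletCharacter ℂ q₂) (χ₃ : DirichletCharacter ℂ q₃),
    χ₁ ^ 2 = 1 → χ₂ ^ 2 = 1 →
    (∀ m : ℕ, χ₃ (m : ZMod q₃) = χ₁ (m : ZMod q₁) * χ₂ (m : ZMod q₂)) →
    (∀ m : ℕ, 0 ≤ ((-1 : ℂ) ^ m * iteratedDeriv m (fun s => LSeries (cr r) s *
      LSeries (tw r χ₁) s * LSeries (tw r χ₂) s * LSeries (tw r χ₃) s) 2).re) ∧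
    1 ≤ (LSeries (cr r) 2 * LSeries (tw r χ₁) 2 * LSeries (tw r χ₂) 2 *
      LSeries (tw r χ₃) 2).re

/-- A5': the same for two L-functions. -/
def AltOneF : Prop :=
  ∀ (n : ℕ) (r L : ArithmeticFunction ℝ) (κ : ℝ), IsSys n r L κ →
  ∀ (q : ℕ) [NeZero q] (χ : DirichletCharacter ℂ q), χ ^ 2 = 1 →
    (∀ m : ℕ, 0 ≤ ((-1 : ℂ) ^ m * iteratedDeriv m (fun s => LSeries (cr r) s *
      LSeries (tw r χ) s) 2).re) ∧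
    1 ≤ (LSeries (cr r) 2 * LSeries (tw r χ) 2).re

/-- A6: nonvanishing at `s = 1`. -/
def NonVanF : Prop :=
  ∀ (n : ℕ) (r L : ArithmeticFunction ℝ) (κ : ℝ), IsSys n r L κ →
    ∀ (q : ℕ) [NeZero q] (χ : DirichletCharacter ℂ q), χ ≠ 1 → LF (tw r χ) 1 ≠ 0

/-- A7: Siegel's lower bound for real primitive characters. -/
def SiegelF : Prop :=
  ∀ (n : ℕ) (r L : ArithmeticFunction ℝ) (κ : ℝ), IsSys n r L κ →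
    ∀ ε : ℝ, 0 < ε → ∃ c : ℝ, 0 < c ∧
      ∀ (q : ℕ) [NeZero q] (χ : DirichletCharacter ℂ q), χ.IsPrimitive → χ ≠ 1 → χ ^ 2 = 1 →
        c * (q : ℝ) ^ (-ε) ≤ ‖LF (tw r χ) 1‖

/-- A8: the derivatives of `L'/L` near `s = 1` for small conductors. -/
def NearF : Prop :=
  ∀ (n : ℕ) (r L : ArithmeticFunction ℝ) (κ : ℝ), IsSys n r L κ →
  ∀ (B : ℝ) (k : ℕ), 0 < B → ∃ C X0 : ℝ, 0 < C ∧ 3 ≤ X0 ∧ ∀ x : ℝ, X0 ≤ x →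
    ∀ (q : ℕ) [NeZero q], 1 < q → (q : ℝ) ≤ Real.log x ^ B → ∀ χ ∈ prim q, ∀ s : ℂ,
      ‖s - 1‖ ≤ Real.log x ^ (-(1 / 2) : ℝ) →
      ‖iteratedDeriv k (fun z => deriv (LF (tw r χ)) z / LF (tw r χ) z) s‖ ≤
        C * Real.log x ^ (((k : ℝ) + 1) / 2)

/-- A9: prime number theorem for primitive characters of small conductor. -/
def SmallF : Prop :=
  ∀ (n : ℕ) (r L : ArithmeticFunction ℝ) (κ : ℝ), IsSys n r L κ →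
  ∀ g : ℝ → ℝ, IsWt g → ∀ A B : ℝ, 0 < A → 0 < B → ∃ C X0 : ℝ, 0 < C ∧ 3 ≤ X0 ∧
    ∀ x : ℝ, X0 ≤ x → ∀ q : ℕ, 1 < q → (q : ℝ) ≤ Real.log x ^ B → ∀ χ ∈ prim q,
      ‖SS (cx L) g x χ‖ ≤ C / Real.log x ^ A

/-- A10: the total mass. -/
def MassF : Prop :=
  ∀ (n : ℕ) (r L : ArithmeticFunction ℝ) (κ : ℝ), IsSys n r L κ →
  ∀ g : ℝ → ℝ, IsWt g → ∃ C X0 : ℝ, 0 < C ∧ 3 ≤ X0 ∧ ∀ x : ℝ, X0 ≤ x →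
    |∑ m ∈ Icc 1 ⌊x⌋₊, L m * wt g x m - Real.log x * ∫ v, g v| ≤ C

/-! ### Part B: large sieve and Vaughan's identity -/

/-- B1: Type I sums. -/
def TypeOneF : Prop :=
  ∀ (n : ℕ) (r L : ArithmeticFunction ℝ) (κ : ℝ), IsSys n r L κ →
  ∀ g : ℝ → ℝ, IsWt g → ∃ C : ℝ, 0 < C ∧ ∀ x : ℝ, 3 ≤ x →
    ∀ (q : ℕ) [NeZero q] (χ : DirichletCharacter ℂ q), χ ≠ 1 →
    ∀ (M : ℕ) (c : ArithmeticFunction ℂ) (Kc : ℝ), ∑ m ∈ Icc 1 M, ‖c m‖ / m ≤ Kc →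
      (∀ m, M < m → c m = 0) →
      ‖SS (c * cx r : ArithmeticFunction ℂ) g x χ‖ ≤
        C * (q : ℝ) ^ n * (M : ℝ) ^ (1 / (n : ℝ)) * Kc * Real.log x * x ^ (-(1 / (2 * n : ℝ))) ∧
      ‖SS (c * D (cx r) : ArithmeticFunction ℂ) g x χ‖ ≤
        C * (q : ℝ) ^ n * (M : ℝ) ^ (1 / (n : ℝ)) * Kc * Real.log x * x ^ (-(1 / (2 * n : ℝ)))

/-- B2: Type II sums on average over primitive characters. -/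
def TypeTwoF : Prop :=
  ∀ g : ℝ → ℝ, IsWt g → ∃ C : ℝ, 0 < C ∧ ∀ x : ℝ, 3 ≤ x → ∀ Q U V : ℕ, 1 ≤ Q → Q ^ 4 ≤ U →
    Q ^ 4 ≤ V → ∀ a b : ArithmeticFunction ℂ, (∀ n ≤ U, a n = 0) → (∀ n ≤ V, b n = 0) →
      ∀ A2 B2 : ℝ, ∑ n ∈ Icc 1 ⌊x⌋₊, ‖a n‖ ^ 2 / n ≤ A2 → ∑ n ∈ Icc 1 ⌊x⌋₊, ‖b n‖ ^ 2 / n ≤ B2 →
      ∑ q ∈ Icc 1 Q, ∑ χ ∈ prim q, ‖SS (a * b : ArithmeticFunction ℂ) g x χ‖ ≤
        C * Real.log x * Real.sqrt (A2 * B2)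

/-- B3: primitive characters of large conductor on average. -/
def LargeF : Prop :=
  ∀ (n : ℕ) (r L : ArithmeticFunction ℝ) (κ : ℝ), IsSys n r L κ →
  ∀ g : ℝ → ℝ, IsWt g → ∀ A : ℝ, 0 < A → ∃ B C X0 : ℝ, 0 < B ∧ 0 < C ∧ 3 ≤ X0 ∧
    ∀ x : ℝ, X0 ≤ x →
      ∑ q ∈ Ioc ⌊Real.log x ^ B⌋₊ ⌊x ^ (1 / (40 * n ^ 2) : ℝ)⌋₊,
        (1 / (q.totient : ℝ)) * ∑ χ ∈ prim q, ‖SS (cx L) g x χ‖ ≤ C / Real.log x ^ A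

/-- B4: one residue class for every modulus up to `x ^ (1/(40 n²))`, on average. -/
def BVavF : Prop :=
  ∀ (n : ℕ) (r L : ArithmeticFunction ℝ) (κ : ℝ), IsSys n r L κ →
  ∀ g : ℝ → ℝ, IsWt g → ∀ A : ℝ, 0 < A → ∃ C X0 : ℝ, 0 < C ∧ 3 ≤ X0 ∧
    ∀ x : ℝ, X0 ≤ x → ∀ c : ℕ → ℕ, (∀ d, Nat.Coprime (c d) d) →
      ∑ d ∈ Icc 1 ⌊x ^ (1 / (40 * n ^ 2) : ℝ)⌋₊,
        |∑ m ∈ (Icc 1 ⌊x⌋₊).filter (fun m => m ≡ c d [MOD d]), L m * wt g x m -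
          (1 / (d.totient : ℝ)) * ∑ m ∈ Icc 1 ⌊x⌋₊, L m * wt g x m| ≤ C / Real.log x ^ A

end Pool.Agent.Helper18.NF
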