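import Pool.Agent.Helper18.BV.Final
import Pool.Agent.Helper18.NF.EstermannR
import Pool.Agent.Helper18.NF.FieldSys
import Pool.Agent.Helper18.NF.DensOne
import Pool.Agent.Helper4.NF.LatSum
import Pool.Agent.Helper76.NF.UnitPart
import Pool.Agent.Helper76.NF.HEx
import Pool.Agent.Helper24.NF.Unfold
import Pool.Agent.Helper1.NF.PerN
import Pool.Agent.Helper1.NF.CharSum
import Pool.Agent.Helper1.NF.Alt
import Pool.Agent.Helper37.NF.NFDmain
import Pool.Agent.Helper67.NF.Kap
import Pool.Agent.Helper67.NF.TypeOne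
import Pool.Agent.Helper21.NF.VonM
import Pool.Agent.Helper95.NF.RadField
import Pool.Agent.Helper95.NF.BVav
import Pool.Agent.Helper26.NF.WitRes
import Pool.Agent.Helper26.NF.PatternK
import Pool.Agent.Helper18.NF.Cont0
import Pool.Agent.Helper85.NF.LUpperF
import Pool.Agent.Helper81.NF.LComplexF
import Pool.Agent.Helper87.NF.NonVan
import Pool.Agent.Helper64.NF.SiegelF
import Pool.Agent.Helper46.NF.NearF
import Pool.Agent.Helper46.NF.TypeTwoF
import Pool.Agent.Helper30.NF.SmallF
import Pool.Agent.Helper83.NF.MassF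
import Pool.Agent.Helper71.NF.LargeF
import Pool.Agent.Helper80.NF.Indic
import Pool.Agent.Helper54.NF.SpecialK
import Pool.Agent.Helper14.NF.MainK
import Pool.Agent.Helper68.NF.ExcMul
import Pool.Agent.Helper68.NF.FixedMul
import Pool.Agent.Helper68.NF.OmegaL
import Pool.Agent.Helper66.NF.Smooth

/-!
# Project NF: the main theorems
-/

set_option autoImplicit false

open Pool.Agent.Helper18.BV

namespace Pool.Agent.Helper18.NF

/-- Radical extensions `ℚ(B^(1/D))`, `D` odd: distribution of the norms of ideals. -/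
theorem fieldSys' : FieldSys :=
  fieldSys (Pool.Agent.Helper37.NF.nfdMain Pool.Agent.Helper4.NF.latSum
    (Pool.Agent.Helper76.NF.hEx Pool.Agent.Helper76.NF.unitPart) Pool.Agent.Helper24.NF.unfold
    Pool.Agent.Helper1.NF.perN) (Pool.Agent.Helper1.NF.charSum Pool.Agent.Helper1.NF.perN)
    Pool.Agent.Helper67.NF.kap Pool.Agent.Helper21.NF.vonM Pool.Agent.Helper95.NF.radField
    Pool.Agent.Helper26.NF.witRes

/-- Bombieri-Vinogradov for systems. -/
theorem bVavF' : BVavF := by
  have hC := Pool.Agent.Helper18.NF.cont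
  have hC0 := Pool.Agent.Helper18.NF.cont0
  have hU := Pool.Agent.Helper85.NF.lUpperF hC
  have hX := Pool.Agent.Helper81.NF.lComplexF hC hC0 hU
  have hN := Pool.Agent.Helper87.NF.nonVanF hC hC0
  have hS := Pool.Agent.Helper64.NF.siegelF hC hC0 hU estermannR Pool.Agent.Helper1.NF.altF
    Pool.Agent.Helper1.NF.altOneF hN
  have hF := Pool.Agent.Helper46.BV.fourierRep
  have hNe := Pool.Agent.Helper46.NF.nearF hC hU hX hS
  have hSm := Pool.Agent.Helper30.NF.smallF hC hNe hF
  have hT1 := Pool.Agent.Helper67.NF.typeOneF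
  have hT2 := Pool.Agent.Helper46.NF.typeTwoF Pool.Agent.Helper96.BV.tls hF
  have hL := Pool.Agent.Helper71.NF.largeF Pool.Agent.Helper18.BV.vaughanId hT1 hT2
  exact Pool.Agent.Helper95.NF.bVavF hSm hL

/-- Special primes with a prescribed Kummer pattern. -/
theorem specialK' : SpecialK :=
  Pool.Agent.Helper54.NF.specialK Pool.Agent.Helper80.NF.indic fieldSys' bVavF'
    (Pool.Agent.Helper83.NF.massF Pool.Agent.Helper18.NF.cont0 Pool.Agent.Helper46.BV.fourierRep)
    Pool.Agent.Helper28.BV.sieveW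

/-- The main theorem for the multiples `m q` of primes `q` in a dyadic block. -/
theorem mainK' : MainK :=
  Pool.Agent.Helper14.NF.mainK specialK' Pool.Agent.Helper26.NF.patternK
    Pool.Agent.Helper46.BV.rankLemma

theorem fixedMul' : FixedMul := Pool.Agent.Helper68.NF.fixedMul mainK'

theorem densOne' : DensOne :=
  densOne Pool.Agent.Helper66.NF.smooth Pool.Agent.Helper68.NF.omegaL
    (Pool.Agent.Helper68.NF.excMul mainK')

end Pool.Agent.Helper18.NF
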