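import Pool.Agent.Helper44.MertensProd

/-!
# Project NF, quantitative form: integers with many prime factors, primes in `(W, W ^ k]`
-/

set_option autoImplicit false

open Finset Filter Topology

namespace Pool.Agent.Helper18.NF

/-- the completely multiplicative function `(3/2) ^ Ω(n) / n` -/
noncomputable def fO : ℕ →*₀ ℝ where
  toFun n := if n = 0 then 0 else (3 / 2 : ℝ) ^ n.primeFactorsList.length / n
  map_zero' := by simp
  map_one' := by simp
  map_mul' m n := by
    rcases eq_or_ne m 0 with rfl | hm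
    · simp
    rcases eq_or_ne n 0 with rfl | hn
    · simp
    simp only [hm, hn, mul_eq_zero, or_self, if_false]
    have h1 : (m * n).primeFactorsList.length =
        m.primeFactorsList.length + n.primeFactorsList.length := by
      rw [(Nat.perm_primeFactorsList_mul hm hn).length_eq, List.length_append]
    rw [h1, pow_add, Nat.cast_mul]
    field_simp

theorem fO_of_ne {n : ℕ} (hn : n ≠ 0) : fO n = (3 / 2 : ℝ) ^ n.primeFactorsList.length / n :=
  if_neg hn

theorem fO_nonneg (n : ℕ) : 0 ≤ fO n := by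
  rcases eq_or_ne n 0 with rfl | hn
  · simp
  · rw [fO_of_ne hn]; positivity

theorem fO_prime {p : ℕ} (hp : p.Prime) : fO p = 3 / 2 / p := by
  rw [fO_of_ne hp.ne_zero, Nat.primeFactorsList_prime hp]
  simp

theorem fO_lt_one {p : ℕ} (hp : p.Prime) : ‖(fO : ℕ →* ℝ) p‖ < 1 := by
  change ‖fO p‖ < 1
  rw [Real.norm_eq_abs, abs_of_nonneg (fO_nonneg p), fO_prime hp, div_lt_one (by exact_mod_cast hp.pos)]
  have : (2:ℝ) ≤ p := by exact_mod_cast hp.two_le
  linarith

theorem sum_fO_le (N : ℕ) : ∑ a ∈ Icc 1 N, fO a ≤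
    ∏ p ∈ (N + 1).primesBelow, (1 - fO p)⁻¹ := by
  have h := EulerProduct.summable_and_hasSum_smoothNumbers_prod_primesBelow_geometric
    (f := (fO : ℕ →* ℝ)) (fun {p} hp => fO_lt_one hp) (N + 1)
  have h2 := h.2
  have h3 : HasSum (fun m : (N + 1).smoothNumbers => fO m) (∏ p ∈ (N + 1).primesBelow, (1 - fO p)⁻¹) := h2
  have h4 : HasSum (Set.indicator (N + 1).smoothNumbers (fun m => fO m))
      (∏ p ∈ (N + 1).primesBelow, (1 - fO p)⁻¹) := by
    rw [← hasSum_subtype_iff_indicator]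
    exact h3
  have h5 := sum_le_hasSum (Icc 1 N) (fun i _ => by
    apply Set.indicator_nonneg
    intro x _
    exact fO_nonneg x) h4
  refine le_trans (le_of_eq ?_) h5
  apply Finset.sum_congr rfl
  intro a ha
  rw [Finset.mem_Icc] at ha
  rw [Set.indicator_of_mem]
  rw [Nat.mem_smoothNumbers]
  refine ⟨by omega, fun p hp => ?_⟩
  have := Nat.le_of_dvd (by omega) (Nat.dvd_of_mem_primeFactorsList hp)
  omega

/-- few integers have many prime factors -/
theorem omegaQ : ∃ C : ℝ, 0 < C ∧ ∀ (N w : ℕ), 2 ≤ N →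
    (((Icc 1 N).filter (fun a => w < a.primeFactorsList.length)).card : ℝ) ≤
      C * N * Real.log N ^ 2 * (2 / 3 : ℝ) ^ w := by
  obtain ⟨c, C, hc, hC, hM⟩ := Pool.Agent.Helper44.mertens_prod
  refine ⟨(1 / c) ^ 2, by positivity, fun N w hN => ?_⟩
  have hN2 : (2:ℝ) ≤ N := by exact_mod_cast hN
  have hlog : 0 < Real.log N := Real.log_pos (by linarith)
  have h1 : (((Icc 1 N).filter (fun a => w < a.primeFactorsList.length)).card : ℝ) * (3 / 2) ^ w ≤
      N * ∑ a ∈ Icc 1 N, fO a := by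
    rw [Finset.mul_sum, ← nsmul_eq_mul, ← Finset.sum_const]
    refine (Finset.sum_le_sum (g := fun a => (N : ℝ) * fO a) ?_).trans
      (Finset.sum_le_sum_of_subset_of_nonneg (Finset.filter_subset _ _)
        (fun a _ _ => mul_nonneg (Nat.cast_nonneg _) (fO_nonneg a)))
    intro a ha
    obtain ⟨ha1, ha2⟩ := Finset.mem_filter.1 ha
    rw [Finset.mem_Icc] at ha1
    rw [fO_of_ne (by omega), mul_div_assoc', le_div_iff₀ (by exact_mod_cast ha1.1)]
    have h2 : (3 / 2 : ℝ) ^ w ≤ (3 / 2) ^ a.primeFactorsList.length :=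
      pow_le_pow_right₀ (by norm_num) ha2.le
    have h3 : (a : ℝ) ≤ N := by exact_mod_cast ha1.2
    calc (3 / 2 : ℝ) ^ w * a ≤ (3 / 2) ^ a.primeFactorsList.length * N :=
          mul_le_mul h2 h3 (Nat.cast_nonneg _) (by positivity)
      _ = _ := mul_comm _ _
  have h2 : ∏ p ∈ (N + 1).primesBelow, (1 - fO p)⁻¹ ≤ (1 / c * Real.log N) ^ 2 := by
    have h3 : (N + 1).primesBelow = Pool.Agent.Helper44.primesUpTo N := by
      ext p
      rw [Pool.Agent.Helper44.mem_primesUpTo (by positivity), Nat.mem_primesBelow, Nat.lt_succ_iff]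
      constructor
      · rintro ⟨h, hp⟩; exact ⟨hp, by exact_mod_cast h⟩
      · rintro ⟨hp, h⟩; exact ⟨by exact_mod_cast h, hp⟩
    rw [h3]
    have h4 := (hM N hN2).1
    have hpr : ∀ p ∈ Pool.Agent.Helper44.primesUpTo (N:ℝ), p.Prime := fun p hp =>
      ((Pool.Agent.Helper44.mem_primesUpTo (by positivity)).1 hp).1
    have h5 : ∏ p ∈ Pool.Agent.Helper44.primesUpTo N, (1 - fO p)⁻¹ ≤
        ∏ p ∈ Pool.Agent.Helper44.primesUpTo N, (((1 - (1:ℝ) / p)) ^ 2)⁻¹ := by
      apply Finset.prod_le_prod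
      · intro p hp
        rw [inv_nonneg, sub_nonneg]
        have := fO_lt_one (hpr p hp)
        change ‖fO p‖ < 1 at this
        rw [Real.norm_eq_abs, abs_of_nonneg (fO_nonneg p)] at this
        exact this.le
      · intro p hp
        have hp2 : (2:ℝ) ≤ p := by exact_mod_cast (hpr p hp).two_le
        have hx : (1:ℝ) / p ≤ 1 / 2 := one_div_le_one_div_of_le (by norm_num) hp2
        have hx0 : (0:ℝ) < 1 / p := by positivity
        apply inv_anti₀
        · apply pow_pos; linarith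
        · rw [fO_prime (hpr p hp)]
          have : (3:ℝ) / 2 / p = 3 / 2 * (1 / p) := by ring
          rw [this]
          nlinarith
    refine h5.trans ?_
    rw [Finset.prod_inv_distrib, Finset.prod_pow, ← inv_pow]
    have h6 : 0 < c / Real.log N := by positivity
    have h7 : (∏ q ∈ Pool.Agent.Helper44.primesUpTo N, (1 - (1 : ℝ) / q))⁻¹ ≤ 1 / c * Real.log N := by
      rw [show 1 / c * Real.log N = (c / Real.log N)⁻¹ by field_simp]
      exact inv_anti₀ h6 h4
    apply pow_le_pow_left₀ _ h7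
    rw [inv_nonneg]
    exact h6.le.trans h4
  have h3 := (h1.trans (mul_le_mul_of_nonneg_left ((sum_fO_le N).trans h2) (Nat.cast_nonneg N)))
  have h4 : (0:ℝ) < (3 / 2) ^ w := by positivity
  rw [← le_div_iff₀ h4] at h3
  refine h3.trans (le_of_eq ?_)
  rw [show (2 / 3 : ℝ) ^ w = 1 / (3 / 2) ^ w by rw [← one_div_pow]; norm_num]
  ring

/-- primes between `W` and a power of `W` -/
theorem primeBlock : ∃ k : ℕ, 1 ≤ k ∧ ∀ W w : ℕ, 2 ≤ W → w ≤ W → ∃ LB : Finset ℕ, LB.card = w ∧
    ∀ l ∈ LB, l.Prime ∧ W < l ∧ l ≤ W ^ k := by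
  obtain ⟨C, hC, hM⟩ := Pool.Agent.Helper44.mertens_interval
  obtain ⟨k, hk⟩ := exists_nat_gt (Real.exp (1 + C / Real.log 2))
  have hl2 : 0 < Real.log 2 := Real.log_pos (by norm_num)
  have hk1 : 1 ≤ k := by
    have h1 : (1:ℝ) ≤ Real.exp (1 + C / Real.log 2) := Real.one_le_exp (by positivity)
    have : (1:ℝ) < k := by linarith
    have : 1 < k := by exact_mod_cast this
    exact this.le
  refine ⟨k, hk1, fun W w hW hw => ?_⟩
  have hW2 : (2:ℝ) ≤ W := by exact_mod_cast hW
  have hlW : 0 < Real.log W := Real.log_pos (by linarith)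
  have hWk : (W : ℝ) ≤ (W : ℝ) ^ k := le_self_pow₀ (by linarith) (by omega)
  have h1 := hM W ((W : ℝ) ^ k) hW2 hWk
  rw [Real.log_pow, mul_div_assoc, div_self hlW.ne', mul_one] at h1
  have h2 : ⌊(W : ℝ)⌋₊ = W := Nat.floor_natCast W
  have h3 : ⌊(W : ℝ) ^ k⌋₊ = W ^ k := by
    rw [← Nat.cast_pow, Nat.floor_natCast]
  rw [h2, h3] at h1
  have h4 : C / Real.log W ≤ C / Real.log 2 :=
    div_le_div_of_nonneg_left hC.le hl2 (Real.log_le_log (by norm_num) hW2)
  have h5 : 1 + C / Real.log 2 ≤ Real.log k := by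
    rw [Real.le_log_iff_exp_le (by exact_mod_cast hk1)]
    exact hk.le
  have h6 : (1:ℝ) ≤ ∑ q ∈ (Finset.Ioc W (W ^ k)).filter Nat.Prime, (1:ℝ) / q := by
    rw [abs_le] at h1
    linarith [h1.1]
  have h7 : ∑ q ∈ (Finset.Ioc W (W ^ k)).filter Nat.Prime, (1:ℝ) / q ≤
      (((Finset.Ioc W (W ^ k)).filter Nat.Prime).card : ℝ) * (1 / W) := by
    rw [← nsmul_eq_mul, ← Finset.sum_const]
    apply Finset.sum_le_sum
    intro q hq
    have := (Finset.mem_Ioc.1 (Finset.mem_filter.1 hq).1).1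
    apply one_div_le_one_div_of_le (by linarith)
    exact_mod_cast this.le
  have h8 : (W : ℝ) ≤ (((Finset.Ioc W (W ^ k)).filter Nat.Prime).card : ℝ) := by
    have h9 := h6.trans h7
    rw [mul_one_div, le_div_iff₀ (by linarith), one_mul] at h9
    exact h9
  have h9 : w ≤ ((Finset.Ioc W (W ^ k)).filter Nat.Prime).card := by
    have : W ≤ ((Finset.Ioc W (W ^ k)).filter Nat.Prime).card := by exact_mod_cast h8
    omega
  obtain ⟨LB, hsub, hcard⟩ := Finset.exists_subset_card_eq h9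
  refine ⟨LB, hcard, fun l hl => ?_⟩
  obtain ⟨h10, h11⟩ := Finset.mem_filter.1 (hsub hl)
  rw [Finset.mem_Ioc] at h10
  exact ⟨h11, h10.1, h10.2⟩

end Pool.Agent.Helper18.NF
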