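import Pool.Agent.Helper18.NF.Final
import Pool.Agent.Helper18.NF.Quant1
import Pool.Agent.Helper48.CovSmooth

/-!
# Project NF, quantitative form: the exceptional set
-/

set_option autoImplicit false

open Finset Filter Topology
open Pool.Agent.Helper18.BV
open scoped Classical

namespace Pool.Agent.Helper18.NF

/-- the number of exceptions in a dyadic block -/
theorem block_card {C1 : ℝ} (hC1 : 0 < C1)
    (hM : ∀ (m T0 Y : ℕ) (LA LB : Finset ℕ), 1 ≤ m → 5 ≤ Y →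
    (∀ l ∈ LA, l.Prime ∧ l ≠ 2) → (∀ l : ℕ, l.Prime → l ≠ 2 → l ≤ max 3 T0 → l ∈ LA) →
    (∀ l ∈ LB, l.Prime ∧ l ≠ 2 ∧ l ∉ LA) → LB.card = m.primeFactorsList.length →
    (∀ l ∈ LB, m.primeFactorsList.length < l) → (∀ l ∈ LA ∪ LB, l < Y) →
    2 * m * Y ≤ Y ^ (T0 + 1) →
    ∀ S : Finset ℕ, (∀ q ∈ S, q.Prime ∧ Y ≤ q ∧ q < 2 * Y ∧ ¬ q ∣ m) →
      C1 * ((∏ l ∈ LA ∪ LB, l : ℕ) : ℝ) ^ 4 ≤ S.card → ∃ q ∈ S, Dense (m * q))
    {k : ℕ} (hk1 : 1 ≤ k)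
    (hk : ∀ W w : ℕ, 2 ≤ W → w ≤ W → ∃ LB : Finset ℕ, LB.card = w ∧
      ∀ l ∈ LB, l.Prime ∧ W < l ∧ l ≤ W ^ k)
    {n m i w : ℕ} (hn : 3 ≤ n) (hm : 1 ≤ m) (hw : m.primeFactorsList.length ≤ w) (hwn : w ≤ n)
    (hpow : (n ^ k) ^ w ≤ 2 ^ n) (hY : n ^ k < 2 ^ i) (hi : 14 * n ≤ i)
    (hsize : 2 * m ≤ (2 ^ i) ^ n) (S : Finset ℕ)
    (hS : ∀ q ∈ S, q.Prime ∧ 2 ^ i ≤ q ∧ q < 2 * 2 ^ i ∧ ¬ q ∣ m ∧ ¬ Dense (m * q)) :
    (S.card : ℝ) ≤ C1 * 2 ^ (12 * n) := by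
  obtain ⟨LB, hcard, hLB⟩ := hk n m.primeFactorsList.length (by omega) (hw.trans hwn)
  set LA : Finset ℕ := (range (n + 1)).filter (fun l => l.Prime ∧ l ≠ 2) with hLA
  have hnk : n ≤ n ^ k := Nat.le_self_pow (by omega) n
  have hmemA : ∀ l ∈ LA, l.Prime ∧ l ≠ 2 ∧ l ≤ n := by
    intro l hl
    obtain ⟨h1, h2, h3⟩ := Finset.mem_filter.1 hl
    exact ⟨h2, h3, by rw [Finset.mem_range] at h1; omega⟩
  have hprodA : ∏ l ∈ LA, l ≤ 4 ^ n := by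
    refine le_trans ?_ (primorial_le_four_pow n)
    unfold primorial
    apply Finset.prod_le_prod_of_subset_of_one_le'
    · intro l hl
      obtain ⟨h1, h2, h3⟩ := Finset.mem_filter.1 hl
      exact Finset.mem_filter.2 ⟨h1, h2⟩
    · intro l hl _
      exact (Finset.mem_filter.1 hl).2.one_le
  have hprodB : ∏ l ∈ LB, l ≤ 2 ^ n := by
    calc ∏ l ∈ LB, l ≤ ∏ _l ∈ LB, n ^ k := Finset.prod_le_prod' (fun l hl => (hLB l hl).2.2)
      _ = (n ^ k) ^ m.primeFactorsList.length := by rw [Finset.prod_const, hcard]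
      _ ≤ (n ^ k) ^ w := Nat.pow_le_pow_right (by omega) hw
      _ ≤ 2 ^ n := hpow
  have hprod : ∏ l ∈ LA ∪ LB, l ≤ 2 ^ (3 * n) := by
    have h1 : (∏ l ∈ LA ∪ LB, l) * (∏ l ∈ LA ∩ LB, l) = (∏ l ∈ LA, l) * ∏ l ∈ LB, l :=
      Finset.prod_union_inter
    have h2 : 1 ≤ ∏ l ∈ LA ∩ LB, l := by
      apply Finset.one_le_prod'
      intro l hl
      exact (hmemA l (Finset.mem_inter.1 hl).1).1.one_le
    calc ∏ l ∈ LA ∪ LB, l ≤ (∏ l ∈ LA ∪ LB, l) * (∏ l ∈ LA ∩ LB, l) := Nat.le_mul_of_pos_right _ h2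
      _ = (∏ l ∈ LA, l) * ∏ l ∈ LB, l := h1
      _ ≤ 4 ^ n * 2 ^ n := Nat.mul_le_mul hprodA hprodB
      _ = 2 ^ (3 * n) := by
        rw [show (4:ℕ) = 2 ^ 2 by norm_num, ← pow_mul, ← pow_add]
        congr 1; ring
  by_contra hcon
  push Not at hcon
  have h5 : 5 ≤ 2 ^ i := by
    calc 5 ≤ 2 ^ 3 := by norm_num
      _ ≤ 2 ^ i := Nat.pow_le_pow_right (by norm_num) (by omega)
  obtain ⟨q, hq, hD⟩ := hM m n (2 ^ i) LA LB hm h5
    (fun l hl => ⟨(hmemA l hl).1, (hmemA l hl).2.1⟩)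
    (fun l hl hl2 hle => Finset.mem_filter.2 ⟨Finset.mem_range.2 (by omega), hl, hl2⟩)
    (fun l hl => ⟨(hLB l hl).1, by have := (hLB l hl).2.1; omega, fun h => by
      have := (hmemA l h).2.2
      have := (hLB l hl).2.1
      omega⟩) hcard (fun l hl => by have := (hLB l hl).2.1; omega)
    (fun l hl => by
      rcases Finset.mem_union.1 hl with h | h
      · have := (hmemA l h).2.2; omega
      · have := (hLB l h).2.2; omega)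
    (by rw [pow_succ]; exact Nat.mul_le_mul_right _ hsize) S
    (fun q hq => ⟨(hS q hq).1, (hS q hq).2.1, (hS q hq).2.2.1, (hS q hq).2.2.2.1⟩) (by
      refine le_trans ?_ hcon.le
      apply mul_le_mul_of_nonneg_left _ hC1.le
      have h1 : ((∏ l ∈ LA ∪ LB, l : ℕ) : ℝ) ≤ 2 ^ (3 * n) := by exact_mod_cast hprod
      calc ((∏ l ∈ LA ∪ LB, l : ℕ) : ℝ) ^ 4 ≤ (2 ^ (3 * n)) ^ 4 :=
            pow_le_pow_left₀ (Nat.cast_nonneg _) h1 4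
        _ = 2 ^ (12 * n) := by rw [← pow_mul]; congr 1; ring)
  exact (hS q hq).2.2.2.2 hD

/-- the exceptions `a = m q` -/
theorem core_card {C1 : ℝ} (hC1 : 0 < C1)
    (hM : ∀ (m T0 Y : ℕ) (LA LB : Finset ℕ), 1 ≤ m → 5 ≤ Y →
    (∀ l ∈ LA, l.Prime ∧ l ≠ 2) → (∀ l : ℕ, l.Prime → l ≠ 2 → l ≤ max 3 T0 → l ∈ LA) →
    (∀ l ∈ LB, l.Prime ∧ l ≠ 2 ∧ l ∉ LA) → LB.card = m.primeFactorsList.length →
    (∀ l ∈ LB, m.primeFactorsList.length < l) → (∀ l ∈ LA ∪ LB, l < Y) →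
    2 * m * Y ≤ Y ^ (T0 + 1) →
    ∀ S : Finset ℕ, (∀ q ∈ S, q.Prime ∧ Y ≤ q ∧ q < 2 * Y ∧ ¬ q ∣ m) →
      C1 * ((∏ l ∈ LA ∪ LB, l : ℕ) : ℝ) ^ 4 ≤ S.card → ∃ q ∈ S, Dense (m * q))
    {k : ℕ} (hk1 : 1 ≤ k)
    (hk : ∀ W w : ℕ, 2 ≤ W → w ≤ W → ∃ LB : Finset ℕ, LB.card = w ∧
      ∀ l ∈ LB, l.Prime ∧ W < l ∧ l ≤ W ^ k)
    {n N w : ℕ} (hn : 3 ≤ n) (hwn : w ≤ n)
    (hpow : (n ^ k) ^ w ≤ 2 ^ n) (hY : n ^ k < 2 ^ (14 * n)) (hN1 : 1 ≤ N)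
    (hsize : 2 * N ≤ (2 ^ (14 * n)) ^ n) :
    (((Icc 1 N).filter (fun a => ∃ m q : ℕ, a = m * q ∧ 1 ≤ m ∧ q.Prime ∧ 2 ^ (14 * n) < q ∧
      ¬ q ∣ m ∧ m.primeFactorsList.length ≤ w ∧ ¬ Dense a)).card : ℝ) ≤
      C1 * N * (Nat.log 2 N + 1) / 2 ^ (2 * n) := by
  set y : ℕ := 2 ^ (14 * n) with hy
  have hy0 : 0 < y := by positivity
  set M : ℕ := N / y with hMdef
  set I : Finset ℕ := (range (Nat.log 2 N + 1)).filter (fun i => 14 * n ≤ i) with hI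
  set S : ℕ → ℕ → Finset ℕ := fun m i => (range (N + 1)).filter (fun q => q.Prime ∧ 2 ^ i ≤ q ∧
    q < 2 * 2 ^ i ∧ ¬ q ∣ m ∧ ¬ Dense (m * q)) with hSdef
  set Ms : Finset ℕ := (Icc 1 M).filter (fun m => m.primeFactorsList.length ≤ w) with hMs
  have hsub : (Icc 1 N).filter (fun a => ∃ m q : ℕ, a = m * q ∧ 1 ≤ m ∧ q.Prime ∧ y < q ∧
      ¬ q ∣ m ∧ m.primeFactorsList.length ≤ w ∧ ¬ Dense a) ⊆
      Ms.biUnion (fun m => I.biUnion (fun i => (S m i).image (fun q => m * q))) := by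
    intro a ha
    obtain ⟨haN, m, q, rfl, hm, hq, hyq, hqm, hmw, hD⟩ := Finset.mem_filter.1 ha
    rw [Finset.mem_Icc] at haN
    have hqN : q ≤ N := le_trans (Nat.le_mul_of_pos_left q hm) haN.2
    have hmM : m ≤ M := by
      rw [hMdef, Nat.le_div_iff_mul_le hy0]
      exact (Nat.mul_le_mul_left m hyq.le).trans haN.2
    have hlog1 : 2 ^ Nat.log 2 q ≤ q := Nat.pow_log_le_self 2 hq.ne_zero
    have hlog2 : q < 2 ^ (Nat.log 2 q + 1) := Nat.lt_pow_succ_log_self (by norm_num) q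
    rw [Finset.mem_biUnion]
    refine ⟨m, Finset.mem_filter.2 ⟨Finset.mem_Icc.2 ⟨hm, hmM⟩, hmw⟩, ?_⟩
    rw [Finset.mem_biUnion]
    refine ⟨Nat.log 2 q, Finset.mem_filter.2 ⟨Finset.mem_range.2 ?_, ?_⟩, ?_⟩
    · have := Nat.log_mono_right (b := 2) hqN
      omega
    · by_contra hcon
      push Not at hcon
      have : 2 ^ (Nat.log 2 q + 1) ≤ y := Nat.pow_le_pow_right (by norm_num) hcon
      omega
    · rw [Finset.mem_image]
      exact ⟨q, Finset.mem_filter.2 ⟨Finset.mem_range.2 (by omega), hq, hlog1,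
        by rw [pow_succ] at hlog2; omega, hqm, hD⟩, rfl⟩
  have hS : ∀ m ∈ Ms, ∀ i ∈ I, ((S m i).card : ℝ) ≤ C1 * 2 ^ (12 * n) := by
    intro m hm i hi
    obtain ⟨hm1, hm2⟩ := Finset.mem_filter.1 hm
    obtain ⟨hi1, hi2⟩ := Finset.mem_filter.1 hi
    rw [Finset.mem_Icc] at hm1
    have hyi : y ≤ 2 ^ i := Nat.pow_le_pow_right (by norm_num) hi2
    have hmN : m ≤ N := hm1.2.trans (Nat.div_le_self _ _)
    apply block_card hC1 hM hk1 hk hn hm1.1 hm2 hwn hpow (hY.trans_le hyi) hi2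
    · calc 2 * m ≤ 2 * N := Nat.mul_le_mul_left 2 hmN
        _ ≤ y ^ n := hsize
        _ ≤ (2 ^ i) ^ n := Nat.pow_le_pow_left hyi n
    · intro q hq
      exact (Finset.mem_filter.1 hq).2
  have h1 : (((Icc 1 N).filter (fun a => ∃ m q : ℕ, a = m * q ∧ 1 ≤ m ∧ q.Prime ∧ y < q ∧
      ¬ q ∣ m ∧ m.primeFactorsList.length ≤ w ∧ ¬ Dense a)).card : ℝ) ≤
      ∑ m ∈ Ms, ∑ i ∈ I, C1 * 2 ^ (12 * n) := by
    have h2 := (Finset.card_le_card hsub).trans Finset.card_biUnion_le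
    have h3 : (∑ m ∈ Ms, (I.biUnion (fun i => (S m i).image (fun q => m * q))).card : ℕ) ≤
        ∑ m ∈ Ms, ∑ i ∈ I, (S m i).card := by
      apply Finset.sum_le_sum
      intro m _
      refine Finset.card_biUnion_le.trans (Finset.sum_le_sum fun i _ => Finset.card_image_le)
    calc _ ≤ ((∑ m ∈ Ms, ∑ i ∈ I, (S m i).card : ℕ) : ℝ) := by exact_mod_cast h2.trans h3
      _ = ∑ m ∈ Ms, ∑ i ∈ I, ((S m i).card : ℝ) := by push_cast; rfl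
      _ ≤ _ := Finset.sum_le_sum fun m hm => Finset.sum_le_sum fun i hi => hS m hm i hi
  refine h1.trans ?_
  rw [Finset.sum_const, Finset.sum_const, nsmul_eq_mul, nsmul_eq_mul]
  have h4 : (Ms.card : ℝ) ≤ N / y := by
    have h5 : Ms.card ≤ M := (Finset.card_filter_le _ _).trans (by simp)
    have h6 : (M : ℝ) ≤ N / y := Nat.cast_div_le
    exact le_trans (by exact_mod_cast h5) h6
  have h7 : (I.card : ℝ) ≤ Nat.log 2 N + 1 := by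
    have h5 : I.card ≤ Nat.log 2 N + 1 := (Finset.card_filter_le _ _).trans (by simp)
    exact_mod_cast h5
  have h8 : (0:ℝ) ≤ C1 * 2 ^ (12 * n) := by positivity
  calc (Ms.card : ℝ) * (I.card * (C1 * 2 ^ (12 * n)))
      ≤ (N / y) * ((Nat.log 2 N + 1) * (C1 * 2 ^ (12 * n))) := by
        apply mul_le_mul h4 _ (by positivity) (by positivity)
        exact mul_le_mul_of_nonneg_right h7 h8
    _ = C1 * N * (Nat.log 2 N + 1) / 2 ^ (2 * n) := by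
        rw [hy]
        push_cast
        rw [show 14 * n = 12 * n + 2 * n by ring, pow_add]
        field_simp

end Pool.Agent.Helper18.NF
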