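import Pool.Agent.Helper18.NF.Quant2

/-!
# Project NF, quantitative form: the final estimate
-/

set_option autoImplicit false

open Finset Filter Topology
open Pool.Agent.Helper18.BV
open scoped Classical

namespace Pool.Agent.Helper18.NF

theorem two_pow_ge (n : ℕ) : Real.exp n ≤ 2 ^ (2 * n) := by
  have h1 : Real.exp 1 ≤ 4 := by linarith [Real.exp_one_lt_d9]
  calc Real.exp n = Real.exp 1 ^ n := by rw [← Real.exp_nat_mul, mul_one]
    _ ≤ 4 ^ n := pow_le_pow_left₀ (Real.exp_pos _).le h1 n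
    _ = 2 ^ (2 * n) := by rw [pow_mul]; norm_num

/-- the bound for large `x` -/
theorem quant_large : ∃ c C L0 : ℝ, 0 < c ∧ c ≤ 1 / 4 ∧ 0 < C ∧ 4 ≤ L0 ∧
    ∀ x : ℝ, 3 ≤ x → L0 ≤ Real.log x →
    (((Icc 1 ⌊x⌋₊).filter (fun a => ¬ Dense a)).card : ℝ) ≤
      C * x * Real.exp (-(c * (Real.sqrt (Real.log x) / Real.log (Real.log x)))) := by
  obtain ⟨C1, hC1, hM⟩ := mainK'
  obtain ⟨k, hk1, hk⟩ := primeBlock
  obtain ⟨C2, hC2, hOm⟩ := omegaQ
  obtain ⟨C3, hC3, y0, hy02, hSm⟩ := Pool.Agent.Helper48.Cov.smooth_bound 40 (by norm_num)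
  have hkr : (1:ℝ) ≤ k := by exact_mod_cast hk1
  have hl2 : 0 < Real.log 2 := Real.log_pos (by norm_num)
  have hl2' : Real.log 2 ≤ 0.7 := by linarith [Real.log_two_lt_d9]
  have hl32 : 0 < Real.log (3 / 2) := Real.log_pos (by norm_num)
  have hl32' : Real.log (3 / 2) ≤ 1 / 2 := by
    have := Real.log_le_sub_one_of_pos (show (0:ℝ) < 3 / 2 by norm_num)
    linarith
  set c1 : ℝ := Real.log (3 / 2) * Real.log 2 / k with hc1
  have hc1pos : 0 < c1 := by positivity
  have hc1le : c1 ≤ 1 / 2 := by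
    rw [hc1, div_le_iff₀ (by linarith)]
    nlinarith
  -- thresholds
  have hev1 : ∀ᶠ L : ℝ in atTop, 2 * Real.log L ^ 2 ≤ c1 / 2 * Real.sqrt L := by
    have h1 := isLittleO_log_rpow_rpow_atTop 2 (show (0:ℝ) < 1 / 2 by norm_num)
    have h2 := h1.def (show 0 < c1 / 4 by positivity)
    filter_upwards [h2, eventually_ge_atTop 1] with L hL hL1
    have h3 : 0 ≤ Real.log L := Real.log_nonneg hL1
    rw [Real.norm_eq_abs, Real.norm_eq_abs, abs_of_nonneg (by positivity),
      abs_of_nonneg (by positivity), ← Real.sqrt_eq_rpow] at hL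
    have h4 : Real.log L ^ (2:ℝ) = Real.log L ^ 2 := by norm_cast
    rw [h4] at hL
    linarith
  obtain ⟨L1, hL1⟩ := Filter.eventually_atTop.1 hev1
  obtain ⟨n1, hn1⟩ : ∃ n1 : ℕ, ∀ n ≥ n1, (n : ℝ) ^ k < 2 ^ n := by
    have h1 := tendsto_pow_const_div_const_pow_of_one_lt k (show (1:ℝ) < 2 by norm_num)
    have h2 := h1.eventually (gt_mem_nhds (show (0:ℝ) < 1 by norm_num))
    obtain ⟨n1, hn1⟩ := Filter.eventually_atTop.1 h2
    refine ⟨n1, fun n hn => ?_⟩
    have h3 := hn1 n hn
    rwa [div_lt_one (by positivity)] at h3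
  refine ⟨c1 / 2, C1 + 3 / 2 * C2 + C3 + 4, max (max 200 L1) (max ((n1 : ℝ) ^ 2) ((y0 : ℝ) ^ 2)),
    by positivity, by linarith, by positivity,
    (by norm_num : (4:ℝ) ≤ 200).trans ((le_max_left _ _).trans (le_max_left _ _)), ?_⟩
  intro x hx hL0
  set L : ℝ := Real.log x with hL
  have hL200 : 200 ≤ L := ((le_max_left _ _).trans (le_max_left _ _)).trans hL0
  have hLL1 : L1 ≤ L := ((le_max_right _ _).trans (le_max_left _ _)).trans hL0
  have hLn1 : (n1 : ℝ) ^ 2 ≤ L := ((le_max_left _ _).trans (le_max_right _ _)).trans hL0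
  have hLy0 : (y0 : ℝ) ^ 2 ≤ L := ((le_max_right _ _).trans (le_max_right _ _)).trans hL0
  have hx0 : 0 < x := by linarith
  set r : ℝ := Real.sqrt L with hr
  have hr2 : r ^ 2 = L := Real.sq_sqrt (by linarith)
  have hr0 : 0 ≤ r := Real.sqrt_nonneg _
  have hr14 : 14 ≤ r := by
    rw [hr]; apply Real.le_sqrt_of_sq_le; linarith
  set n : ℕ := ⌈r⌉₊ with hn
  have hnr : r ≤ n := Nat.le_ceil r
  have hnr' : (n : ℝ) < r + 1 := Nat.ceil_lt_add_one hr0
  have hn14 : (14:ℝ) ≤ n := hr14.trans hnr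
  have hn3 : 3 ≤ n := by
    have : (3:ℝ) ≤ n := by linarith
    exact_mod_cast this
  have hnn1 : n1 ≤ n := by
    have : (n1 : ℝ) ≤ r := by rw [hr]; exact Real.le_sqrt_of_sq_le hLn1
    exact_mod_cast this.trans hnr
  have hlogn : 1 ≤ Real.log n := by
    rw [Real.le_log_iff_exp_le (by linarith)]
    linarith [Real.exp_one_lt_d9]
  have hloglog : Real.log n ≤ Real.log L := by
    apply Real.log_le_log (by linarith)
    nlinarith
  set u : ℝ := n * Real.log 2 / (k * Real.log n) with hu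
  have hu0 : 0 ≤ u := by positivity
  set w : ℕ := ⌊u⌋₊ with hw
  have hwu : (w : ℝ) ≤ u := Nat.floor_le hu0
  have hwu' : u < w + 1 := Nat.lt_floor_add_one u
  have hun : u ≤ n := by
    rw [hu, div_le_iff₀ (by positivity)]
    have h1 : (1:ℝ) ≤ k * Real.log n := by nlinarith
    have h2 : (n:ℝ) * Real.log 2 ≤ n * 1 := mul_le_mul_of_nonneg_left (by linarith) (by linarith)
    have h3 : (n:ℝ) * 1 ≤ n * (k * Real.log n) := mul_le_mul_of_nonneg_left h1 (by linarith)
    linarith
  have hwn : w ≤ n := by exact_mod_cast hwu.trans hun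
  have hpow : (n ^ k) ^ w ≤ 2 ^ n := by
    have h1 : ((n:ℝ) ^ k) ^ w ≤ 2 ^ n := by
      have h2 : ((n:ℝ) ^ k) ^ w = Real.exp (k * w * Real.log n) := by
        rw [← pow_mul, ← Real.rpow_natCast, Real.rpow_def_of_pos (by linarith)]
        congr 1; push_cast; ring
      have h3 : (2:ℝ) ^ n = Real.exp (n * Real.log 2) := by
        rw [← Real.rpow_natCast, Real.rpow_def_of_pos (by norm_num)]
        congr 1; ring
      rw [h2, h3]
      apply Real.exp_le_exp.2
      have h4 : k * w * Real.log n ≤ k * u * Real.log n := by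
        apply mul_le_mul_of_nonneg_right _ (by linarith)
        exact mul_le_mul_of_nonneg_left hwu (by linarith)
      refine h4.trans (le_of_eq ?_)
      rw [hu]
      field_simp
    exact_mod_cast h1
  have hY : n ^ k < 2 ^ (14 * n) := by
    have h1 : n ^ k < 2 ^ n := by exact_mod_cast hn1 n hnn1
    exact h1.trans_le (Nat.pow_le_pow_right (by norm_num) (by omega))
  set N : ℕ := ⌊x⌋₊ with hN
  have hNx : (N : ℝ) ≤ x := Nat.floor_le hx0.le
  have hNx' : x < N + 1 := Nat.lt_floor_add_one x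
  have hN3 : 3 ≤ N := Nat.le_floor (by exact_mod_cast hx)
  have hN3r : (3:ℝ) ≤ N := by exact_mod_cast hN3
  have hlogN : Real.log N ≤ L := Real.log_le_log (by linarith) hNx
  have hlogN0 : 0 ≤ Real.log N := Real.log_nonneg (by linarith)
  have hlogN' : L - 1 ≤ Real.log N := by
    have h1 : x / 2 ≤ N := by linarith
    have h2 := Real.log_le_log (by linarith) h1
    rw [Real.log_div hx0.ne' (by norm_num)] at h2
    linarith
  have hLn2 : L ≤ (n : ℝ) ^ 2 := by rw [← hr2]; exact pow_le_pow_left₀ hr0 hnr 2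
  have hnL : (n : ℝ) ^ 2 / 4 ≤ L - 1 := by rw [← hr2]; nlinarith
  have hxn : x ≤ 2 ^ (2 * n ^ 2) := by
    calc x = Real.exp L := (Real.exp_log hx0).symm
      _ ≤ Real.exp ((n ^ 2 : ℕ) : ℝ) := by
        apply Real.exp_le_exp.2; push_cast; exact hLn2
      _ ≤ _ := two_pow_ge _
  have hsize : 2 * N ≤ (2 ^ (14 * n)) ^ n := by
    have h1 : (2:ℝ) * N ≤ 2 ^ (2 * n ^ 2 + 1) := by
      rw [pow_succ]
      linarith
    have h2 : 2 * N ≤ 2 ^ (2 * n ^ 2 + 1) := by exact_mod_cast h1
    refine h2.trans ?_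
    rw [← pow_mul]
    apply Nat.pow_le_pow_right (by norm_num)
    nlinarith
  set y : ℕ := 2 ^ (14 * n) with hy
  -- the four sets
  set A1 := (Icc 1 N).filter (fun a => ∃ m q : ℕ, a = m * q ∧ 1 ≤ m ∧ q.Prime ∧ y < q ∧
      ¬ q ∣ m ∧ m.primeFactorsList.length ≤ w ∧ ¬ Dense a) with hA1
  set A2 := (Icc 1 N).filter (fun a => w < a.primeFactorsList.length) with hA2
  set A3 := Pool.Agent.Helper48.Cov.Sm y N with hA3
  set A4 := (range (N + 1)).filter (fun a => 1 ≤ a ∧ ∃ q : ℕ, (y : ℝ) < (q : ℝ) ∧ q ^ 2 ∣ a) with hA4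
  have hcov : (Icc 1 N).filter (fun a => ¬ Dense a) ⊆ A1 ∪ (A2 ∪ (A3 ∪ A4)) := by
    intro a ha
    obtain ⟨haN, haD⟩ := Finset.mem_filter.1 ha
    have haN' := Finset.mem_Icc.1 haN
    by_cases hb2 : w < a.primeFactorsList.length
    · exact Finset.mem_union_right _ (Finset.mem_union_left _ (Finset.mem_filter.2 ⟨haN, hb2⟩))
    by_cases hb3 : ∀ q ∈ a.primeFactors, q ≤ y
    · refine Finset.mem_union_right _ (Finset.mem_union_right _ (Finset.mem_union_left _ ?_))
      rw [hA3, Pool.Agent.Helper48.Cov.mem_Sm]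
      exact ⟨⟨by omega, haN'.2⟩, hb3⟩
    push Not at hb3
    obtain ⟨q, hqa, hqy⟩ := hb3
    have hq := Nat.prime_of_mem_primeFactors hqa
    obtain ⟨m, hm⟩ := Nat.dvd_of_mem_primeFactors hqa
    have hm0 : m ≠ 0 := by rintro rfl; simp at hm; omega
    by_cases hqm : q ∣ m
    · refine Finset.mem_union_right _ (Finset.mem_union_right _ (Finset.mem_union_right _
        (Finset.mem_filter.2 ⟨Finset.mem_range.2 (by omega), haN'.1, q, by exact_mod_cast hqy, ?_⟩)))
      rw [hm, sq]
      exact Nat.mul_dvd_mul_left q hqm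
    · refine Finset.mem_union_left _ (Finset.mem_filter.2 ⟨haN, m, q, by rw [hm, mul_comm],
        Nat.pos_of_ne_zero hm0, hq, hqy, hqm, ?_, haD⟩)
      have hperm := Nat.perm_primeFactorsList_mul hq.ne_zero hm0
      have hlen := hperm.length_eq
      rw [← hm, List.length_append] at hlen
      omega
  -- the final function
  set E : ℝ := Real.exp (-(c1 / 2 * (r / Real.log L))) with hE
  have hlogL : 1 ≤ Real.log L := hlogn.trans hloglog
  have hE1 : Real.exp (-(r / 4)) ≤ E := by
    rw [hE]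
    apply Real.exp_le_exp.2
    have h1 : r / Real.log L ≤ r := div_le_self hr0 hlogL
    have h2 : 0 ≤ r / Real.log L := by positivity
    nlinarith
  have hEn : Real.exp (-(n:ℝ)) ≤ E := by
    refine le_trans (Real.exp_le_exp.2 ?_) hE1
    linarith
  have hE0 : 0 < E := Real.exp_pos _
  have b1 : (A1.card : ℝ) ≤ C1 * x * E := by
    refine (core_card hC1 hM hk1 hk hn3 hwn hpow hY (by omega) hsize).trans ?_
    have h1 : (Nat.log 2 N : ℝ) ≤ 2 * L := by
      have h2 : Real.log ((2:ℝ) ^ Nat.log 2 N) ≤ Real.log N := by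
        apply Real.log_le_log (by positivity)
        exact_mod_cast Nat.pow_log_le_self 2 (by omega)
      rw [Real.log_pow] at h2
      have h3 : 1 / 2 ≤ Real.log 2 := by linarith [Real.log_two_gt_d9]
      have h4 : (0:ℝ) ≤ Nat.log 2 N := Nat.cast_nonneg _
      nlinarith
    have h2 : (Nat.log 2 N + 1 : ℝ) ≤ Real.exp (3 / 4 * r) := by
      have h3 := Real.pow_div_factorial_le_exp (3 / 4 * r) (by positivity) 4
      have h4 : (3 / 4 * r) ^ 4 / ((4 : ℕ).factorial : ℝ) = 81 / 6144 * L ^ 2 := by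
        rw [← hr2]
        norm_num [Nat.factorial]
        ring
      rw [h4] at h3
      refine le_trans ?_ h3
      nlinarith
    have h3 : (Nat.log 2 N + 1 : ℝ) / 2 ^ (2 * n) ≤ E := by
      rw [div_le_iff₀ (by positivity)]
      calc (Nat.log 2 N + 1 : ℝ) ≤ Real.exp (3 / 4 * r) := h2
        _ = Real.exp (-(r / 4)) * Real.exp r := by rw [← Real.exp_add]; congr 1; ring
        _ ≤ E * 2 ^ (2 * n) := by
          apply mul_le_mul hE1 _ (Real.exp_pos _).le hE0.le
          exact (Real.exp_le_exp.2 hnr).trans (two_pow_ge n)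
    calc C1 * N * (Nat.log 2 N + 1) / 2 ^ (2 * n) = C1 * N * ((Nat.log 2 N + 1) / 2 ^ (2 * n)) := by
          ring
      _ ≤ C1 * x * E := by
        apply mul_le_mul (mul_le_mul_of_nonneg_left hNx hC1.le) h3 (by positivity) (by positivity)
  have b2 : (A2.card : ℝ) ≤ 3 / 2 * C2 * x * E := by
    refine (hOm N w (by omega)).trans ?_
    have h1 : (2 / 3 : ℝ) ^ w ≤ 3 / 2 * Real.exp (-(c1 * (r / Real.log L))) := by
      have h2 : (2 / 3 : ℝ) ^ w = Real.exp (-(Real.log (3 / 2) * w)) := by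
        rw [← Real.rpow_natCast, Real.rpow_def_of_pos (by norm_num)]
        congr 1
        rw [show (2 / 3 : ℝ) = (3 / 2)⁻¹ by norm_num, Real.log_inv]
        ring
      rw [h2]
      have h3 : r / Real.log L ≤ n / Real.log n :=
        div_le_div₀ (by linarith) hnr (by linarith) hloglog
      have h4 : c1 * (r / Real.log L) ≤ Real.log (3 / 2) * u := by
        calc c1 * (r / Real.log L) ≤ c1 * (n / Real.log n) := mul_le_mul_of_nonneg_left h3 hc1pos.le
          _ = Real.log (3 / 2) * u := by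
            rw [hc1, hu]
            field_simp
      calc Real.exp (-(Real.log (3 / 2) * w)) ≤
          Real.exp (Real.log (3 / 2) + -(c1 * (r / Real.log L))) := by
            apply Real.exp_le_exp.2
            nlinarith
        _ = 3 / 2 * Real.exp (-(c1 * (r / Real.log L))) := by
            rw [Real.exp_add, Real.exp_log (by norm_num)]
    have h2 : Real.log N ^ 2 * Real.exp (-(c1 * (r / Real.log L))) ≤ E := by
      have h3 : Real.log N ^ 2 ≤ Real.exp (c1 / 2 * (r / Real.log L)) := by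
        have h4 : Real.log N ^ 2 ≤ L ^ 2 := pow_le_pow_left₀ hlogN0 hlogN 2
        have h5 : L ^ 2 = Real.exp (2 * Real.log L) := by
          rw [two_mul, Real.exp_add, Real.exp_log (by linarith)]
          ring
        rw [h5] at h4
        refine h4.trans (Real.exp_le_exp.2 ?_)
        have h6 := hL1 L hLL1
        rw [mul_div_assoc', le_div_iff₀ (by linarith)]
        nlinarith
      calc Real.log N ^ 2 * Real.exp (-(c1 * (r / Real.log L))) ≤
          Real.exp (c1 / 2 * (r / Real.log L)) * Real.exp (-(c1 * (r / Real.log L))) :=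
            mul_le_mul_of_nonneg_right h3 (Real.exp_pos _).le
        _ = E := by rw [← Real.exp_add, hE]; congr 1; ring
    calc C2 * N * Real.log N ^ 2 * (2 / 3 : ℝ) ^ w ≤
        C2 * N * Real.log N ^ 2 * (3 / 2 * Real.exp (-(c1 * (r / Real.log L)))) :=
          mul_le_mul_of_nonneg_left h1 (by positivity)
      _ = 3 / 2 * C2 * N * (Real.log N ^ 2 * Real.exp (-(c1 * (r / Real.log L)))) := by ring
      _ ≤ 3 / 2 * C2 * x * E := by
        apply mul_le_mul (mul_le_mul_of_nonneg_left hNx (by positivity)) h2 (by positivity)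
          (by positivity)
  have b3 : (A3.card : ℝ) ≤ C3 * x * E := by
    have hyy : y0 ≤ y := by
      have h1 : (y0 : ℝ) ≤ r := by rw [hr]; exact Real.le_sqrt_of_sq_le hLy0
      have h2 : y0 ≤ n := by exact_mod_cast h1.trans hnr
      have h3 : n < 2 ^ n := Nat.lt_two_pow_self
      have h4 : 2 ^ n ≤ y := Nat.pow_le_pow_right (by norm_num) (by omega)
      omega
    refine (hSm y hyy N (by omega)).trans ?_
    have hlogy : Real.log y = 14 * n * Real.log 2 := by
      rw [hy]; push_cast; rw [Real.log_pow]; push_cast; ring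
    have h1 : Real.exp (-(40 * Real.log N / Real.log y)) ≤ E := by
      refine le_trans (Real.exp_le_exp.2 ?_) hEn
      rw [neg_le_neg_iff, hlogy, le_div_iff₀ (by positivity)]
      have h2 : (n:ℝ) * (14 * n * Real.log 2) ≤ 10 * n ^ 2 := by
        have h3 : (n:ℝ) * (14 * n * Real.log 2) = 14 * Real.log 2 * n ^ 2 := by ring
        rw [h3]
        apply mul_le_mul_of_nonneg_right _ (by positivity)
        linarith
      linarith
    apply mul_le_mul (mul_le_mul_of_nonneg_left hNx hC3.le) h1 (Real.exp_pos _).le (by positivity)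
  have b4 : (A4.card : ℝ) ≤ 2 * x * E := by
    have hy1 : (1:ℝ) ≤ y := by
      rw [hy]; push_cast
      exact one_le_pow₀ (by norm_num)
    refine (card_sq N hy1).trans ?_
    have h1 : 1 / (y:ℝ) ≤ E := by
      refine le_trans ?_ hEn
      rw [Real.exp_neg, one_div]
      apply inv_anti₀ (Real.exp_pos _)
      refine (two_pow_ge n).trans ?_
      rw [hy]; push_cast
      exact pow_le_pow_right₀ (by norm_num) (by omega)
    calc 2 * (N:ℝ) / y = 2 * N * (1 / y) := by ring
      _ ≤ 2 * x * E := by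
        apply mul_le_mul (mul_le_mul_of_nonneg_left hNx (by norm_num)) h1 (by positivity)
          (by positivity)
  calc (((Icc 1 N).filter (fun a => ¬ Dense a)).card : ℝ) ≤ ((A1 ∪ (A2 ∪ (A3 ∪ A4))).card : ℝ) := by
        exact_mod_cast Finset.card_le_card hcov
    _ ≤ A1.card + (A2.card + (A3.card + A4.card)) := by
        have h1 := Finset.card_union_le A1 (A2 ∪ (A3 ∪ A4))
        have h2 := Finset.card_union_le A2 (A3 ∪ A4)
        have h3 := Finset.card_union_le A3 A4
        exact_mod_cast (by omega : (A1 ∪ (A2 ∪ (A3 ∪ A4))).card ≤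
          A1.card + (A2.card + (A3.card + A4.card)))
    _ ≤ C1 * x * E + (3 / 2 * C2 * x * E + (C3 * x * E + 2 * x * E)) := by linarith
    _ ≤ (C1 + 3 / 2 * C2 + C3 + 4) * x * E := by
        have : 0 ≤ x * E := by positivity
        nlinarith

/-- **The exceptional set.** -/
theorem quant : ∃ c C : ℝ, 0 < c ∧ 0 < C ∧ ∀ x : ℝ, 3 ≤ x →
    ({a : ℕ | 1 ≤ a ∧ (a : ℝ) ≤ x ∧ ¬ Dense a}.ncard : ℝ) ≤
      C * x * Real.exp (-(c * Real.sqrt (Real.log x) / Real.log (Real.log x))) := by
  obtain ⟨c, C, L0, hc, hc4, hC, hL04, hmain⟩ := quant_large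
  have hll3 : 0 < Real.log (Real.log 3) := by
    apply Real.log_pos
    rw [Real.lt_log_iff_exp_lt (by norm_num)]
    linarith [Real.exp_one_lt_d9]
  refine ⟨c, C + Real.exp (c * (Real.sqrt L0 / Real.log (Real.log 3))), hc, by positivity, ?_⟩
  intro x hx
  have hx0 : 0 < x := by linarith
  have hset : {a : ℕ | 1 ≤ a ∧ (a : ℝ) ≤ x ∧ ¬ Dense a} =
      (((Icc 1 ⌊x⌋₊).filter (fun a => ¬ Dense a) : Finset ℕ) : Set ℕ) := by
    ext a
    simp only [Finset.coe_filter, Finset.mem_Icc, Set.mem_ofPred_eq]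
    rw [Nat.le_floor_iff hx0.le, and_assoc]
  rw [hset, Set.ncard_coe_finset, mul_div_assoc]
  rcases le_or_gt L0 (Real.log x) with h | h
  · refine (hmain x hx h).trans ?_
    apply mul_le_mul_of_nonneg_right _ (Real.exp_pos _).le
    apply mul_le_mul_of_nonneg_right _ hx0.le
    linarith [Real.exp_pos (c * (Real.sqrt L0 / Real.log (Real.log 3)))]
  · have h1 : (((Icc 1 ⌊x⌋₊).filter (fun a => ¬ Dense a)).card : ℝ) ≤ x := by
      have h2 : ((Icc 1 ⌊x⌋₊).filter (fun a => ¬ Dense a)).card ≤ ⌊x⌋₊ :=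
        (Finset.card_filter_le _ _).trans (by simp)
      exact le_trans (by exact_mod_cast h2) (Nat.floor_le hx0.le)
    refine h1.trans ?_
    have hl3 : Real.log 3 ≤ Real.log x := Real.log_le_log (by norm_num) hx
    have hlog3 : 0 < Real.log 3 := Real.log_pos (by norm_num)
    have h3 : Real.sqrt (Real.log x) / Real.log (Real.log x) ≤
        Real.sqrt L0 / Real.log (Real.log 3) := by
      apply div_le_div₀ (Real.sqrt_nonneg _) (Real.sqrt_le_sqrt h.le) hll3
      exact Real.log_le_log hlog3 hl3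
    have h4 : 1 ≤ Real.exp (c * (Real.sqrt L0 / Real.log (Real.log 3))) *
        Real.exp (-(c * (Real.sqrt (Real.log x) / Real.log (Real.log x)))) := by
      rw [← Real.exp_add]
      apply Real.one_le_exp
      have := mul_le_mul_of_nonneg_left h3 hc.le
      linarith
    have h5 := Real.exp_pos (-(c * (Real.sqrt (Real.log x) / Real.log (Real.log x))))
    calc x = x * 1 := (mul_one x).symm
      _ ≤ x * (Real.exp (c * (Real.sqrt L0 / Real.log (Real.log 3))) *
        Real.exp (-(c * (Real.sqrt (Real.log x) / Real.log (Real.log x))))) :=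
          mul_le_mul_of_nonneg_left h4 hx0.le
      _ ≤ _ := by
        have h6 : 0 ≤ C * x * Real.exp (-(c * (Real.sqrt (Real.log x) / Real.log (Real.log x)))) := by
          positivity
        nlinarith

end Pool.Agent.Helper18.NF
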