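import Pool.Agent.Helper18.NF.Defs

/-!
# Project NF (MP_265190_nt): statements on number fields

`K` is a number field of odd degree `n`. The goal is `FieldSys`: for odd `D` and `B` not an `l`-th
power for any prime `l ∣ D`, the field `K = ℚ(B^(1/D))` gives a system `IsSys D r L κ` with
`r p = #{x mod p : x ^ D = B}` for all large primes `p`.
-/

set_option autoImplicit false

open Finset Filter Topology NumberField Module MeasureTheory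
open Pool.TP (idc)
open scoped nonZeroDivisors ArithmeticFunction.vonMangoldt Classical

namespace Pool.Agent.Helper18.NF

/-! ### Lattices -/

/-- N1: sums of Lipschitz functions over translates of a lattice. -/
def LatSum : Prop :=
  ∀ (E : Type) [NormedAddCommGroup E] [NormedSpace ℝ E] [FiniteDimensional ℝ E]
    [MeasurableSpace E] [BorelSpace E] (μ : Measure E) [μ.IsAddHaarMeasure]
    (La : Submodule ℤ E) [DiscreteTopology La] [IsZLattice ℝ La] (n : ℕ),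
    finrank ℝ E = n → 1 ≤ n → ∀ R : ℝ, 0 < R → ∃ C : ℝ, 0 < C ∧
      ∀ (A : ℝ) (H : E → ℂ), (∀ y z, ‖H y - H z‖ ≤ A * ‖y - z‖) → (∀ y, R < ‖y‖ → H y = 0) →
        ∀ (t : ℝ) (v : E), 0 < t →
          {l : La | H (t⁻¹ • ((l : E) + v)) ≠ 0}.Finite ∧
          ‖∑ᶠ l : La, H (t⁻¹ • ((l : E) + v)) - ((t ^ n / ZLattice.covolume La μ : ℝ) : ℂ) *
            ∫ y, H y ∂μ‖ ≤ C * A * (1 + t) ^ (n - 1)

/-! ### The smooth fundamental domain for the units -/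

section
variable (K : Type) [Field K] [NumberField K]

/-- a partition of unity for the action of the units -/
structure IsPhi (Φ : mixedEmbedding.mixedSpace K → ℝ) (R : ℝ) : Prop where
  nonneg : ∀ y, 0 ≤ Φ y
  smul : ∀ (c : ℝ) (y : mixedEmbedding.mixedSpace K), c ≠ 0 → Φ (c • y) = Φ y
  supp : ∀ y, Φ y ≠ 0 → 0 < mixedEmbedding.norm y ∧
    ‖y‖ ^ finrank ℚ K ≤ R * mixedEmbedding.norm y
  lip : ∀ ρ : ℝ, ∃ C : ℝ, 0 < C ∧ ∀ y z : mixedEmbedding.mixedSpace K,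
    1 / 2 ≤ mixedEmbedding.norm y → 1 / 2 ≤ mixedEmbedding.norm z → ‖y‖ ≤ ρ → ‖z‖ ≤ ρ →
      |Φ y - Φ z| ≤ C * ‖y - z‖
  fin : ∀ y, mixedEmbedding.norm y ≠ 0 → {u : (𝓞 K)ˣ | Φ (u • y) ≠ 0}.Finite
  sum : ∀ y, mixedEmbedding.norm y ≠ 0 → ∑ᶠ u : (𝓞 K)ˣ, Φ (u • y) = 1

/-- the function `H` on the mixed space attached to a test function `G` -/
structure IsH (C R B : ℝ) (G : ℝ → ℂ) (H : mixedEmbedding.mixedSpace K → ℂ) : Prop where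
  lip : ∀ y z, ‖H y - H z‖ ≤ C * B * ‖y - z‖
  supp : ∀ y, R < ‖y‖ → H y = 0
  pos : ∀ (x : K) (t : ℝ), 0 < t → H (t • mixedEmbedding K x) ≠ 0 → 0 < Algebra.norm ℚ x
  fin : ∀ (x : K) (t : ℝ), x ≠ 0 → 0 < t →
    {u : (𝓞 K)ˣ | H (t • mixedEmbedding K (((u : 𝓞 K) : K) * x)) ≠ 0}.Finite
  sum : ∀ (x : K) (t : ℝ), x ≠ 0 → 0 < t →
    ∑ᶠ u : (𝓞 K)ˣ, H (t • mixedEmbedding K (((u : 𝓞 K) : K) * x)) =
      G (t ^ finrank ℚ K * |((Algebra.norm ℚ x : ℚ) : ℝ)|)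

end

/-- N2: a partition of unity exists. -/
def UnitPart : Prop :=
  ∀ (K : Type) [Field K] [NumberField K], ∃ (Φ : mixedEmbedding.mixedSpace K → ℝ) (R : ℝ),
    IsPhi K Φ R

/-- N3: the functions `H` exist. -/
def HEx : Prop :=
  ∀ (K : Type) [Field K] [NumberField K], Odd (finrank ℚ K) → ∃ C R : ℝ, 0 < C ∧ 0 < R ∧
    ∀ (B : ℝ) (G : ℝ → ℂ), IsTest B G → ∃ H : mixedEmbedding.mixedSpace K → ℂ, IsH K C R B G H

/-- N4: sums over ideals as sums over lattice points. -/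
def Unfold : Prop :=
  ∀ (K : Type) [Field K] [NumberField K] (C R B : ℝ) (G : ℝ → ℂ)
    (H : mixedEmbedding.mixedSpace K → ℂ), IsTest B G → IsH K C R B G H →
    ∀ 𝔟 : ClassGroup (𝓞 K) → (Ideal (𝓞 K))⁰, (∀ c, ClassGroup.mk0 (𝔟 c) = c) →
    ∀ (f : ℕ → ℂ) (T : ℝ), 0 < T →
      ∑ m ∈ Icc 1 ⌊4 * T⌋₊, (idc K m : ℂ) * f m * G (m / T) =
        ∑ c : ClassGroup (𝓞 K), ∑ᶠ α : (𝔟 c : Ideal (𝓞 K)),
          f ((Algebra.norm ℤ (α : 𝓞 K)).natAbs / Ideal.absNorm (𝔟 c : Ideal (𝓞 K))) *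
            H ((T * Ideal.absNorm (𝔟 c : Ideal (𝓞 K))) ^ (-(1 / (finrank ℚ K : ℝ))) •
              mixedEmbedding K ((α : 𝓞 K) : K))

/-! ### Norms of elements of an ideal modulo `k` -/

section
variable {K : Type} [Field K] [NumberField K]

/-- the norm of `α ∈ 𝔟` divided by the norm of `𝔟` -/
noncomputable def rn (𝔟 : Ideal (𝓞 K)) (α : 𝓞 K) : ℤ :=
  Algebra.norm ℤ α / (Ideal.absNorm 𝔟 : ℤ)

/-- `𝔟 / k 𝔟` -/
abbrev Qt (𝔟 : Ideal (𝓞 K)) (k : ℕ) : Type :=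
  (𝔟 : Type) ⧸ (nsmulAddMonoidHom (α := (𝔟 : Type)) k).range

/-- complete character sum over `𝔟 / k 𝔟` -/
noncomputable def cs (𝔟 : Ideal (𝓞 K)) {k : ℕ} (χ : DirichletCharacter ℂ k) : ℂ :=
  ∑ᶠ c : Qt 𝔟 k, χ ((rn 𝔟 ((Quotient.out c : 𝔟) : 𝓞 K) : ℤ) : ZMod k)

end

/-- N5: periodicity of the relative norm. -/
def PerN : Prop :=
  ∀ (K : Type) [Field K] [NumberField K] (𝔟 : Ideal (𝓞 K)), 𝔟 ≠ ⊥ → ∀ k : ℕ,
    ∀ α ∈ 𝔟, ∀ β ∈ 𝔟, ((rn 𝔟 (α + k * β) : ℤ) : ZMod k) = ((rn 𝔟 α : ℤ) : ZMod k)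

/-- N6: the complete character sums cancel. -/
def CharSum : Prop :=
  ∀ (K : Type) [Field K] [NumberField K], Odd (finrank ℚ K) →
    ∀ (k : ℕ) [NeZero k] (χ : DirichletCharacter ℂ k),
    (∃ 𝔩 : Ideal (𝓞 K), (Ideal.absNorm 𝔩).Coprime k ∧ χ ((Ideal.absNorm 𝔩 : ℕ) : ZMod k) ≠ 1) →
    ∀ 𝔟 : ClassGroup (𝓞 K) → (Ideal (𝓞 K))⁰, (∀ c, ClassGroup.mk0 (𝔟 c) = c) →
      ∑ c : ClassGroup (𝓞 K), cs (𝔟 c : Ideal (𝓞 K)) χ = 0

/-- N7: ideals weighted by a character of the norm. -/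
def NFDmain : Prop :=
  ∀ (K : Type) [Field K] [NumberField K], Odd (finrank ℚ K) →
    ∀ 𝔟 : ClassGroup (𝓞 K) → (Ideal (𝓞 K))⁰, (∀ c, ClassGroup.mk0 (𝔟 c) = c) →
    ∃ C : ℝ, 0 < C ∧ ∀ (B : ℝ) (G : ℝ → ℂ), IsTest B G → ∃ lG : ℂ,
      ∀ (q : ℕ) [NeZero q] (χ : DirichletCharacter ℂ q) (T : ℝ), 1 ≤ T →
        ‖∑ m ∈ Icc 1 ⌊4 * T⌋₊, (idc K m : ℂ) * χ (m : ZMod q) * G (m / T) -
          T * lG * (∑ c : ClassGroup (𝓞 K), cs (𝔟 c : Ideal (𝓞 K)) χ) / (q : ℂ) ^ finrank ℚ K‖ ≤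
          C * B * (q : ℝ) ^ finrank ℚ K * T ^ (1 - 1 / (finrank ℚ K : ℝ))

/-- N8: the mean value of the number of ideals, with a Lipschitz weight. -/
def Kap : Prop :=
  ∀ (K : Type) [Field K] [NumberField K], ∃ κ : ℝ, 0 < κ ∧ ∀ (B : ℝ) (G : ℝ → ℂ), IsTest B G →
    Tendsto (fun N : ℕ => (∑ m ∈ Icc 1 (4 * N), (idc K m : ℂ) * G (m / N)) / N) atTop
      (𝓝 (κ * ∫ y, G y))

/-- the number of nonzero ideals of norm `m` -/
noncomputable def rK (K : Type) [Field K] [NumberField K] : ArithmeticFunction ℝ :=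
  ⟨fun m => if m = 0 then 0 else (idc K m : ℝ), by simp⟩

/-- N9: the von Mangoldt function of a number field. -/
def VonM : Prop :=
  ∀ (K : Type) [Field K] [NumberField K], ∃ L : ArithmeticFunction ℝ, (∀ m : ℕ, 0 ≤ L m) ∧
    (∀ m : ℕ, L m ≤ finrank ℚ K * Λ m) ∧ ∀ m : ℕ, (rK K * L) m = rK K m * Real.log m

/-- N10: radical extensions. -/
def RadField : Prop :=
  ∀ D B : ℕ, Odd D → 1 ≤ B → NP D B → ∃ (K : Type) (_ : Field K) (_ : NumberField K),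
    finrank ℚ K = D ∧ ∃ p0 : ℕ, ∀ p : ℕ, p.Prime → p0 ≤ p → idc K p = rc D B p

/-- N11: a residue class on which a character is not `1`. -/
def WitRes : Prop :=
  ∀ (k D : ℕ) [NeZero k], Odd D → ∀ χ : DirichletCharacter ℂ k, χ ≠ 1 →
    ∃ u : ℕ, 1 ≤ u ∧ u.Coprime (k * D) ∧ (u - 1).Coprime D ∧ χ (u : ZMod k) ≠ 1

/-- The result of this part. -/
def FieldSys : Prop :=
  ∀ D B : ℕ, Odd D → 1 ≤ B → NP D B → ∃ (r L : ArithmeticFunction ℝ) (κ : ℝ), IsSys D r L κ ∧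
    ∃ p0 : ℕ, ∀ p : ℕ, p.Prime → p0 ≤ p → r p = rc D B p

end Pool.Agent.Helper18.NF
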