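import Pool.Agent.Helper18.NF.StA
import Pool.Agent.Helper18.NF.StN
import Pool.Agent.Helper18.BV.Assemble2

/-!
# Project NF (MP_265190_nt): sieve, patterns, main theorem
-/

set_option autoImplicit false

open Finset Filter Topology
open Pool.Agent.Helper18.BV
open scoped ArithmeticFunction.vonMangoldt Classical

namespace Pool.Agent.Helper18.NF

/-- C1: the indicator function of a Kummer pattern as a combination of root counts. -/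
def Indic : Prop :=
  ∀ (Ls R : Finset ℕ) (y : ℕ → ℕ → ℤ), (∀ l ∈ Ls, l.Prime ∧ l ≠ 2) → (∀ r ∈ R, r.Prime) →
    (∀ l ∈ Ls, ∃ r ∈ R, ¬ (l : ℤ) ∣ y l r) →
    ∃ (ι : Finset ℕ) (c : ℕ → ℝ) (D B : ℕ → ℕ), 0 < ∑ i ∈ ι, c i ∧
      (∀ i ∈ ι, Odd (D i) ∧ D i ∣ ∏ l ∈ Ls, l ∧ 1 ≤ B i ∧ NP (D i) (B i)) ∧
      ∀ p : ℕ, p.Prime → (∀ l ∈ Ls, p % l = 1) → (∀ r ∈ R, ¬ p ∣ r) →
        ∑ i ∈ ι, c i * rc (D i) (B i) p = if Pat Ls R y p then 1 else 0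

/-- C2: special primes with a prescribed Kummer pattern. -/
def SpecialK : Prop :=
  ∃ c0 : ℝ, 0 < c0 ∧ c0 ≤ 1 / 4 ∧
  ∀ (Ls R : Finset ℕ) (y : ℕ → ℕ → ℤ), (∀ l ∈ Ls, l.Prime ∧ l ≠ 2) → (∀ r ∈ R, r.Prime) →
    (∀ l ∈ Ls, ∃ r ∈ R, ¬ (l : ℤ) ∣ y l r) →
    ∀ v u : ℕ, 0 < v → u.Coprime v → 2 ∣ v → (∀ r ∈ R, r ∣ v) → (∀ l ∈ Ls, l ∣ v ∧ u % l = 1) →
    (∀ r : ℕ, r.Prime → r ≠ 2 → r ∣ v → r ∉ Ls → u % r ≠ 1) →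
    ∀ g : ℝ → ℝ, IsWt g → (∃ y, g y ≠ 0) → ∃ c X0 : ℝ, 0 < c ∧ 3 ≤ X0 ∧ ∀ x : ℝ, X0 ≤ x →
      ∀ E : Finset ℕ, (∀ p : ℕ, p ∈ E ↔ (p.Prime ∧ (p : ℝ) ≤ x ∧ p ≡ u [MOD v] ∧
        Pat Ls R y p ∧ ∀ r : ℕ, r.Prime → r ∣ p - 1 → r = 2 ∨ r ∈ Ls ∨
          x ^ (c0 / (((∏ l ∈ Ls, l : ℕ) : ℝ) ^ 2)) < (r : ℝ))) →
      c ≤ ∑ p ∈ E, Real.log p * wt g x p

/-- C3: residue classes with prescribed quadratic characters of the small primes. -/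
def PatternK : Prop :=
  ∀ (Ls T : Finset ℕ) (w : ℕ), (∀ l ∈ Ls, l.Prime ∧ l ≠ 2) → 3 ∈ Ls →
    (∀ q ∈ T, q.Prime ∧ q ∉ Ls ∧ 5 ≤ q ∧ q ≤ w) → ∃ v u : ℕ,
    0 < v ∧ u.Coprime v ∧ 2 ∣ v ∧ (∀ r : ℕ, r.Prime → r ≤ w → r ∣ v) ∧
    (∀ l ∈ Ls, l ∣ v ∧ u % l = 1) ∧
    (∀ r : ℕ, r.Prime → r ≠ 2 → r ∣ v → r ∉ Ls → u % r ≠ 1) ∧
    ∀ p : ℕ, p.Prime → p ≡ u [MOD v] → w < p → ∀ n : ℕ, 1 ≤ n → n ≤ w →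
      (IsSquare ((n : ℕ) : ZMod p) ↔ ¬ odd T n)

/-- C4: the main theorem for multiples `m q` of primes `q` in a dyadic block. -/
def MainK : Prop :=
  ∃ C1 : ℝ, 0 < C1 ∧ ∀ (m T0 Y : ℕ) (LA LB : Finset ℕ), 1 ≤ m → 5 ≤ Y →
    (∀ l ∈ LA, l.Prime ∧ l ≠ 2) → (∀ l : ℕ, l.Prime → l ≠ 2 → l ≤ max 3 T0 → l ∈ LA) →
    (∀ l ∈ LB, l.Prime ∧ l ≠ 2 ∧ l ∉ LA) → LB.card = m.primeFactorsList.length →
    (∀ l ∈ LB, m.primeFactorsList.length < l) → (∀ l ∈ LA ∪ LB, l < Y) →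
    2 * m * Y ≤ Y ^ (T0 + 1) →
    ∀ S : Finset ℕ, (∀ q ∈ S, q.Prime ∧ Y ≤ q ∧ q < 2 * Y ∧ ¬ q ∣ m) →
      C1 * ((∏ l ∈ LA ∪ LB, l : ℕ) : ℝ) ^ 4 ≤ S.card → ∃ q ∈ S, Dense (m * q)

/-- C5: almost all multiples of a fixed `m`. -/
def FixedMul : Prop :=
  ∀ m : ℕ, 1 ≤ m → ∃ C : ℝ, 0 < C ∧ ∀ x : ℝ, 2 ≤ x →
    ({q : ℕ | q.Prime ∧ (q : ℝ) ≤ x ∧ ¬ Dense (m * q)}.ncard : ℝ) ≤ C * Real.log x

/-- C6: density one. -/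
def DensOne : Prop :=
  Tendsto (fun N : ℕ => (((range (N + 1)).filter (fun a => Dense a)).card : ℝ) / N) atTop (𝓝 1)

/-! ### Counting -/

/-- D1: few integers have only small prime factors. -/
def Smooth : Prop :=
  ∃ C : ℝ, 0 < C ∧ ∀ x z : ℝ, 2 ≤ z → z ≤ x →
    (((range (⌊x⌋₊ + 1)).filter (fun a => 1 ≤ a ∧ ∀ p : ℕ, p.Prime → p ∣ a → (p : ℝ) ≤ z)).card
      : ℝ) ≤ Real.sqrt x + C * x * Real.log z / Real.log x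

/-- D2: few integers have many prime factors. -/
def OmegaL : Prop :=
  ∀ δ : ℝ, 0 < δ → Tendsto (fun N : ℕ => (((range (N + 1)).filter (fun a => 1 ≤ a ∧
    δ * Real.sqrt (Real.log N) < (a.primeFactorsList.length : ℝ))).card : ℝ) / N) atTop (𝓝 0)

/-- D3: the exceptions `a = m q` with a large prime `q` and few prime factors of `m`. -/
def ExcMul : Prop :=
  ∀ ε : ℝ, 0 < ε → ε ≤ 1 / 2 → ∃ δ : ℝ, 0 < δ ∧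
    Tendsto (fun N : ℕ => (((range (N + 1)).filter (fun a => ∃ m q : ℕ, a = m * q ∧ 1 ≤ m ∧
      q.Prime ∧ (N : ℝ) ^ ε < q ∧ ¬ q ∣ m ∧
      (m.primeFactorsList.length : ℝ) ≤ δ * Real.sqrt (Real.log N) ∧ ¬ Dense a)).card : ℝ) / N)
      atTop (𝓝 0)

end Pool.Agent.Helper18.NF
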